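import Mathlib

set_option autoImplicit false

/-!
Definitions for the asymptotic expansion conjecture (`G = SU(2)`, `h = 2`, level `k = r - 2`).
-/

open Complex

namespace Pool.Agent.Lib.MP_fcdc94_gt

/-- The data of the asymptotic expansion conjecture: finitely many phases `c 0 = 0, …, c m`
(pairwise distinct modulo `1`), growth exponents `d j`, phase shifts `I j`, leading coefficients
`v j ≥ 0` and higher coefficients `a j e`.  (The conjecture asks for rational `d j`, `I j` and
for `v j > 0`; more is allowed here, so that excluding such data is a stronger statement.) -/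
structure Expansion where
  m : ℕ
  c : Fin (m + 1) → ℝ
  c_zero : c 0 = 0
  c_distinct : ∀ i j, i ≠ j → ∀ k : ℤ, c i - c j ≠ k
  d : Fin (m + 1) → ℝ
  I : Fin (m + 1) → ℝ
  v : Fin (m + 1) → ℝ
  v_nonneg : ∀ j, 0 ≤ v j
  a : Fin (m + 1) → ℕ → ℂ

namespace Expansion

variable (X : Expansion)

/-- `d = max_j d_j`. -/
noncomputable def top : ℝ := Finset.univ.sup' Finset.univ_nonempty X.d

/-- The truncated expansion `S_E(r)`, in powers of `r ^ (-δ)`.  The conjecture uses `δ = 1`. -/
noncomputable def S (δ : ℝ) (E r : ℕ) : ℂ :=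
  ∑ j, (X.v j : ℂ) * exp (2 * Real.pi * Complex.I * (r * X.c j + X.I j / 8)) *
    (((r : ℝ) ^ (X.d j) : ℝ) : ℂ) *
    (1 + ∑ e ∈ Finset.Icc 1 E, X.a j e * (((r : ℝ) ^ (-(e * δ)) : ℝ) : ℂ))

/-- The bound `|Z(r) - S_E(r)| ≤ C_E r^(d - (E + 1) δ)` for all integers `r ≥ 2`.
The conjecture uses `δ = 1`. -/
def Bound (δ : ℝ) (Z : ℕ → ℂ) (E : ℕ) : Prop :=
  ∃ C : ℝ, ∀ r : ℕ, 2 ≤ r → ‖Z r - X.S δ E r‖ ≤ C * (r : ℝ) ^ (X.top - (E + 1) * δ)

end Expansion

/-- The `SU(2)` modular `S`-matrix at level `r - 2` (colours `1, …, r - 1`). -/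
noncomputable def sMat (r a b : ℕ) : ℂ :=
  ((Real.sqrt (2 / r) * Real.sin (Real.pi * a * b / r) : ℝ) : ℂ)

/-- The entries of the diagonal `SU(2)` modular `T`-matrix at level `r - 2`
(colours `1, …, r - 1`): `exp (2 π i (h_a - c / 24))`. -/
noncomputable def tMat (r a : ℕ) : ℂ :=
  exp (2 * Real.pi * Complex.I * ((a : ℂ) ^ 2 / (4 * r) - 1 / 8))

/-- The phase by which the invariant changes when the 2-framing is shifted by `f`:
`exp (2 π i f c / 24)` with the central charge `c = 3 (r - 2) / r`. -/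
noncomputable def framing (f : ℤ) (r : ℕ) : ℂ :=
  exp (2 * Real.pi * Complex.I * f * (3 * ((r : ℂ) - 2) / r) / 24)

/-- The `SU(2)` invariant of the mapping torus of the `n`-th power of a Dehn twist of the torus:
the trace of `T ^ n`, with framing correction `f`. -/
noncomputable def torusBundle (n f : ℤ) (r : ℕ) : ℂ :=
  framing f r * ∑ a ∈ Finset.Icc 1 (r - 1), tMat r a ^ n

/-- The `SU(2)` invariant of the 3-manifold obtained by surgery on the Hopf link with framings
`m` and `n`: the vacuum entry of `S T^m S T^n S`, with framing correction `f`. -/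
noncomputable def hopfSurgery (m n f : ℤ) (r : ℕ) : ℂ :=
  framing f r * ∑ a ∈ Finset.Icc 1 (r - 1), ∑ b ∈ Finset.Icc 1 (r - 1),
    sMat r 1 a * tMat r a ^ m * sMat r a b * tMat r b ^ n * sMat r b 1

end Pool.Agent.Lib.MP_fcdc94_gt
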