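import Mathlib

set_option autoImplicit false

/-!
Reciprocity for quadratic Gauss sums, from the functional equation of the theta function.
-/

open Complex Filter Topology Real

namespace Pool.Agent.Lib.MP_fcdc94_gt

lemma summable_bound : Summable (fun n : ℤ => Real.exp (-π * (n : ℝ) ^ 2)) := by
  have h := ((summable_jacobiTheta₂_term_iff 0 Complex.I).2 (by simp)).norm
  refine h.congr fun n => ?_
  rw [norm_jacobiTheta₂_term]
  simp

/-- The Gaussian sum tends to one when the width tends to zero. -/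
lemma tendsto_gauss {α : Type*} {l : Filter α} (a : α → ℂ) (x : ℝ)
    (ha : Tendsto (fun i => (1 / a i).re) l atTop) :
    Tendsto (fun i => ∑' n : ℤ, cexp (-π / a i * (n : ℂ) ^ 2 + 2 * π * I * x * n)) l (𝓝 1) := by
  have hnorm : ∀ (i : α) (n : ℤ), ‖cexp (-π / a i * (n : ℂ) ^ 2 + 2 * π * I * x * n)‖ =
      Real.exp (-π * (1 / a i).re * (n : ℝ) ^ 2) := by
    intro i n
    rw [Complex.norm_exp]
    congr 1
    have h1 : (2 * π * I * x * n : ℂ) = ((2 * π * x * n : ℝ) : ℂ) * I := by push_cast; ring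
    have h2 : (-π / a i * (n : ℂ) ^ 2 : ℂ) = ((-π * (n : ℝ) ^ 2 : ℝ) : ℂ) * (1 / a i) := by
      push_cast; ring
    rw [h1, h2, Complex.add_re, Complex.re_ofReal_mul, Complex.re_ofReal_mul, Complex.I_re]
    ring
  have hsum : (1 : ℂ) = ∑' n : ℤ, (if n = 0 then (1 : ℂ) else 0) := by
    rw [tsum_ite_eq]
  rw [hsum]
  refine tendsto_tsum_of_dominated_convergence (bound := fun n : ℤ => Real.exp (-π * (n : ℝ) ^ 2))
    summable_bound ?_ ?_
  · intro n
    by_cases hn : n = 0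
    · subst hn
      simpa using tendsto_const_nhds
    · simp only [if_neg hn]
      rw [tendsto_zero_iff_norm_tendsto_zero]
      simp only [hnorm]
      refine Real.tendsto_exp_atBot.comp ?_
      have hpos : 0 < π * (n : ℝ) ^ 2 := by positivity
      have h3 : Tendsto (fun i => (1 / a i).re * (-(π * (n : ℝ) ^ 2))) l atBot :=
        ha.atTop_mul_const_of_neg (by linarith)
      refine h3.congr fun i => ?_
      ring
  · filter_upwards [ha.eventually_ge_atTop 1] with i hi n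
    rw [hnorm]
    refine Real.exp_le_exp.2 ?_
    have : 0 ≤ π * (n : ℝ) ^ 2 := by positivity
    nlinarith

/-- Poisson summation for a shifted Gaussian. -/
lemma poisson_shift {a : ℂ} (ha : 0 < a.re) (x : ℝ) :
    ∑' m : ℤ, cexp (-π * a * ((m : ℂ) + x) ^ 2) =
      1 / a ^ (1 / 2 : ℂ) * ∑' n : ℤ, cexp (-π / a * (n : ℂ) ^ 2 + 2 * π * I * x * n) := by
  have ha0 : a ≠ 0 := by
    intro h; rw [h] at ha; simp at ha
  have h := Complex.tsum_exp_neg_quadratic ha (-(a * x))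
  have h1 : ∀ m : ℤ, cexp (-π * a * ((m : ℂ) + x) ^ 2) =
      cexp (-π * a * x ^ 2) * cexp (-π * a * (m : ℂ) ^ 2 + 2 * π * (-(a * x)) * m) := by
    intro m
    rw [← Complex.exp_add]
    congr 1
    ring
  have h2 : ∀ n : ℤ, cexp (-π / a * ((n : ℂ) + I * -(a * x)) ^ 2) =
      cexp (π * a * x ^ 2) * cexp (-π / a * (n : ℂ) ^ 2 + 2 * π * I * x * n) := by
    intro n
    rw [← Complex.exp_add]
    congr 1
    field_simp
    ring_nf
    rw [Complex.I_sq]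
    ring
  simp only [h1]
  rw [tsum_mul_left, h]
  simp only [h2]
  rw [tsum_mul_left]
  have h3 : cexp (-π * a * x ^ 2) * cexp (π * a * x ^ 2) = 1 := by
    rw [← Complex.exp_add]
    simp
  calc _ = (cexp (-π * a * x ^ 2) * cexp (π * a * x ^ 2)) * (1 / a ^ (1 / 2 : ℂ) *
      ∑' n : ℤ, cexp (-π / a * (n : ℂ) ^ 2 + 2 * π * I * x * n)) := by ring
    _ = _ := by rw [h3, one_mul]

lemma cpow_half_mul {s : ℂ} (hs : s ≠ 0) {r : ℝ} (hr : 0 < r) :
    ((r : ℂ) * s) ^ (1 / 2 : ℂ) = (Real.sqrt r : ℂ) * s ^ (1 / 2 : ℂ) := by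
  have hr0 : (r : ℂ) ≠ 0 := by exact_mod_cast hr.ne'
  rw [Complex.cpow_def_of_ne_zero (mul_ne_zero hr0 hs), Complex.log_ofReal_mul hr hs,
    Complex.cpow_def_of_ne_zero hs, add_mul, Complex.exp_add]
  congr 1
  rw [Real.sqrt_eq_rpow, Real.rpow_def_of_pos hr]
  push_cast
  rfl

/-- Rescaled Gaussian sums over a residue class. -/
lemma tendsto_class {α : Type*} {l : Filter α} (s : α → ℂ) (N : ℕ) (hN : 0 < N) (j : ℤ) (γ : ℝ)
    (hpos : ∀ i, 0 < (s i).re) (hs0 : Tendsto s l (𝓝 0))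
    (hs : Tendsto (fun i => (1 / s i).re) l atTop) :
    Tendsto (fun i => (s i) ^ (1 / 2 : ℂ) *
      ∑' m : ℤ, cexp (-π * s i * (((m * N + j : ℤ) : ℂ) ^ 2 + 2 * γ * ((m * N + j : ℤ) : ℂ))))
      l (𝓝 (1 / (N : ℂ))) := by
  have hN' : (0 : ℝ) < N := by exact_mod_cast hN
  have hNc : (N : ℂ) ≠ 0 := by exact_mod_cast hN.ne'
  have hs0' : ∀ i, s i ≠ 0 := by
    intro i h; have := hpos i; rw [h] at this; simp at this
  have key : ∀ i, (s i) ^ (1 / 2 : ℂ) *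
      ∑' m : ℤ, cexp (-π * s i * (((m * N + j : ℤ) : ℂ) ^ 2 + 2 * γ * ((m * N + j : ℤ) : ℂ))) =
      1 / (N : ℂ) * cexp (π * s i * γ ^ 2) *
        ∑' n : ℤ, cexp (-π / (((N : ℝ) ^ 2 : ℝ) * s i) * (n : ℂ) ^ 2 +
          2 * π * I * ((j + γ) / N : ℝ) * n) := by
    intro i
    have h1 : ∀ m : ℤ, cexp (-π * s i * (((m * N + j : ℤ) : ℂ) ^ 2 +
        2 * γ * ((m * N + j : ℤ) : ℂ))) = cexp (π * s i * γ ^ 2) *
        cexp (-π * (((N : ℝ) ^ 2 : ℝ) * s i) * ((m : ℂ) + ((j + γ) / N : ℝ)) ^ 2) := by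
      intro m
      rw [← Complex.exp_add]
      congr 1
      push_cast
      field_simp
      ring
    simp only [h1]
    rw [tsum_mul_left, poisson_shift, cpow_half_mul (hs0' i) (by positivity),
      Real.sqrt_sq hN'.le]
    · have h2 : (s i) ^ (1 / 2 : ℂ) ≠ 0 := by
        rw [Complex.cpow_def_of_ne_zero (hs0' i)]; exact Complex.exp_ne_zero _
      push_cast
      field_simp
    · rw [Complex.re_ofReal_mul]
      have := hpos i
      positivity
  simp only [key]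
  have h3 : Tendsto (fun i => cexp (π * s i * γ ^ 2)) l (𝓝 1) := by
    have : Tendsto (fun i => π * s i * γ ^ 2) l (𝓝 (π * 0 * γ ^ 2)) :=
      (hs0.const_mul _).mul_const _
    have h4 := (Complex.continuous_exp.tendsto _).comp this
    simpa [Function.comp_def] using h4
  have h5 : Tendsto (fun i => ∑' n : ℤ, cexp (-π / (((N : ℝ) ^ 2 : ℝ) * s i) * (n : ℂ) ^ 2 +
          2 * π * I * ((j + γ) / N : ℝ) * n)) l (𝓝 1) := by
    refine tendsto_gauss _ _ ?_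
    have h6 : ∀ i, (1 / ((((N : ℝ) ^ 2 : ℝ) : ℂ) * s i)).re = (1 / s i).re * (1 / (N : ℝ) ^ 2) := by
      intro i
      have : (1 / ((((N : ℝ) ^ 2 : ℝ) : ℂ) * s i)) = ((1 / (N : ℝ) ^ 2 : ℝ) : ℂ) * (1 / s i) := by
        push_cast; field_simp
      rw [this, Complex.re_ofReal_mul, mul_comm]
    simp only [h6]
    exact hs.atTop_mul_const (by positivity)
  have h7 := (h3.const_mul (1 / (N : ℂ))).mul h5
  simpa using h7

lemma tsum_int_eq_sum {f : ℤ → ℂ} (hf : Summable f) (N : ℕ) [NeZero N] :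
    ∑' n : ℤ, f n = ∑ j : Fin N, ∑' m : ℤ, f (m * N + j) := by
  let e : Fin N × ℤ ≃ ℤ := (Equiv.prodComm _ _).trans (Int.divModEquiv N).symm
  have h1 : ∑' p : Fin N × ℤ, f (e p) = ∑' n : ℤ, f n := e.tsum_eq f
  have h2 : Summable (fun p : Fin N × ℤ => f (e p)) := e.summable_iff.2 hf
  rw [← h1, h2.tsum_prod, tsum_fintype]
  rfl

/-- The quadratic character on the integers. -/
noncomputable def qu (A B : ℝ) (n : ℤ) : ℂ := cexp (π * I * (A * (n : ℂ) ^ 2 + 2 * B * n))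

/-- Limit of the theta function at a rational point. -/
lemma tendsto_theta {α : Type*} {l : Filter α} (s : α → ℂ) (N : ℕ) (hN : 0 < N) (A B γ : ℝ)
    (hper : ∀ n : ℤ, ∀ m : ℤ, qu A B (m * N + n) = qu A B n)
    (hpos : ∀ i, 0 < (s i).re) (hs0 : Tendsto s l (𝓝 0))
    (hs : Tendsto (fun i => (1 / s i).re) l atTop) :
    Tendsto (fun i => (s i) ^ (1 / 2 : ℂ) * jacobiTheta₂ (B + I * γ * s i) (A + I * s i))
      l (𝓝 (1 / (N : ℂ) * ∑ j ∈ Finset.range N, qu A B j)) := by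
  have : NeZero N := ⟨hN.ne'⟩
  have hterm : ∀ i (n : ℤ), jacobiTheta₂_term n (B + I * γ * s i) (A + I * s i) =
      qu A B n * cexp (-π * s i * ((n : ℂ) ^ 2 + 2 * γ * n)) := by
    intro i n
    unfold jacobiTheta₂_term qu
    rw [← Complex.exp_add]
    congr 1
    ring_nf
    rw [Complex.I_sq]
    ring
  have hsum : ∀ i, Summable (fun n : ℤ => qu A B n *
      cexp (-π * s i * ((n : ℂ) ^ 2 + 2 * γ * n))) := by
    intro i
    have := (summable_jacobiTheta₂_term_iff (B + I * γ * s i) (A + I * s i)).2 (by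
      simpa using hpos i)
    exact this.congr (hterm i)
  have hth : ∀ i, jacobiTheta₂ (B + I * γ * s i) (A + I * s i) =
      ∑ j : Fin N, qu A B j * ∑' m : ℤ, cexp (-π * s i * (((m * N + (j : ℤ) : ℤ) : ℂ) ^ 2 +
        2 * γ * ((m * N + (j : ℤ) : ℤ) : ℂ))) := by
    intro i
    unfold jacobiTheta₂
    rw [tsum_congr (hterm i), tsum_int_eq_sum (hsum i) N]
    refine Finset.sum_congr rfl fun j _ => ?_
    rw [← tsum_mul_left]
    refine tsum_congr fun m => ?_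
    rw [hper]
  have h1 : ∀ j : Fin N, Tendsto (fun i => (s i) ^ (1 / 2 : ℂ) * (qu A B j *
      ∑' m : ℤ, cexp (-π * s i * (((m * N + (j : ℤ) : ℤ) : ℂ) ^ 2 +
        2 * γ * ((m * N + (j : ℤ) : ℤ) : ℂ))))) l (𝓝 (qu A B j * (1 / (N : ℂ)))) := by
    intro j
    have := (tendsto_class s N hN j γ hpos hs0 hs).const_mul (qu A B j)
    refine this.congr fun i => ?_
    ring
  have h2 := tendsto_finsetSum Finset.univ (fun j _ => h1 j)
  have h3 : ∑ j : Fin N, qu A B j * (1 / (N : ℂ)) = 1 / (N : ℂ) *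
      ∑ j ∈ Finset.range N, qu A B j := by
    rw [Finset.mul_sum, ← Fin.sum_univ_eq_sum_range (fun j => 1 / (N : ℂ) * qu A B (j : ℤ)) N]
    refine Finset.sum_congr rfl fun j _ => ?_
    ring
  rw [← h3]
  refine h2.congr fun i => ?_
  rw [hth, Finset.mul_sum]

lemma exp_pi_int_even (k : ℤ) (hk : Even k) : cexp (π * I * k) = 1 := by
  obtain ⟨m, rfl⟩ := hk
  rw [Complex.exp_eq_one_iff]
  exact ⟨m, by push_cast; ring⟩

lemma qu_periodic (a b : ℤ) (c : ℕ) (hc : 0 < c) (hev : Even (a * c + b)) (n m : ℤ) :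
    qu ((a : ℝ) / c) ((b : ℝ) / (2 * c)) (m * c + n) = qu ((a : ℝ) / c) ((b : ℝ) / (2 * c)) n := by
  have hc' : (c : ℂ) ≠ 0 := by exact_mod_cast hc.ne'
  unfold qu
  have h1 : (π * I * (((a : ℝ) / c : ℝ) * ((m * c + n : ℤ) : ℂ) ^ 2 +
      2 * ((b : ℝ) / (2 * c) : ℝ) * ((m * c + n : ℤ) : ℂ)) : ℂ) =
      π * I * (((a : ℝ) / c : ℝ) * (n : ℂ) ^ 2 + 2 * ((b : ℝ) / (2 * c) : ℝ) * (n : ℂ)) +
      π * I * ((a * c * m ^ 2 + b * m + 2 * (a * m * n) : ℤ) : ℂ) := by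
    push_cast
    field_simp
    ring
  rw [h1, Complex.exp_add, exp_pi_int_even, mul_one]
  have h2 : a * c * m ^ 2 + b * m + 2 * (a * m * n) =
      (a * c + b) * m ^ 2 + b * (m - m ^ 2) + 2 * (a * m * n) := by ring
  rw [h2]
  refine ((hev.mul_right _).add (Even.mul_left ?_ _)).add (even_two_mul _)
  have : m - m ^ 2 = -(m * (m - 1)) := by ring
  rw [this, even_neg]
  exact Int.even_mul_pred_self m

/-- The principal square root of `-I x`. -/
lemma cpow_half_negI {x : ℝ} (hx : 0 < x) :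
    (-I * (x : ℂ)) ^ (1 / 2 : ℂ) = (Real.sqrt x : ℂ) * cexp (-(π * I / 4)) := by
  rw [mul_comm, cpow_half_mul (by simp) hx]
  congr 1
  rw [Complex.cpow_def_of_ne_zero (by simp), Complex.log_neg_I]
  congr 1
  ring

/-- **Reciprocity for quadratic Gauss sums.** -/
theorem gauss_reciprocity (a c : ℕ) (ha : 0 < a) (hc : 0 < c) (b : ℤ)
    (hev : Even ((a : ℤ) * c + b)) :
    ∑ j ∈ Finset.range c, cexp (π * I * (a * j ^ 2 + b * j) / c) =
      (Real.sqrt (c / a) : ℂ) * cexp (π * I / 4) * cexp (-(π * I * b ^ 2 / (4 * a * c))) *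
        ∑ j ∈ Finset.range a, cexp (-(π * I * (c * j ^ 2 - b * j) / a)) := by
  have haR : (0 : ℝ) < a := by exact_mod_cast ha
  have hcR : (0 : ℝ) < c := by exact_mod_cast hc
  have haC : (a : ℂ) ≠ 0 := by exact_mod_cast ha.ne'
  have hcC : (c : ℂ) ≠ 0 := by exact_mod_cast hc.ne'
  -- the base point filter
  let l : Filter (Set.Ioi (0 : ℝ)) := comap (fun x => (x : ℝ)) (𝓝[>] (0 : ℝ))
  have hl : Tendsto (fun x : Set.Ioi (0 : ℝ) => (x : ℝ)) l (𝓝[>] (0 : ℝ)) := tendsto_comap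
  have hlne : l.NeBot := by
    refine comap_neBot fun t ht => ?_
    have h1 := (inter_mem ht self_mem_nhdsWithin : t ∩ Set.Ioi 0 ∈ 𝓝[>] (0 : ℝ))
    obtain ⟨y, hy1, hy2⟩ := (inferInstance : (𝓝[>] (0 : ℝ)).NeBot).nonempty_of_mem h1
    exact ⟨⟨y, hy2⟩, hy1⟩
  have hl0 : Tendsto (fun x : Set.Ioi (0 : ℝ) => ((x : ℝ) : ℂ)) l (𝓝 0) := by
    have h1 : Tendsto (fun x : Set.Ioi (0 : ℝ) => (x : ℝ)) l (𝓝 0) :=
      hl.mono_right nhdsWithin_le_nhds
    have h2 := (Complex.continuous_ofReal.tendsto 0).comp h1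
    simpa [Function.comp_def] using h2
  have hlinv : Tendsto (fun x : Set.Ioi (0 : ℝ) => ((x : ℝ))⁻¹) l atTop :=
    tendsto_inv_nhdsGT_zero.comp hl
  -- tau and s'
  let τ : Set.Ioi (0 : ℝ) → ℂ := fun x => ((a / c : ℝ) : ℂ) + I * ((x : ℝ) : ℂ)
  have hτ0 : ∀ x, τ x ≠ 0 := by
    intro x h
    have h1 := congrArg Complex.re h
    simp [τ] at h1
    rcases h1 with h1 | h1 <;> omega
  let s' : Set.Ioi (0 : ℝ) → ℂ := fun x => ((x : ℝ) : ℂ) * ((c : ℂ) / (a * τ x))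
  have hx0 : ∀ x : Set.Ioi (0 : ℝ), ((x : ℝ) : ℂ) ≠ 0 := by
    intro x
    exact_mod_cast (ne_of_gt x.2)
  have hs'inv : ∀ x, 1 / s' x = (((a / c) ^ 2 * (x : ℝ)⁻¹ : ℝ) : ℂ) + ((a / c : ℝ) : ℂ) * I := by
    intro x
    have := hx0 x
    have := hτ0 x
    simp only [s', τ]
    push_cast
    field_simp
  have hs're : ∀ x, (1 / s' x).re = (a / c) ^ 2 * (x : ℝ)⁻¹ := by
    intro x
    rw [hs'inv, Complex.add_re, Complex.ofReal_re, Complex.re_ofReal_mul, Complex.I_re]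
    ring
  have hs'ne : ∀ x, s' x ≠ 0 := by
    intro x
    simp only [s']
    exact mul_ne_zero (hx0 x) (div_ne_zero hcC (mul_ne_zero haC (hτ0 x)))
  have hs'pos : ∀ x, 0 < (s' x).re := by
    intro x
    have h1 : s' x = (1 / s' x)⁻¹ := by rw [one_div, inv_inv]
    rw [h1, Complex.inv_re, hs're]
    have hx : (0 : ℝ) < x := x.2
    have h2 : 0 < Complex.normSq (1 / s' x) :=
      Complex.normSq_pos.2 (one_div_ne_zero (hs'ne x))
    positivity
  have hτlim : Tendsto τ l (𝓝 ((a / c : ℝ) : ℂ)) := by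
    have := (hl0.const_mul I).const_add ((a / c : ℝ) : ℂ)
    simpa [τ] using this
  have hac0 : ((a / c : ℝ) : ℂ) ≠ 0 := by
    have : (0 : ℝ) < a / c := by positivity
    exact_mod_cast this.ne'
  have hs'0 : Tendsto s' l (𝓝 0) := by
    have h1 : Tendsto (fun x => (c : ℂ) / (a * τ x)) l (𝓝 ((c : ℂ) / (a * ((a / c : ℝ) : ℂ)))) :=
      (tendsto_const_nhds).div (hτlim.const_mul _) (mul_ne_zero haC hac0)
    have := hl0.mul h1
    simpa [s'] using this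
  -- the two limits
  have L1 := tendsto_theta (l := l) (fun x : Set.Ioi (0 : ℝ) => ((x : ℝ) : ℂ)) c hc
    ((a : ℝ) / c) ((b : ℝ) / (2 * c)) 0 (fun n m => by
      have := qu_periodic (a : ℤ) b c hc hev n m
      simpa using this) (fun x => by rw [Complex.ofReal_re]; exact x.2) hl0 (by
      refine hlinv.congr fun x => ?_
      rw [← Complex.ofReal_one, ← Complex.ofReal_div, Complex.ofReal_re, one_div])
  have L2 := tendsto_theta (l := l) s' a ha (((-(c : ℤ) : ℤ) : ℝ) / a) ((b : ℝ) / (2 * a))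
    (-(b : ℝ) / (2 * c)) (fun n m => qu_periodic (-(c : ℤ)) b a ha (by
      have h1 : -(c : ℤ) * a + b = ((a : ℤ) * c + b) - 2 * (a * c) := by ring
      rw [h1]
      exact hev.sub (even_two_mul _)) n m) hs'pos hs'0 (by
      simp only [hs're]
      exact hlinv.const_mul_atTop (by positivity))
  -- the functional equation
  have hfun : ∀ x : Set.Ioi (0 : ℝ), ((x : ℝ) : ℂ) ^ (1 / 2 : ℂ) *
      jacobiTheta₂ (((b : ℝ) / (2 * c) : ℝ) + I * (0 : ℝ) * ((x : ℝ) : ℂ))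
        (((a : ℝ) / c : ℝ) + I * ((x : ℝ) : ℂ)) =
      (1 / ((c : ℂ) / (a * τ x)) ^ (1 / 2 : ℂ)) * (1 / (-I * τ x) ^ (1 / 2 : ℂ)) *
        cexp (-π * I * (((b : ℝ) / (2 * c) : ℝ) : ℂ) ^ 2 / τ x) *
      ((s' x) ^ (1 / 2 : ℂ) * jacobiTheta₂ (((b : ℝ) / (2 * a) : ℝ) +
        I * ((-(b : ℝ) / (2 * c) : ℝ) : ℂ) * s' x)
        ((((-(c : ℤ) : ℤ) : ℝ) / a : ℝ) + I * s' x)) := by
    intro x
    have e1 : (((b : ℝ) / (2 * c) : ℝ) + I * (0 : ℝ) * ((x : ℝ) : ℂ) : ℂ) =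
        (((b : ℝ) / (2 * c) : ℝ) : ℂ) := by simp
    have hx := hx0 x
    have ht := hτ0 x
    have ht' : ((a : ℂ) + c * (I * ((x : ℝ) : ℂ))) ≠ 0 := by
      intro h
      apply ht
      simp only [τ]
      push_cast
      field_simp
      linear_combination h
    have e2 : (((b : ℝ) / (2 * c) : ℝ) : ℂ) / τ x = (((b : ℝ) / (2 * a) : ℝ) +
        I * ((-(b : ℝ) / (2 * c) : ℝ) : ℂ) * s' x) := by
      simp only [s']
      have : τ x = ((a / c : ℝ) : ℂ) + I * ((x : ℝ) : ℂ) := rfl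
      push_cast
      field_simp
      rw [this]
      push_cast
      field_simp
      ring
    have e3 : -1 / τ x = ((((-(c : ℤ) : ℤ) : ℝ) / a : ℝ) + I * s' x) := by
      simp only [s']
      have : τ x = ((a / c : ℝ) : ℂ) + I * ((x : ℝ) : ℂ) := rfl
      push_cast
      field_simp
      rw [this]
      push_cast
      field_simp
      ring
    have e4 : (s' x) ^ (1 / 2 : ℂ) = ((x : ℝ) : ℂ) ^ (1 / 2 : ℂ) *
        ((c : ℂ) / (a * τ x)) ^ (1 / 2 : ℂ) := by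
      have h1 := cpow_half_mul (s := (c : ℂ) / (a * τ x)) (div_ne_zero hcC (mul_ne_zero haC ht))
        (r := x) x.2
      have h2 := cpow_half_mul (s := 1) one_ne_zero (r := x) x.2
      rw [mul_one, Complex.one_cpow, mul_one] at h2
      rw [h2]
      exact h1
    have e5 : ((c : ℂ) / (a * τ x)) ^ (1 / 2 : ℂ) ≠ 0 := by
      rw [Complex.cpow_def_of_ne_zero (div_ne_zero hcC (mul_ne_zero haC ht))]
      exact Complex.exp_ne_zero _
    rw [e1, jacobiTheta₂_functional_equation]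
    have e6 : (((a : ℝ) / c : ℝ) + I * ((x : ℝ) : ℂ) : ℂ) = τ x := rfl
    rw [e6, e2, e3, e4]
    have e7 : (1 / ((c : ℂ) / (a * τ x)) ^ (1 / 2 : ℂ)) * ((c : ℂ) / (a * τ x)) ^ (1 / 2 : ℂ) = 1 :=
      one_div_mul_cancel e5
    linear_combination (-(((x : ℝ) : ℂ) ^ (1 / 2 : ℂ) * (1 / (-I * τ x) ^ (1 / 2 : ℂ)) *
      cexp (-π * I * (((b : ℝ) / (2 * c) : ℝ) : ℂ) ^ 2 / τ x) *
      jacobiTheta₂ (((b : ℝ) / (2 * a) : ℝ) +
        I * ((-(b : ℝ) / (2 * c) : ℝ) : ℂ) * s' x)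
        ((((-(c : ℤ) : ℤ) : ℝ) / a : ℝ) + I * s' x))) * e7
  have hA : Tendsto (fun x => (1 / ((c : ℂ) / (a * τ x)) ^ (1 / 2 : ℂ)) *
      (1 / (-I * τ x) ^ (1 / 2 : ℂ)) * cexp (-π * I * (((b : ℝ) / (2 * c) : ℝ) : ℂ) ^ 2 / τ x)) l
      (𝓝 ((1 / ((c : ℂ) / (a * ((a / c : ℝ) : ℂ))) ^ (1 / 2 : ℂ)) *
      (1 / (-I * ((a / c : ℝ) : ℂ)) ^ (1 / 2 : ℂ)) *
        cexp (-π * I * (((b : ℝ) / (2 * c) : ℝ) : ℂ) ^ 2 / ((a / c : ℝ) : ℂ)))) := by
    have g1 : (c : ℂ) / (a * ((a / c : ℝ) : ℂ)) = (((c / a) ^ 2 : ℝ) : ℂ) := by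
      push_cast; field_simp
    have g2 : (c : ℂ) / (a * ((a / c : ℝ) : ℂ)) ∈ Complex.slitPlane := by
      rw [g1]
      left
      rw [Complex.ofReal_re]
      positivity
    have g3 : -I * ((a / c : ℝ) : ℂ) ∈ Complex.slitPlane := by
      right
      simp
      exact ⟨ha.ne', hc.ne'⟩
    have t1 : Tendsto (fun x => (c : ℂ) / (a * τ x)) l (𝓝 ((c : ℂ) / (a * ((a / c : ℝ) : ℂ)))) :=
      (tendsto_const_nhds).div (hτlim.const_mul _) (mul_ne_zero haC hac0)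
    have t2 := t1.cpow (tendsto_const_nhds (x := (1 / 2 : ℂ))) g2
    have t3 := (hτlim.const_mul (-I)).cpow (tendsto_const_nhds (x := (1 / 2 : ℂ))) g3
    have n2 : ((c : ℂ) / (a * ((a / c : ℝ) : ℂ))) ^ (1 / 2 : ℂ) ≠ 0 := by
      rw [Complex.cpow_def_of_ne_zero (Complex.slitPlane_ne_zero g2)]; exact Complex.exp_ne_zero _
    have n3 : (-I * ((a / c : ℝ) : ℂ)) ^ (1 / 2 : ℂ) ≠ 0 := by
      rw [Complex.cpow_def_of_ne_zero (Complex.slitPlane_ne_zero g3)]; exact Complex.exp_ne_zero _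
    have t4 : Tendsto (fun x => cexp (-π * I * (((b : ℝ) / (2 * c) : ℝ) : ℂ) ^ 2 / τ x)) l
        (𝓝 (cexp (-π * I * (((b : ℝ) / (2 * c) : ℝ) : ℂ) ^ 2 / ((a / c : ℝ) : ℂ)))) := by
      have t5 : Tendsto (fun x => -π * I * (((b : ℝ) / (2 * c) : ℝ) : ℂ) ^ 2 / τ x) l
        (𝓝 (-π * I * (((b : ℝ) / (2 * c) : ℝ) : ℂ) ^ 2 / ((a / c : ℝ) : ℂ))) :=
        tendsto_const_nhds.div hτlim hac0
      exact (Complex.continuous_exp.tendsto _).comp t5
    exact ((tendsto_const_nhds.div t2 n2).mul (tendsto_const_nhds.div t3 n3)).mul t4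
  have hlim := (hA.mul L2).congr (fun x => (hfun x).symm)
  have heq := tendsto_nhds_unique L1 hlim
  -- simplify constants
  have c1 : ((c : ℂ) / (a * ((a / c : ℝ) : ℂ))) ^ (1 / 2 : ℂ) = (c : ℂ) / a := by
    have g1 : (c : ℂ) / (a * ((a / c : ℝ) : ℂ)) = (((c / a) ^ 2 : ℝ) : ℂ) * 1 := by
      push_cast; field_simp
    rw [g1, cpow_half_mul one_ne_zero (by positivity), Complex.one_cpow, mul_one,
      Real.sqrt_sq (by positivity)]
    push_cast; rfl
  have c2 : (-I * ((a / c : ℝ) : ℂ)) ^ (1 / 2 : ℂ) =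
      (Real.sqrt (a / c) : ℂ) * cexp (-(π * I / 4)) := cpow_half_negI (by positivity)
  have c3 : (Real.sqrt (c / a) : ℂ) * (Real.sqrt (a / c) : ℂ) = 1 := by
    rw [← Complex.ofReal_mul, ← Real.sqrt_mul (by positivity)]
    have : (c : ℝ) / a * (a / c) = 1 := by field_simp
    rw [this]; simp
  have c4 : cexp (π * I / 4) * cexp (-(π * I / 4)) = 1 := by
    rw [← Complex.exp_add]; simp
  have c5 : (1 / ((Real.sqrt (a / c) : ℂ) * cexp (-(π * I / 4)))) =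
      (Real.sqrt (c / a) : ℂ) * cexp (π * I / 4) := by
    have h1 : (Real.sqrt (a / c) : ℂ) * cexp (-(π * I / 4)) ≠ 0 := by
      rw [← c2]
      rw [Complex.cpow_def_of_ne_zero (mul_ne_zero (by simp) hac0)]; exact Complex.exp_ne_zero _
    rw [div_eq_iff h1]
    calc (1 : ℂ) = ((Real.sqrt (c / a) : ℂ) * (Real.sqrt (a / c) : ℂ)) *
        (cexp (π * I / 4) * cexp (-(π * I / 4))) := by rw [c3, c4, one_mul]
      _ = _ := by ring
  rw [c1, c2, c5] at heq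
  have q1 : ∀ j : ℕ, qu ((a : ℝ) / c) ((b : ℝ) / (2 * c)) (j : ℤ) =
      cexp (π * I * (a * j ^ 2 + b * j) / c) := by
    intro j
    unfold qu
    congr 1
    push_cast
    field_simp
  have q2 : ∀ j : ℕ, qu (((-(c : ℤ) : ℤ) : ℝ) / a) ((b : ℝ) / (2 * a)) (j : ℤ) =
      cexp (-(π * I * (c * j ^ 2 - b * j) / a)) := by
    intro j
    unfold qu
    congr 1
    push_cast
    field_simp
    ring
  have q3 : cexp (-π * I * (((b : ℝ) / (2 * c) : ℝ) : ℂ) ^ 2 / ((a / c : ℝ) : ℂ)) =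
      cexp (-(π * I * b ^ 2 / (4 * a * c))) := by
    congr 1
    push_cast
    field_simp
    ring
  simp only [q1, q2, q3] at heq
  have e7 : ∑ j ∈ Finset.range c, cexp (π * I * (a * j ^ 2 + b * j) / c) =
      c * (1 / (c : ℂ) * ∑ j ∈ Finset.range c, cexp (π * I * (a * j ^ 2 + b * j) / c)) := by
    field_simp
  rw [e7, heq]
  field_simp

end Pool.Agent.Lib.MP_fcdc94_gt
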