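import Mathlib
import Pool.Agent.Lib.MP_fcdc94_gt.GaussRec
import Pool.Agent.Lib.MP_fcdc94_gt.Defs

set_option autoImplicit false

/-!
Evaluation of the invariants of surgeries on the Hopf link.
-/

open Complex Filter Topology

namespace Pool.Agent.Lib.MP_fcdc94_gt

section Periodic

lemma sum_shift_periodic {F : ℤ → ℂ} {N : ℕ} (hF : ∀ x, F (x + N) = F x) (x : ℤ) :
    ∑ j ∈ Finset.range N, F (x + j) = ∑ j ∈ Finset.range N, F j := by
  have step : ∀ y : ℤ, ∑ j ∈ Finset.range N, F (y + 1 + j) = ∑ j ∈ Finset.range N, F (y + j) := by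
    intro y
    have h1 := Finset.sum_range_succ (fun j : ℕ => F (y + j)) N
    have h2 := Finset.sum_range_succ' (fun j : ℕ => F (y + j)) N
    rw [h1] at h2
    have h3 : ∀ j : ℕ, F (y + ((j + 1 : ℕ) : ℤ)) = F (y + 1 + j) := by
      intro j; congr 1; push_cast; ring
    simp only [h3, Nat.cast_zero, add_zero, hF] at h2
    linear_combination -h2
  induction x using Int.induction_on with
  | zero => simp
  | succ i ih => rw [step, ih]
  | pred i ih =>
    have := step (-(i : ℤ) - 1)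
    rw [sub_add_cancel] at this
    rw [← this, ih]

lemma sum_reflect_periodic {F : ℤ → ℂ} {N : ℕ} (hF : ∀ x, F (x + N) = F x) :
    ∑ j ∈ Finset.range N, F (-(j : ℤ)) = ∑ j ∈ Finset.range N, F j := by
  rw [← Finset.sum_range_reflect, ← sum_shift_periodic hF (-((N : ℤ) - 1))]
  refine Finset.sum_congr rfl fun j hj => ?_
  have hj' := Finset.mem_range.1 hj
  congr 1
  omega

lemma sum_range_mul (f : ℕ → ℂ) (M N : ℕ) :
    ∑ B ∈ Finset.range (M * N), f B = ∑ j ∈ Finset.range M, ∑ b ∈ Finset.range N, f (b + N * j) := by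
  induction M with
  | zero => simp
  | succ M ih =>
    rw [Nat.succ_mul, Finset.sum_range_add, ih, Finset.sum_range_succ]
    congr 1
    refine Finset.sum_congr rfl fun b _ => ?_
    congr 1
    ring

/-- Folding a symmetric sum. -/
lemma fold_sum (f : ℕ → ℂ) (r : ℕ) (hr : 1 ≤ r) (hsym : ∀ j ≤ 2 * r, f (2 * r - j) = f j) :
    ∑ j ∈ Finset.range (2 * r), f j = f 0 + f r + 2 * ∑ a ∈ Finset.Icc 1 (r - 1), f a := by
  have e1 : ∑ j ∈ Finset.range (2 * r), f j = ∑ j ∈ Finset.range r, f j +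
      ∑ j ∈ Finset.range r, f (r + j) := by
    rw [two_mul, Finset.sum_range_add]
  have e2 : ∑ j ∈ Finset.range r, f j = f 0 + ∑ a ∈ Finset.Icc 1 (r - 1), f a := by
    obtain ⟨q, rfl⟩ : ∃ q, r = q + 1 := ⟨r - 1, by omega⟩
    rw [Finset.sum_range_succ', add_comm]
    congr 1
    simp only [Nat.add_sub_cancel]
    rw [Finset.range_eq_Ico, Finset.sum_Ico_add' f 0 q 1]
    rfl
  have e3 : ∑ j ∈ Finset.range r, f (r + j) = f r + ∑ a ∈ Finset.Icc 1 (r - 1), f a := by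
    obtain ⟨q, rfl⟩ : ∃ q, r = q + 1 := ⟨r - 1, by omega⟩
    rw [Finset.sum_range_succ', add_comm, add_zero]
    congr 1
    simp only [Nat.add_sub_cancel]
    have : ∑ a ∈ Finset.Icc 1 q, f a = ∑ k ∈ Finset.range q, f (k + 1) := by
      rw [Finset.range_eq_Ico, Finset.sum_Ico_add' f 0 q 1]
      rfl
    rw [this, ← Finset.sum_range_reflect]
    refine Finset.sum_congr rfl fun k hk => ?_
    have hk' := Finset.mem_range.1 hk
    rw [← hsym (k + 1) (by omega)]
    congr 1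
    omega
  rw [e1, e2, e3]
  ring

end Periodic

section Double

variable (m n r : ℕ)

/-- The Gaussian kernel with a linear and a mixed term. -/
noncomputable def ker (e₁ e₂ e₃ a b : ℤ) : ℂ :=
  cexp (Real.pi * Complex.I * (m * a ^ 2 + n * b ^ 2 + 2 * (e₁ * a + e₂ * (a * b) + e₃ * b)) /
    (2 * r))

/-- The double Gauss sum. -/
noncomputable def dsum (e₁ e₂ e₃ : ℤ) : ℂ :=
  ∑ a ∈ Finset.range (2 * r), ∑ b ∈ Finset.range (2 * r), ker m n r e₁ e₂ e₃ a b

variable {r}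

lemma ker_add_left (hr : 0 < r) (e₁ e₂ e₃ a b : ℤ) :
    ker m n r e₁ e₂ e₃ (a + (2 * r : ℕ)) b = ker m n r e₁ e₂ e₃ a b := by
  have hr' : (r : ℂ) ≠ 0 := by exact_mod_cast hr.ne'
  unfold ker
  have : (Real.pi * Complex.I * (m * ((a + (2 * r : ℕ) : ℤ) : ℂ) ^ 2 + n * (b : ℂ) ^ 2 +
      2 * (e₁ * ((a + (2 * r : ℕ) : ℤ) : ℂ) + e₂ * (((a + (2 * r : ℕ) : ℤ) : ℂ) * b) + e₃ * b)) /
      (2 * r) : ℂ) = Real.pi * Complex.I * (m * (a : ℂ) ^ 2 + n * (b : ℂ) ^ 2 +
        2 * (e₁ * a + e₂ * (a * b) + e₃ * b)) / (2 * r) +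
      ((m * (a + r) + e₁ + e₂ * b : ℤ) : ℂ) * (2 * Real.pi * Complex.I) := by
    push_cast
    field_simp
    ring
  rw [this, Complex.exp_add, Complex.exp_int_mul_two_pi_mul_I, mul_one]

lemma ker_add_right (hr : 0 < r) (e₁ e₂ e₃ a b : ℤ) :
    ker m n r e₁ e₂ e₃ a (b + (2 * r : ℕ)) = ker m n r e₁ e₂ e₃ a b := by
  have hr' : (r : ℂ) ≠ 0 := by exact_mod_cast hr.ne'
  unfold ker
  have : (Real.pi * Complex.I * (m * (a : ℂ) ^ 2 + n * ((b + (2 * r : ℕ) : ℤ) : ℂ) ^ 2 +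
      2 * (e₁ * a + e₂ * (a * ((b + (2 * r : ℕ) : ℤ) : ℂ)) + e₃ * ((b + (2 * r : ℕ) : ℤ) : ℂ))) /
      (2 * r) : ℂ) = Real.pi * Complex.I * (m * (a : ℂ) ^ 2 + n * (b : ℂ) ^ 2 +
        2 * (e₁ * a + e₂ * (a * b) + e₃ * b)) / (2 * r) +
      ((n * (b + r) + e₂ * a + e₃ : ℤ) : ℂ) * (2 * Real.pi * Complex.I) := by
    push_cast
    field_simp
    ring
  rw [this, Complex.exp_add, Complex.exp_int_mul_two_pi_mul_I, mul_one]

lemma ker_neg_left (e₁ e₂ e₃ a b : ℤ) :
    ker m n r e₁ e₂ e₃ (-a) b = ker m n r (-e₁) (-e₂) e₃ a b := by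
  unfold ker
  congr 1
  push_cast
  ring

lemma ker_neg_right (e₁ e₂ e₃ a b : ℤ) :
    ker m n r e₁ e₂ e₃ a (-b) = ker m n r e₁ (-e₂) (-e₃) a b := by
  unfold ker
  congr 1
  push_cast
  ring

lemma dsum_neg_left (hr : 0 < r) (e₁ e₂ e₃ : ℤ) :
    dsum m n r (-e₁) (-e₂) e₃ = dsum m n r e₁ e₂ e₃ := by
  unfold dsum
  have h := sum_reflect_periodic (N := 2 * r)
    (F := fun a => ∑ b ∈ Finset.range (2 * r), ker m n r e₁ e₂ e₃ a b) (by
      intro x
      exact Finset.sum_congr rfl fun b _ => ker_add_left m n hr e₁ e₂ e₃ x b)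
  rw [← h]
  refine Finset.sum_congr rfl fun a _ => Finset.sum_congr rfl fun b _ => ?_
  rw [ker_neg_left]

lemma dsum_neg_right (hr : 0 < r) (e₁ e₂ e₃ : ℤ) :
    dsum m n r e₁ (-e₂) (-e₃) = dsum m n r e₁ e₂ e₃ := by
  unfold dsum
  refine Finset.sum_congr rfl fun a _ => ?_
  have h := sum_reflect_periodic (N := 2 * r)
    (F := fun b => ker m n r e₁ e₂ e₃ a b) (by
      intro x
      exact ker_add_right m n hr e₁ e₂ e₃ a x)
  rw [← h]
  refine Finset.sum_congr rfl fun b _ => ?_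
  rw [ker_neg_right]

/-- The product of sines against the Gaussian, as a function on pairs. -/
noncomputable def sinKer (m n r : ℕ) (a b : ℤ) : ℂ :=
  Complex.sin (Real.pi * a / r) * Complex.sin (Real.pi * a * b / r) *
    Complex.sin (Real.pi * b / r) * cexp (Real.pi * Complex.I * (m * a ^ 2 + n * b ^ 2) / (2 * r))

lemma sinKer_eq (hr : 0 < r) (a b : ℤ) : sinKer m n r a b = (Complex.I / 8) *
    (ker m n r 1 1 1 a b + ker m n r (-1) (-1) 1 a b + ker m n r 1 (-1) (-1) a b +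
      ker m n r (-1) 1 (-1) a b - ker m n r 1 1 (-1) a b - ker m n r (-1) (-1) (-1) a b -
      ker m n r 1 (-1) 1 a b - ker m n r (-1) 1 1 a b) := by
  have hr' : (r : ℂ) ≠ 0 := by exact_mod_cast hr.ne'
  have key : ∀ e₁ e₂ e₃ : ℤ, ker m n r e₁ e₂ e₃ a b =
      cexp (Real.pi * Complex.I * (m * a ^ 2 + n * b ^ 2) / (2 * r)) *
      cexp (e₁ * (Real.pi * a / r) * Complex.I) * cexp (e₂ * (Real.pi * a * b / r) * Complex.I) *
      cexp (e₃ * (Real.pi * b / r) * Complex.I) := by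
    intro e₁ e₂ e₃
    unfold ker
    rw [← Complex.exp_add, ← Complex.exp_add, ← Complex.exp_add]
    congr 1
    field_simp
    ring
  simp only [key]
  unfold sinKer
  unfold Complex.sin
  push_cast
  simp only [one_mul, neg_mul]
  have hI : Complex.I ^ 3 = -Complex.I := by rw [pow_succ, Complex.I_sq]; ring
  linear_combination (1 / 8 : ℂ) * ((cexp (-(Real.pi * a / r * Complex.I)) -
    cexp (Real.pi * a / r * Complex.I)) * (cexp (-(Real.pi * a * b / r * Complex.I)) -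
    cexp (Real.pi * a * b / r * Complex.I)) * (cexp (-(Real.pi * b / r * Complex.I)) -
    cexp (Real.pi * b / r * Complex.I))) *
    cexp (Real.pi * Complex.I * (m * a ^ 2 + n * b ^ 2) / (2 * r)) * hI

lemma sinKer_add_left (hr : 0 < r) (a b : ℤ) :
    sinKer m n r (a + (2 * r : ℕ)) b = sinKer m n r a b := by
  simp only [sinKer_eq m n hr, ker_add_left m n hr]

lemma sinKer_add_right (hr : 0 < r) (a b : ℤ) :
    sinKer m n r a (b + (2 * r : ℕ)) = sinKer m n r a b := by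
  simp only [sinKer_eq m n hr, ker_add_right m n hr]

lemma sinKer_neg_left (a b : ℤ) : sinKer m n r (-a) b = sinKer m n r a b := by
  unfold sinKer
  have h1 : (Real.pi * ((-a : ℤ) : ℂ) / r : ℂ) = -(Real.pi * a / r) := by push_cast; ring
  have h2 : (Real.pi * ((-a : ℤ) : ℂ) * b / r : ℂ) = -(Real.pi * a * b / r) := by push_cast; ring
  have h3 : ((-a : ℤ) : ℂ) ^ 2 = (a : ℂ) ^ 2 := by push_cast; ring
  rw [h1, h2, h3, Complex.sin_neg, Complex.sin_neg]
  ring

lemma sinKer_neg_right (a b : ℤ) : sinKer m n r a (-b) = sinKer m n r a b := by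
  unfold sinKer
  have h1 : (Real.pi * ((-b : ℤ) : ℂ) / r : ℂ) = -(Real.pi * b / r) := by push_cast; ring
  have h2 : (Real.pi * a * ((-b : ℤ) : ℂ) / r : ℂ) = -(Real.pi * a * b / r) := by push_cast; ring
  have h3 : ((-b : ℤ) : ℂ) ^ 2 = (b : ℂ) ^ 2 := by push_cast; ring
  rw [h1, h2, h3, Complex.sin_neg, Complex.sin_neg]
  ring

lemma sin_nat_pi (k : ℤ) : Complex.sin (Real.pi * k) = 0 := by
  rw [mul_comm]; exact Complex.sin_int_mul_pi k

lemma sinKer_zero_left (b : ℤ) : sinKer m n r 0 b = 0 := by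
  simp [sinKer]

lemma sinKer_r_left (hr : 0 < r) (b : ℤ) : sinKer m n r r b = 0 := by
  have hr' : (r : ℂ) ≠ 0 := by exact_mod_cast hr.ne'
  have : (Real.pi * ((r : ℤ) : ℂ) / r : ℂ) = Real.pi * ((1 : ℤ) : ℂ) := by
    push_cast; field_simp
  unfold sinKer
  rw [this, sin_nat_pi]
  ring

lemma sinKer_zero_right (a : ℤ) : sinKer m n r a 0 = 0 := by
  simp [sinKer]

lemma sinKer_r_right (hr : 0 < r) (a : ℤ) : sinKer m n r a r = 0 := by
  have hr' : (r : ℂ) ≠ 0 := by exact_mod_cast hr.ne'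
  have : (Real.pi * ((r : ℤ) : ℂ) / r : ℂ) = Real.pi * ((1 : ℤ) : ℂ) := by
    push_cast; field_simp
  unfold sinKer
  rw [this, sin_nat_pi]
  ring

/-- Folding the double sum. -/
lemma double_fold (hr : 0 < r) :
    ∑ a ∈ Finset.range (2 * r), ∑ b ∈ Finset.range (2 * r), sinKer m n r a b =
      4 * ∑ a ∈ Finset.Icc 1 (r - 1), ∑ b ∈ Finset.Icc 1 (r - 1), sinKer m n r a b := by
  have inner : ∀ a : ℤ, ∑ b ∈ Finset.range (2 * r), sinKer m n r a b =
      2 * ∑ b ∈ Finset.Icc 1 (r - 1), sinKer m n r a b := by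
    intro a
    rw [fold_sum (fun b => sinKer m n r a b) r hr]
    · simp only [Nat.cast_zero, sinKer_zero_right, sinKer_r_right m n hr, zero_add]
    · intro j hj
      rw [Nat.cast_sub hj, sub_eq_add_neg, add_comm, sinKer_add_right m n hr, sinKer_neg_right]
  rw [fold_sum (fun a => ∑ b ∈ Finset.range (2 * r), sinKer m n r a b) r hr]
  · simp only [Nat.cast_zero, sinKer_zero_left, sinKer_r_left m n hr, Finset.sum_const_zero,
      zero_add, inner]
    rw [← Finset.mul_sum]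
    ring
  · intro j hj
    refine Finset.sum_congr rfl fun b _ => ?_
    rw [Nat.cast_sub hj, sub_eq_add_neg, add_comm, sinKer_add_left m n hr, sinKer_neg_left]

lemma sum_sinKer (hr : 0 < r) :
    ∑ a ∈ Finset.range (2 * r), ∑ b ∈ Finset.range (2 * r), sinKer m n r a b =
      (Complex.I / 2) * (dsum m n r 1 1 1 - dsum m n r 1 1 (-1)) := by
  simp only [sinKer_eq m n hr]
  have h1 : dsum m n r (-1) (-1) 1 = dsum m n r 1 1 1 := dsum_neg_left m n hr 1 1 1
  have h2 : dsum m n r 1 (-1) (-1) = dsum m n r 1 1 1 := dsum_neg_right m n hr 1 1 1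
  have h3 : dsum m n r (-1) 1 (-1) = dsum m n r 1 1 1 := by
    have := dsum_neg_left m n hr 1 (-1) (-1)
    rw [neg_neg] at this
    rw [this, h2]
  have h4 : dsum m n r (-1) (-1) (-1) = dsum m n r 1 1 (-1) := dsum_neg_left m n hr 1 1 (-1)
  have h5 : dsum m n r 1 (-1) 1 = dsum m n r 1 1 (-1) := by
    have := dsum_neg_right m n hr 1 1 (-1)
    rw [neg_neg] at this
    exact this
  have h6 : dsum m n r (-1) 1 1 = dsum m n r 1 1 (-1) := by
    have := dsum_neg_left m n hr 1 (-1) 1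
    rw [neg_neg] at this
    rw [this, h5]
  have h7 : ∑ a ∈ Finset.range (2 * r), ∑ b ∈ Finset.range (2 * r), (Complex.I / 8) *
    (ker m n r 1 1 1 a b + ker m n r (-1) (-1) 1 a b + ker m n r 1 (-1) (-1) a b +
      ker m n r (-1) 1 (-1) a b - ker m n r 1 1 (-1) a b - ker m n r (-1) (-1) (-1) a b -
      ker m n r 1 (-1) 1 a b - ker m n r (-1) 1 1 a b) =
      (Complex.I / 8) * (dsum m n r 1 1 1 + dsum m n r (-1) (-1) 1 + dsum m n r 1 (-1) (-1) +
        dsum m n r (-1) 1 (-1) - dsum m n r 1 1 (-1) - dsum m n r (-1) (-1) (-1) -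
        dsum m n r 1 (-1) 1 - dsum m n r (-1) 1 1) := by
    unfold dsum
    simp only [← Finset.mul_sum, Finset.sum_add_distrib, Finset.sum_sub_distrib]
  rw [h7, h1, h2, h3, h4, h5, h6]
  ring

end Double

end Pool.Agent.Lib.MP_fcdc94_gt
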