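import Mathlib

set_option autoImplicit false

/-!
Uniqueness of asymptotic expansions in functions `z ^ r * r ^ α`, `|z| = 1`.
-/

open Complex Filter Topology

namespace Pool.Agent.Lib.MP_fcdc94_gt

/-- Cesàro means of a nontrivial unitary character tend to zero. -/
lemma tendsto_avg_pow {w : ℂ} (hw : ‖w‖ = 1) (hw1 : w ≠ 1) :
    Tendsto (fun R : ℕ => ((R : ℂ)⁻¹) * ∑ r ∈ Finset.range R, w ^ r) atTop (𝓝 0) := by
  have hsub : w - 1 ≠ 0 := sub_ne_zero.2 hw1
  have hb : ∀ R : ℕ, ‖∑ r ∈ Finset.range R, w ^ r‖ ≤ 2 / ‖w - 1‖ := by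
    intro R
    rw [geom_sum_eq hw1, norm_div]
    refine div_le_div_of_nonneg_right ?_ (norm_nonneg _)
    calc ‖w ^ R - 1‖ ≤ ‖w ^ R‖ + ‖(1 : ℂ)‖ := norm_sub_le _ _
      _ = 2 := by rw [norm_pow, hw]; norm_num
  rw [tendsto_zero_iff_norm_tendsto_zero]
  have h1 : Tendsto (fun R : ℕ => (2 / ‖w - 1‖) * ((R : ℝ)⁻¹)) atTop (𝓝 0) := by
    have := (tendsto_inv_atTop_zero.comp (tendsto_natCast_atTop_atTop (R := ℝ))).const_mul
      (2 / ‖w - 1‖)
    simpa [Function.comp_def] using this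
  refine squeeze_zero (fun R => norm_nonneg _) (fun R => ?_) h1
  rw [norm_mul, norm_inv, Complex.norm_natCast, mul_comm]
  exact mul_le_mul_of_nonneg_right (hb R) (by positivity)

/-- Asymptotic linear independence of unitary characters. -/
lemma chars_indep {ι : Type*} [Fintype ι] (z : ι → ℂ) (hz : ∀ i, ‖z i‖ = 1)
    (hinj : Function.Injective z) (g : ι → ℂ)
    (h : Tendsto (fun r : ℕ => ∑ i, g i * z i ^ r) atTop (𝓝 0)) : ∀ i, g i = 0 := by
  classical
  intro i
  have hzi : z i ≠ 0 := by intro h0; have := hz i; rw [h0, norm_zero] at this; exact zero_ne_one this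
  have h1 : Tendsto (fun r : ℕ => ∑ j, g j * (z j / z i) ^ r) atTop (𝓝 0) := by
    rw [tendsto_zero_iff_norm_tendsto_zero] at h ⊢
    refine h.congr fun r => ?_
    have : ∑ j, g j * (z j / z i) ^ r = (z i ^ r)⁻¹ * ∑ j, g j * z j ^ r := by
      rw [Finset.mul_sum]
      refine Finset.sum_congr rfl fun j _ => ?_
      rw [div_pow]; field_simp
    rw [this, norm_mul, norm_inv, norm_pow, hz i]
    simp
  have h2 := h1.cesaro_smul
  have h3 : Tendsto (fun R : ℕ => ∑ j, g j * (((R : ℂ)⁻¹) * ∑ r ∈ Finset.range R,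
      (z j / z i) ^ r)) atTop (𝓝 (∑ j, g j * (if j = i then 1 else 0))) := by
    refine tendsto_finsetSum _ fun j _ => Tendsto.const_mul _ ?_
    by_cases hj : j = i
    · subst hj
      simp only [if_true, div_self hzi, one_pow, Finset.sum_const, Finset.card_range,
        nsmul_eq_mul, mul_one]
      have : (fun R : ℕ => ((R : ℂ)⁻¹) * (R : ℂ)) =ᶠ[atTop] fun _ => 1 := by
        filter_upwards [eventually_ge_atTop 1] with R hR
        have : (R : ℂ) ≠ 0 := by exact_mod_cast (by omega : R ≠ 0)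
        field_simp
      exact (tendsto_congr' this).2 tendsto_const_nhds
    · simp only [if_neg hj]
      refine tendsto_avg_pow ?_ ?_
      · rw [norm_div, hz, hz, div_one]
      · intro h0
        rw [div_eq_one_iff_eq hzi] at h0
        exact hj (hinj h0)
  have h4 : ∀ R : ℕ, ∑ j, g j * (((R : ℂ)⁻¹) * ∑ r ∈ Finset.range R, (z j / z i) ^ r) =
      ((R : ℝ)⁻¹) • ∑ r ∈ Finset.range R, ∑ j, g j * (z j / z i) ^ r := by
    intro R
    rw [Finset.sum_comm, Complex.real_smul, Finset.mul_sum]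
    refine Finset.sum_congr rfl fun j _ => ?_
    rw [← Finset.mul_sum]
    push_cast
    ring
  simp only [h4] at h3
  have h5 := tendsto_nhds_unique h3 h2
  simpa using h5

lemma tendsto_rpow_neg_nat {x : ℝ} (hx : x < 0) :
    Tendsto (fun r : ℕ => ((r : ℝ)) ^ x) atTop (𝓝 0) := by
  have := (tendsto_rpow_neg_atTop (y := -x) (by linarith)).comp
    (tendsto_natCast_atTop_atTop (R := ℝ))
  simpa [Function.comp_def] using this

/-- Distinct-pair version. -/
lemma unique_aux {ι : Type*} [Fintype ι] (z : ι → ℂ) (hz : ∀ i, ‖z i‖ = 1) (α : ι → ℝ)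
    (hinj : Function.Injective (fun i => (z i, α i))) (g : ι → ℂ) (γ : ℝ)
    (h : Tendsto (fun r : ℕ => ((r : ℝ) ^ (-γ) : ℝ) * ∑ i, g i * z i ^ r * ((r : ℝ) ^ (α i) : ℝ))
      atTop (𝓝 0)) : ∀ i, γ ≤ α i → g i = 0 := by
  classical
  by_contra hcon
  push Not at hcon
  obtain ⟨i₀, hi₀, hgi₀⟩ := hcon
  let S : Finset ι := Finset.univ.filter (fun i => γ ≤ α i ∧ g i ≠ 0)
  have hS : S.Nonempty := ⟨i₀, by simp [S, hi₀, hgi₀]⟩
  obtain ⟨k, hkS, hkmax⟩ := S.exists_max_image α hS
  have hk : γ ≤ α k ∧ g k ≠ 0 := by simpa [S] using hkS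
  -- multiply by r ^ (γ - α k)
  have h1 : Tendsto (fun r : ℕ => ∑ i, g i * z i ^ r * ((r : ℝ) ^ (α i - α k) : ℝ))
      atTop (𝓝 0) := by
    have hb : ∀ᶠ r : ℕ in atTop, ‖∑ i, g i * z i ^ r * ((r : ℝ) ^ (α i - α k) : ℝ)‖ ≤
        ‖((r : ℝ) ^ (-γ) : ℝ) * ∑ i, g i * z i ^ r * ((r : ℝ) ^ (α i) : ℝ)‖ := by
      filter_upwards [eventually_ge_atTop 1] with r hr
      have hr1 : (1 : ℝ) ≤ r := by exact_mod_cast hr
      have hr0 : (0 : ℝ) < r := by linarith
      have he : ∑ i, g i * z i ^ r * ((r : ℝ) ^ (α i - α k) : ℝ) =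
          ((r : ℝ) ^ (γ - α k) : ℝ) * (((r : ℝ) ^ (-γ) : ℝ) *
            ∑ i, g i * z i ^ r * ((r : ℝ) ^ (α i) : ℝ)) := by
        rw [Finset.mul_sum, Finset.mul_sum]
        refine Finset.sum_congr rfl fun i _ => ?_
        have : (r : ℝ) ^ (α i - α k) = (r : ℝ) ^ (γ - α k) * ((r : ℝ) ^ (-γ) * (r : ℝ) ^ (α i)) := by
          rw [← Real.rpow_add hr0, ← Real.rpow_add hr0]
          congr 1; ring
        rw [this]
        push_cast
        ring
      rw [he, norm_mul]
      have hle : ‖(((r : ℝ) ^ (γ - α k) : ℝ) : ℂ)‖ ≤ 1 := by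
        rw [Complex.norm_real, Real.norm_of_nonneg (by positivity)]
        exact Real.rpow_le_one_of_one_le_of_nonpos hr1 (by linarith [hk.1])
      calc _ ≤ 1 * _ := mul_le_mul_of_nonneg_right hle (norm_nonneg _)
        _ = _ := one_mul _
    rw [tendsto_zero_iff_norm_tendsto_zero] at h ⊢
    exact tendsto_of_tendsto_of_tendsto_of_le_of_le' tendsto_const_nhds h
      (Eventually.of_forall fun _ => norm_nonneg _) hb
  -- remove the lower order terms
  have h2 : ∀ i, Tendsto (fun r : ℕ => g i * z i ^ r * ((r : ℝ) ^ (α i - α k) : ℝ) -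
      (if α i = α k then g i * z i ^ r else 0)) atTop (𝓝 0) := by
    intro i
    by_cases hi : α i = α k
    · simp [hi]
    · simp only [if_neg hi, sub_zero]
      by_cases hgi : g i = 0
      · simp [hgi]
      · have hlt : α i < α k := by
          rcases lt_or_gt_of_ne hi with h' | h'
          · exact h'
          · exfalso
            have : i ∈ S := by simp [S, hgi]; linarith [hk.1]
            linarith [hkmax i this]
        rw [tendsto_zero_iff_norm_tendsto_zero]
        have h3 : ∀ r : ℕ, ‖g i * z i ^ r * ((r : ℝ) ^ (α i - α k) : ℝ)‖ =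
            ‖g i‖ * (r : ℝ) ^ (α i - α k) := by
          intro r
          rw [norm_mul, norm_mul, norm_pow, hz, one_pow, mul_one, Complex.norm_real,
            Real.norm_of_nonneg (by positivity)]
        simp only [h3]
        simpa using (tendsto_rpow_neg_nat (x := α i - α k) (by linarith)).const_mul ‖g i‖
  have h3 := tendsto_finsetSum Finset.univ (fun i _ => h2 i)
  have h4 : Tendsto (fun r : ℕ => ∑ i, (if α i = α k then g i * z i ^ r else 0)) atTop (𝓝 0) := by
    have := h1.sub h3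
    simp only [Finset.sum_const_zero, sub_zero] at this
    refine this.congr fun r => ?_
    rw [← Finset.sum_sub_distrib]
    refine Finset.sum_congr rfl fun i _ => ?_
    ring
  have h5 : Tendsto (fun r : ℕ => ∑ i : {i // α i = α k}, g i * z i ^ r) atTop (𝓝 0) := by
    refine h4.congr fun r => ?_
    rw [← Finset.sum_filter, Finset.sum_subtype (Finset.univ.filter (fun i => α i = α k))
      (p := fun i => α i = α k) (by simp)]
  have h6 := chars_indep (fun i : {i // α i = α k} => z i) (fun i => hz i) (by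
    intro i j hij
    have : (z i, α i) = (z j, α j) := by
      rw [Prod.mk.injEq]; exact ⟨hij, i.2.trans j.2.symm⟩
    exact Subtype.ext (hinj this)) (fun i => g i) h5 ⟨k, rfl⟩
  exact hk.2 h6

/-- **Asymptotic uniqueness**, merged version. -/
theorem unique_coeff {ι : Type*} [Fintype ι] (z : ι → ℂ) (hz : ∀ i, ‖z i‖ = 1) (α : ι → ℝ)
    (g : ι → ℂ) (γ : ℝ)
    (h : Tendsto (fun r : ℕ => ((r : ℝ) ^ (-γ) : ℝ) * ∑ i, g i * z i ^ r * ((r : ℝ) ^ (α i) : ℝ))
      atTop (𝓝 0)) [DecidableEq (ℂ × ℝ)] (w : ℂ) (β : ℝ) (hβ : γ ≤ β) :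
    ∑ i ∈ Finset.univ.filter (fun i => (z i, α i) = (w, β)), g i = 0 := by
  classical
  let T : Finset (ℂ × ℝ) := Finset.univ.image (fun i => (z i, α i))
  let G : ℂ × ℝ → ℂ := fun p => ∑ i ∈ Finset.univ.filter (fun i => (z i, α i) = p), g i
  have h1 := unique_aux (ι := T) (fun p => p.1.1) (by
    rintro ⟨p, hp⟩
    simp only [T, Finset.mem_image, Finset.mem_univ, true_and] at hp
    obtain ⟨i, rfl⟩ := hp
    exact hz i) (fun p => p.1.2) (by
    rintro ⟨⟨a, b⟩, hp⟩ ⟨⟨c, d⟩, hq⟩ hpq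
    exact Subtype.ext hpq) (fun p => G p.1) γ (by
    refine h.congr fun r => ?_
    congr 1
    have e1 : ∑ p : T, G p.1 * p.1.1 ^ r * ((r : ℝ) ^ (p.1.2) : ℝ) =
        ∑ p ∈ T, G p * p.1 ^ r * ((r : ℝ) ^ (p.2) : ℝ) :=
      Finset.sum_coe_sort T (fun p => G p * p.1 ^ r * ((r : ℝ) ^ (p.2) : ℝ))
    rw [e1]
    have e2 := Finset.sum_fiberwise_of_maps_to (s := Finset.univ) (t := T)
      (g := fun i => (z i, α i)) (fun i _ => Finset.mem_image_of_mem _ (Finset.mem_univ i))
      (fun i => g i * z i ^ r * (((r : ℝ) ^ (α i) : ℝ) : ℂ))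
    rw [← e2]
    refine Finset.sum_congr rfl fun p _ => ?_
    simp only [G]
    rw [Finset.sum_mul, Finset.sum_mul]
    refine Finset.sum_congr rfl fun i hi => ?_
    have hip : (z i, α i) = p := (Finset.mem_filter.1 hi).2
    rw [← hip])
  by_cases hT : (w, β) ∈ T
  · have := h1 ⟨(w, β), hT⟩ hβ
    convert this using 2
  · rw [Finset.filter_eq_empty_iff.2, Finset.sum_empty]
    intro i _ hi
    exact hT (by rw [← hi]; exact Finset.mem_image_of_mem _ (Finset.mem_univ i))

end Pool.Agent.Lib.MP_fcdc94_gt
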