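import Mathlib
import Pool.Agent.Lib.MP_fcdc94_gt.GaussRec
import Pool.Agent.Lib.MP_fcdc94_gt.Uniqueness
import Pool.Agent.Lib.MP_fcdc94_gt.Defs

set_option autoImplicit false

/-!
Evaluation of the torus bundle invariants.
-/

open Complex Filter Topology

namespace Pool.Agent.Lib.MP_fcdc94_gt

lemma tMat_pow (r a n : ℕ) (hr : 0 < r) : tMat r a ^ (n : ℤ) =
    cexp (-(Real.pi * Complex.I * n / 4)) *
      cexp (Real.pi * Complex.I * (n * a ^ 2) / (2 * r : ℕ)) := by
  have hr' : (r : ℂ) ≠ 0 := by exact_mod_cast hr.ne'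
  unfold tMat
  rw [zpow_natCast, ← Complex.exp_nat_mul, ← Complex.exp_add]
  congr 1
  push_cast
  field_simp
  ring

/-- Folding the full Gauss sum. -/
lemma half_sum (n r : ℕ) (hr : 2 ≤ r) :
    ∑ j ∈ Finset.range (2 * r), cexp (Real.pi * Complex.I * (n * j ^ 2) / (2 * r : ℕ)) =
      1 + cexp (Real.pi * Complex.I * n / 2) ^ r +
        2 * ∑ a ∈ Finset.Icc 1 (r - 1), cexp (Real.pi * Complex.I * (n * a ^ 2) / (2 * r : ℕ)) := by
  have hr' : (r : ℂ) ≠ 0 := by exact_mod_cast (by omega : r ≠ 0)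
  set f : ℕ → ℂ := fun j => cexp (Real.pi * Complex.I * (n * j ^ 2) / (2 * r : ℕ)) with hf
  have hsym : ∀ j ≤ 2 * r, f (2 * r - j) = f j := by
    intro j hj
    simp only [hf]
    have h1 : (Real.pi * Complex.I * (n * ((2 * r - j : ℕ) : ℂ) ^ 2) / (2 * r : ℕ) : ℂ) =
        Real.pi * Complex.I * (n * (j : ℂ) ^ 2) / (2 * r : ℕ) +
          (n * ((r : ℤ) - j) : ℤ) * (2 * Real.pi * Complex.I) := by
      rw [Nat.cast_sub hj]
      push_cast
      field_simp
      ring
    rw [h1, Complex.exp_add, Complex.exp_int_mul_two_pi_mul_I, mul_one]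
  have h0 : f 0 = 1 := by simp [hf]
  have hrr : f r = cexp (Real.pi * Complex.I * n / 2) ^ r := by
    simp only [hf]
    rw [← Complex.exp_nat_mul]
    congr 1
    push_cast
    field_simp
  have e1 : ∑ j ∈ Finset.range (2 * r), f j = ∑ j ∈ Finset.range r, f j +
      ∑ j ∈ Finset.range r, f (r + j) := by
    rw [two_mul, Finset.sum_range_add]
  have e2 : ∑ j ∈ Finset.range r, f j = f 0 + ∑ a ∈ Finset.Icc 1 (r - 1), f a := by
    obtain ⟨q, rfl⟩ : ∃ q, r = q + 1 := ⟨r - 1, by omega⟩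
    rw [Finset.sum_range_succ', add_comm]
    congr 1
    simp only [Nat.add_sub_cancel]
    rw [Finset.range_eq_Ico, Finset.sum_Ico_add' f 0 q 1]
    rfl
  have e3 : ∑ j ∈ Finset.range r, f (r + j) = f r + ∑ a ∈ Finset.Icc 1 (r - 1), f a := by
    obtain ⟨q, rfl⟩ : ∃ q, r = q + 1 := ⟨r - 1, by omega⟩
    rw [Finset.sum_range_succ', add_comm, add_zero]
    congr 1
    simp only [Nat.add_sub_cancel]
    have : ∑ a ∈ Finset.Icc 1 q, f a = ∑ k ∈ Finset.range q, f (k + 1) := by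
      rw [Finset.range_eq_Ico, Finset.sum_Ico_add' f 0 q 1]
      rfl
    rw [this, ← Finset.sum_range_reflect]
    refine Finset.sum_congr rfl fun k hk => ?_
    have hk' := Finset.mem_range.1 hk
    rw [← hsym (k + 1) (by omega)]
    congr 1
    omega
  rw [e1, e2, e3, h0, hrr]
  ring

/-- The exact evaluation of the torus bundle invariant. -/
theorem torusBundle_eq (n : ℕ) (hn : 0 < n) (f : ℤ) (r : ℕ) (hr : 2 ≤ r) :
    torusBundle n f r = cexp (-(Real.pi * Complex.I * f / (2 * r))) *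
      ((cexp (Real.pi * Complex.I * f / 4) * cexp (-(Real.pi * Complex.I * n / 4)) / 2) *
        ((Real.sqrt (2 / n) : ℂ) * cexp (Real.pi * Complex.I / 4) *
          (∑ j ∈ Finset.range n, cexp (-(2 * Real.pi * Complex.I * j ^ 2 / n)) ^ r) *
          (((r : ℝ) ^ (1 / 2 : ℝ) : ℝ) : ℂ) - 1 - cexp (Real.pi * Complex.I * n / 2) ^ r)) := by
  have hr' : (r : ℂ) ≠ 0 := by exact_mod_cast (by omega : r ≠ 0)
  have hn' : (n : ℂ) ≠ 0 := by exact_mod_cast hn.ne'
  have hG := gauss_reciprocity n (2 * r) hn (by omega) 0 (by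
    rw [add_zero]; push_cast; exact ⟨n * r, by ring⟩)
  have hH := half_sum n r hr
  have h1 : ∑ a ∈ Finset.Icc 1 (r - 1), tMat r a ^ (n : ℤ) =
      cexp (-(Real.pi * Complex.I * n / 4)) *
        ∑ a ∈ Finset.Icc 1 (r - 1), cexp (Real.pi * Complex.I * (n * a ^ 2) / (2 * r : ℕ)) := by
    rw [Finset.mul_sum]
    exact Finset.sum_congr rfl fun a _ => tMat_pow r a n (by omega)
  have h2 : framing f r = cexp (Real.pi * Complex.I * f / 4) *
      cexp (-(Real.pi * Complex.I * f / (2 * r))) := by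
    unfold framing
    rw [← Complex.exp_add]
    congr 1
    field_simp
    ring
  have h3 : ∑ a ∈ Finset.Icc 1 (r - 1), cexp (Real.pi * Complex.I * (n * a ^ 2) / (2 * r : ℕ)) =
      ((Real.sqrt (2 / n) : ℂ) * cexp (Real.pi * Complex.I / 4) *
          (∑ j ∈ Finset.range n, cexp (-(2 * Real.pi * Complex.I * j ^ 2 / n)) ^ r) *
          (((r : ℝ) ^ (1 / 2 : ℝ) : ℝ) : ℂ) - 1 - cexp (Real.pi * Complex.I * n / 2) ^ r) / 2 := by
    have h4 : ∑ j ∈ Finset.range (2 * r), cexp (Real.pi * Complex.I * (n * j ^ 2) / (2 * r : ℕ)) =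
      (Real.sqrt (2 / n) : ℂ) * cexp (Real.pi * Complex.I / 4) *
          (∑ j ∈ Finset.range n, cexp (-(2 * Real.pi * Complex.I * j ^ 2 / n)) ^ r) *
          (((r : ℝ) ^ (1 / 2 : ℝ) : ℝ) : ℂ) := by
      have h5 : (Real.sqrt (((2 * r : ℕ) : ℝ) / n) : ℂ) =
          (Real.sqrt (2 / n) : ℂ) * (((r : ℝ) ^ (1 / 2 : ℝ) : ℝ) : ℂ) := by
        rw [← Real.sqrt_eq_rpow, ← Complex.ofReal_mul, ← Real.sqrt_mul (by positivity)]
        congr 2
        push_cast; ring
      have h6 : ∀ j : ℕ, cexp (-(Real.pi * Complex.I * (((2 * r : ℕ) : ℂ) * j ^ 2 -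
          ((0 : ℤ) : ℂ) * j) / n)) = cexp (-(2 * Real.pi * Complex.I * j ^ 2 / n)) ^ r := by
        intro j
        rw [← Complex.exp_nat_mul]
        congr 1
        push_cast
        field_simp
        ring
      have h7 : ∀ j : ℕ, cexp (Real.pi * Complex.I * (n * j ^ 2 + ((0 : ℤ) : ℂ) * j) /
          (2 * r : ℕ)) = cexp (Real.pi * Complex.I * (n * j ^ 2) / (2 * r : ℕ)) := by
        intro j; simp
      simp only [h6, h7, h5] at hG
      rw [hG]
      simp
      ring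
    rw [h4] at hH
    rw [hH]
    ring
  unfold torusBundle
  rw [h1, h2, h3]
  ring

/-- `|exp (i x / r) - 1| ≤ |x| / r`. -/
lemma norm_exp_sub_one_le (x : ℝ) : ‖cexp (x * Complex.I) - 1‖ ≤ |x| := by
  have := Real.norm_exp_I_mul_ofReal_sub_one_le (x := x)
  rw [mul_comm]
  simpa using this

end Pool.Agent.Lib.MP_fcdc94_gt
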