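import Mathlib
import Pool.Agent.Lib.MP_fcdc94_gt.Hopf
import Pool.Agent.Lib.MP_fcdc94_gt.Torus

set_option autoImplicit false

/-!
Evaluation of the invariants of surgeries on the Hopf link, continued.
-/

open Complex Filter Topology

namespace Pool.Agent.Lib.MP_fcdc94_gt

/-- The one-variable kernel obtained after the first reciprocity. -/
noncomputable def gker (m n r : ℕ) (ε : ℤ) (B : ℤ) : ℂ :=
  cexp (Real.pi * Complex.I * ((m * n : ℂ) * B ^ 2 + 2 * ε * m * B - (B + 1) ^ 2) /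
    (2 * r * m))

lemma gker_periodic (m n r : ℕ) (hm : 0 < m) (hr : 0 < r) (ε B : ℤ) :
    gker m n r ε (B + (2 * r * m : ℕ)) = gker m n r ε B := by
  have hr' : (r : ℂ) ≠ 0 := by exact_mod_cast hr.ne'
  have hm' : (m : ℂ) ≠ 0 := by exact_mod_cast hm.ne'
  unfold gker
  have : (Real.pi * Complex.I * ((m * n : ℂ) * ((B + (2 * r * m : ℕ) : ℤ) : ℂ) ^ 2 +
      2 * ε * m * ((B + (2 * r * m : ℕ) : ℤ) : ℂ) -
      (((B + (2 * r * m : ℕ) : ℤ) : ℂ) + 1) ^ 2) / (2 * r * m) : ℂ) =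
      Real.pi * Complex.I * ((m * n : ℂ) * B ^ 2 + 2 * ε * m * B - (B + 1) ^ 2) / (2 * r * m) +
      ((m * n * (B + r * m) + ε * m - (B + 1) - r * m : ℤ) : ℂ) * (2 * Real.pi * Complex.I) := by
    push_cast
    field_simp
    ring
  rw [this, Complex.exp_add, Complex.exp_int_mul_two_pi_mul_I, mul_one]

/-- The inner sum. -/
lemma inner_sum (m n r : ℕ) (hm : 0 < m) (hr : 0 < r) (ε b : ℤ) :
    ∑ a ∈ Finset.range (2 * r), ker m n r 1 1 ε a b =
      (Real.sqrt ((2 * r : ℕ) / m) : ℂ) * cexp (Real.pi * Complex.I / 4) *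
        ∑ j ∈ Finset.range m, gker m n r ε (b - 2 * r * j) := by
  have hr' : (r : ℂ) ≠ 0 := by exact_mod_cast hr.ne'
  have hm' : (m : ℂ) ≠ 0 := by exact_mod_cast hm.ne'
  have hG := gauss_reciprocity m (2 * r) hm (by omega) (2 * (b + 1)) (by
    push_cast
    exact ⟨m * r + (b + 1), by ring⟩)
  have h1 : ∀ a : ℕ, ker m n r 1 1 ε a b =
      cexp (Real.pi * Complex.I * (n * b ^ 2 + 2 * ε * b) / (2 * r)) *
        cexp (Real.pi * Complex.I * (m * a ^ 2 + ((2 * (b + 1) : ℤ) : ℂ) * a) / (2 * r : ℕ)) := by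
    intro a
    unfold ker
    rw [← Complex.exp_add]
    congr 1
    push_cast
    field_simp
    ring
  simp only [h1]
  rw [← Finset.mul_sum, hG, Finset.mul_sum, Finset.mul_sum, Finset.mul_sum]
  refine Finset.sum_congr rfl fun j _ => ?_
  have h2 : gker m n r ε (b - 2 * r * j) =
      cexp (Real.pi * Complex.I * (n * b ^ 2 + 2 * ε * b) / (2 * r)) *
      (cexp (-(Real.pi * Complex.I * ((2 * (b + 1) : ℤ) : ℂ) ^ 2 / (4 * m * (2 * r : ℕ)))) *
      cexp (-(Real.pi * Complex.I * (((2 * r : ℕ) : ℂ) * j ^ 2 - ((2 * (b + 1) : ℤ) : ℂ) * j) /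
        m))) := by
    unfold gker
    rw [← Complex.exp_add, ← Complex.exp_add]
    have : (Real.pi * Complex.I * ((m * n : ℂ) * ((b - 2 * r * j : ℤ) : ℂ) ^ 2 +
        2 * ε * m * ((b - 2 * r * j : ℤ) : ℂ) - (((b - 2 * r * j : ℤ) : ℂ) + 1) ^ 2) /
        (2 * r * m) : ℂ) =
        (Real.pi * Complex.I * (n * b ^ 2 + 2 * ε * b) / (2 * r) +
        (-(Real.pi * Complex.I * ((2 * (b + 1) : ℤ) : ℂ) ^ 2 / (4 * m * (2 * r : ℕ))) +
        -(Real.pi * Complex.I * (((2 * r : ℕ) : ℂ) * j ^ 2 - ((2 * (b + 1) : ℤ) : ℂ) * j) /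
        m))) + ((n * (r * j ^ 2 - b * j) - ε * j : ℤ) : ℂ) * (2 * Real.pi * Complex.I) := by
      push_cast
      field_simp
      ring
    rw [this, Complex.exp_add, Complex.exp_int_mul_two_pi_mul_I, mul_one]
  rw [h2]
  ring

lemma dsum_eq_range (m n r : ℕ) (hm : 0 < m) (hr : 0 < r) (ε : ℤ) :
    dsum m n r 1 1 ε = (Real.sqrt ((2 * r : ℕ) / m) : ℂ) * cexp (Real.pi * Complex.I / 4) *
      ∑ B ∈ Finset.range (m * (2 * r)), gker m n r ε B := by
  unfold dsum
  rw [Finset.sum_comm]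
  simp only [inner_sum m n r hm hr]
  rw [← Finset.mul_sum]
  congr 1
  rw [sum_range_mul (fun B : ℕ => gker m n r ε B) m (2 * r)]
  rw [Finset.sum_comm (s := Finset.range m)]
  refine Finset.sum_congr rfl fun b _ => ?_
  have h := sum_reflect_periodic (N := m) (F := fun j => gker m n r ε (b + 2 * r * j)) (by
    intro x
    have : (b : ℤ) + 2 * r * (x + m) = (b + 2 * r * x) + (2 * r * m : ℕ) := by
      push_cast; ring
    show gker m n r ε ((b : ℤ) + 2 * r * (x + m)) = _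
    rw [this, gker_periodic m n r hm hr])
  calc ∑ j ∈ Finset.range m, gker m n r ε (b - 2 * r * j) =
      ∑ j ∈ Finset.range m, gker m n r ε (b + 2 * r * (-(j : ℤ))) := by
        refine Finset.sum_congr rfl fun j _ => ?_
        congr 1; ring
    _ = ∑ j ∈ Finset.range m, gker m n r ε (b + 2 * r * (j : ℤ)) := h
    _ = _ := by
        refine Finset.sum_congr rfl fun j _ => ?_
        congr 1

lemma range_eval (m n p r : ℕ) (hm : 0 < m) (hr : 0 < r) (hp : 0 < p) (hmn : m * n = p + 1)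
    (ε : ℤ) (hε : ε ^ 2 = 1) :
    ∑ B ∈ Finset.range (m * (2 * r)), gker m n r ε B =
      (Real.sqrt ((m * (2 * r) : ℕ) / p) : ℂ) * cexp (Real.pi * Complex.I / 4) *
        cexp (-(Real.pi * Complex.I * (m + n - 2 * ε) / (2 * p * r))) *
        ∑ j ∈ Finset.range p, cexp (-(2 * Real.pi * Complex.I * m * j ^ 2 / p)) ^ r *
          cexp (2 * Real.pi * Complex.I * (ε * m - 1) * j / p) := by
  have hr' : (r : ℂ) ≠ 0 := by exact_mod_cast hr.ne'
  have hm' : (m : ℂ) ≠ 0 := by exact_mod_cast hm.ne'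
  have hp' : (p : ℂ) ≠ 0 := by exact_mod_cast hp.ne'
  have hmn' : (m * n : ℂ) = p + 1 := by exact_mod_cast hmn
  have hε' : (ε : ℂ) ^ 2 = 1 := by exact_mod_cast hε
  have hG := gauss_reciprocity p (m * (2 * r)) hp (by positivity) (2 * (ε * m - 1)) (by
    push_cast
    exact ⟨p * m * r + (ε * m - 1), by ring⟩)
  have h1 : ∀ B : ℕ, gker m n r ε B =
      cexp (-(Real.pi * Complex.I / (2 * r * m))) *
        cexp (Real.pi * Complex.I * (p * B ^ 2 + ((2 * (ε * m - 1) : ℤ) : ℂ) * B) /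
          (m * (2 * r) : ℕ)) := by
    intro B
    unfold gker
    rw [← Complex.exp_add]
    congr 1
    rw [hmn']
    push_cast
    field_simp
    ring
  simp only [h1]
  rw [← Finset.mul_sum, hG]
  have h2 : ∀ j : ℕ, cexp (-(Real.pi * Complex.I * (((m * (2 * r) : ℕ) : ℂ) * j ^ 2 -
      ((2 * (ε * m - 1) : ℤ) : ℂ) * j) / p)) =
      cexp (-(2 * Real.pi * Complex.I * m * j ^ 2 / p)) ^ r *
          cexp (2 * Real.pi * Complex.I * (ε * m - 1) * j / p) := by
    intro j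
    rw [← Complex.exp_nat_mul, ← Complex.exp_add]
    congr 1
    push_cast
    field_simp
    ring
  simp only [h2]
  have h3 : cexp (-(Real.pi * Complex.I * (m + n - 2 * ε) / (2 * p * r))) =
      cexp (-(Real.pi * Complex.I / (2 * r * m))) *
      cexp (-(Real.pi * Complex.I * ((2 * (ε * m - 1) : ℤ) : ℂ) ^ 2 /
        (4 * p * (m * (2 * r) : ℕ)))) := by
    rw [← Complex.exp_add]
    congr 1
    push_cast
    field_simp
    linear_combination (-4 : ℂ) * hmn' + (4 * (m : ℂ) ^ 2) * hε'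
  rw [h3]
  ring

lemma dsum_eval (m n p r : ℕ) (hm : 0 < m) (hr : 0 < r) (hp : 0 < p) (hmn : m * n = p + 1)
    (ε : ℤ) (hε : ε ^ 2 = 1) :
    dsum m n r 1 1 ε = ((2 * r / Real.sqrt p : ℝ) : ℂ) * Complex.I *
        cexp (-(Real.pi * Complex.I * (m + n - 2 * ε) / (2 * p * r))) *
        ∑ j ∈ Finset.range p, cexp (-(2 * Real.pi * Complex.I * m * j ^ 2 / p)) ^ r *
          cexp (2 * Real.pi * Complex.I * (ε * m - 1) * j / p) := by
  rw [dsum_eq_range m n r hm hr, range_eval m n p r hm hr hp hmn ε hε]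
  have h1 : cexp (Real.pi * Complex.I / 4) * cexp (Real.pi * Complex.I / 4) = Complex.I := by
    have e : (Real.pi * Complex.I / 4 + Real.pi * Complex.I / 4 : ℂ) =
      Real.pi / 2 * Complex.I := by ring
    rw [← Complex.exp_add, e, Complex.exp_pi_div_two_mul_I]
  have h2 : Real.sqrt ((2 * r : ℕ) / m) * Real.sqrt ((m * (2 * r) : ℕ) / p) =
      2 * r / Real.sqrt p := by
    have hm' : (0 : ℝ) < m := by exact_mod_cast hm
    have hp' : (0 : ℝ) < p := by exact_mod_cast hp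
    rw [← Real.sqrt_mul (by positivity)]
    have : (((2 * r : ℕ) : ℝ) / m * (((m * (2 * r) : ℕ) : ℝ) / p)) = (2 * r) ^ 2 / p := by
      push_cast
      field_simp
    rw [this, Real.sqrt_div' _ hp'.le, Real.sqrt_sq (by positivity)]
  rw [← h2, Complex.ofReal_mul]
  set A : ℂ := (Real.sqrt ((2 * r : ℕ) / m) : ℂ)
  set B : ℂ := (Real.sqrt ((m * (2 * r) : ℕ) / p) : ℂ)
  set E : ℂ := cexp (Real.pi * Complex.I / 4)
  set F : ℂ := cexp (-(Real.pi * Complex.I * (m + n - 2 * ε) / (2 * p * r)))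
  set S : ℂ := ∑ j ∈ Finset.range p, cexp (-(2 * Real.pi * Complex.I * m * j ^ 2 / p)) ^ r *
          cexp (2 * Real.pi * Complex.I * (ε * m - 1) * j / p)
  linear_combination A * B * F * S * h1

/-- The exact evaluation of the Hopf link surgery invariant. -/
theorem hopfSurgery_eq (m n p r : ℕ) (hm : 0 < m) (hr : 0 < r) (hp : 0 < p)
    (hmn : m * n = p + 1) (f : ℤ) :
    hopfSurgery m n f r =
      -(cexp (Real.pi * Complex.I * f / 4) * cexp (-(Real.pi * Complex.I * (m + n) / 4)) /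
        (Real.sqrt (2 * p) : ℝ)) * (((r : ℝ) ^ (-(1 / 2) : ℝ) : ℝ) : ℂ) *
      (cexp (((-(Real.pi * (m + n - 2) / (2 * p)) - Real.pi * f / 2 : ℝ) : ℂ) * Complex.I / r) *
        ∑ j ∈ Finset.range p, cexp (-(2 * Real.pi * Complex.I * m * j ^ 2 / p)) ^ r *
          cexp (2 * Real.pi * Complex.I * (m - 1) * j / p) -
      cexp (((-(Real.pi * (m + n + 2) / (2 * p)) - Real.pi * f / 2 : ℝ) : ℂ) * Complex.I / r) *
        ∑ j ∈ Finset.range p, cexp (-(2 * Real.pi * Complex.I * m * j ^ 2 / p)) ^ r *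
          cexp (2 * Real.pi * Complex.I * (-m - 1) * j / p)) := by
  have hr' : (r : ℂ) ≠ 0 := by exact_mod_cast hr.ne'
  have hp' : (p : ℂ) ≠ 0 := by exact_mod_cast hp.ne'
  have hrR : (0 : ℝ) < r := by exact_mod_cast hr
  have hpR : (0 : ℝ) < p := by exact_mod_cast hp
  -- the summand
  have h1 : ∀ a b : ℕ, sMat r 1 a * tMat r a ^ (m : ℤ) * sMat r a b * tMat r b ^ (n : ℤ) *
      sMat r b 1 = ((Real.sqrt (2 / r) ^ 3 : ℝ) : ℂ) *
        cexp (-(Real.pi * Complex.I * (m + n) / 4)) * sinKer m n r a b := by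
    intro a b
    rw [tMat_pow r a m hr, tMat_pow r b n hr]
    unfold sMat sinKer
    have e1 : cexp (Real.pi * Complex.I * (m * ((a : ℤ) : ℂ) ^ 2 + n * ((b : ℤ) : ℂ) ^ 2) /
        (2 * r)) = cexp (Real.pi * Complex.I * (m * a ^ 2) / (2 * r : ℕ)) *
          cexp (Real.pi * Complex.I * (n * b ^ 2) / (2 * r : ℕ)) := by
      rw [← Complex.exp_add]
      congr 1
      push_cast
      field_simp
    have e2 : cexp (-(Real.pi * Complex.I * (m + n) / 4)) =
        cexp (-(Real.pi * Complex.I * m / 4)) * cexp (-(Real.pi * Complex.I * n / 4)) := by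
      rw [← Complex.exp_add]
      congr 1
      ring
    rw [e1, e2]
    push_cast
    rw [mul_one]
    ring_nf
  unfold hopfSurgery
  simp only [h1]
  have h2 : ∑ a ∈ Finset.Icc 1 (r - 1), ∑ b ∈ Finset.Icc 1 (r - 1),
      ((Real.sqrt (2 / r) ^ 3 : ℝ) : ℂ) *
        cexp (-(Real.pi * Complex.I * (m + n) / 4)) * sinKer m n r a b =
      ((Real.sqrt (2 / r) ^ 3 : ℝ) : ℂ) * cexp (-(Real.pi * Complex.I * (m + n) / 4)) *
      ((1 / 4) * ((Complex.I / 2) * (dsum m n r 1 1 1 - dsum m n r 1 1 (-1)))) := by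
    rw [← sum_sinKer m n hr, double_fold m n hr]
    simp only [← Finset.mul_sum]
    ring
  rw [h2, dsum_eval m n p r hm hr hp hmn 1 (by norm_num),
    dsum_eval m n p r hm hr hp hmn (-1) (by norm_num)]
  have h3 : framing f r = cexp (Real.pi * Complex.I * f / 4) *
      cexp (-(Real.pi * Complex.I * f / (2 * r))) := by
    unfold framing
    rw [← Complex.exp_add]
    congr 1
    field_simp
    ring
  have h4 : ∀ s : ℂ, cexp (-(Real.pi * Complex.I * f / (2 * r))) *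
      cexp (-(Real.pi * Complex.I * (m + n - 2 * s) / (2 * p * r))) =
      cexp ((-(Real.pi * (m + n - 2 * s) / (2 * p)) - Real.pi * f / 2) * Complex.I / r) := by
    intro s
    rw [← Complex.exp_add]
    congr 1
    field_simp
    ring
  have h5 : Real.sqrt (2 / r) ^ 3 * (2 * r / Real.sqrt p) =
      8 * ((r : ℝ) ^ (-(1 / 2) : ℝ) / Real.sqrt (2 * p)) := by
    have e1 : (r : ℝ) ^ (-(1 / 2) : ℝ) = (Real.sqrt r)⁻¹ := by
      rw [Real.rpow_neg hrR.le, Real.sqrt_eq_rpow]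
    have e2 : Real.sqrt (2 * p) = Real.sqrt 2 * Real.sqrt p := Real.sqrt_mul (by norm_num) _
    have e3 : Real.sqrt (2 / r) = Real.sqrt 2 / Real.sqrt r := Real.sqrt_div (by norm_num) _
    have e4 : Real.sqrt 2 ^ 2 = 2 := Real.sq_sqrt (by norm_num)
    have e5 : Real.sqrt r ^ 2 = r := Real.sq_sqrt hrR.le
    have e6 : 0 < Real.sqrt r := Real.sqrt_pos.2 hrR
    have e7 : 0 < Real.sqrt p := Real.sqrt_pos.2 hpR
    have e8 : 0 < Real.sqrt (2 : ℝ) := Real.sqrt_pos.2 (by norm_num)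
    rw [e1, e2, e3]
    field_simp
    rw [e5]
    have : Real.sqrt 2 ^ 4 = 4 := by
      calc Real.sqrt 2 ^ 4 = (Real.sqrt 2 ^ 2) ^ 2 := by ring
        _ = 4 := by rw [e4]; norm_num
    nlinarith [this]
  have h5' : ((Real.sqrt (2 / r) ^ 3 : ℝ) : ℂ) * ((2 * r / Real.sqrt p : ℝ) : ℂ) =
      8 * ((((r : ℝ) ^ (-(1 / 2) : ℝ) : ℝ) : ℂ) / (Real.sqrt (2 * p) : ℝ)) := by
    have := congrArg (fun x : ℝ => (x : ℂ)) h5
    push_cast at this ⊢
    exact this
  rw [h3]
  have h6 := h4 1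
  have h7 := h4 (-1)
  have h8 : ((-(Real.pi * (m + n - 2) / (2 * p)) - Real.pi * f / 2 : ℝ) : ℂ) =
    (-(Real.pi * (m + n - 2 * 1) / (2 * p)) - Real.pi * f / 2) := by push_cast; ring
  have h9 : ((-(Real.pi * (m + n + 2) / (2 * p)) - Real.pi * f / 2 : ℝ) : ℂ) =
    (-(Real.pi * (m + n - 2 * (-1)) / (2 * p)) - Real.pi * f / 2) := by push_cast; ring
  rw [h8, h9, ← h6, ← h7]
  simp only [Int.cast_one, Int.cast_neg, one_mul, neg_mul]
  clear h1 h2 h3 h4 h5 h6 h7 h8 h9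
  generalize cexp (Real.pi * Complex.I * f / 4) = K1
  generalize cexp (-(Real.pi * Complex.I * f / (2 * r))) = K2
  generalize ((Real.sqrt (2 / r) ^ 3 : ℝ) : ℂ) = Q at *
  generalize cexp (-(Real.pi * Complex.I * (m + n) / 4)) = L
  generalize ((2 * r / Real.sqrt p : ℝ) : ℂ) = D at *
  generalize cexp (-(Real.pi * Complex.I * (m + n - 2 * 1) / (2 * p * r))) = F1
  generalize cexp (-(Real.pi * Complex.I * (m + n - 2 * -1) / (2 * p * r))) = F2
  generalize (((r : ℝ) ^ (-(1 / 2) : ℝ) : ℝ) : ℂ) = H at *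
  generalize (Real.sqrt (2 * p) : ℂ) = W at *
  generalize (∑ x ∈ Finset.range p, cexp (-(2 * Real.pi * Complex.I * m * x ^ 2 / p)) ^ r *
    cexp (2 * Real.pi * Complex.I * (m - 1) * x / p)) = S1
  generalize (∑ x ∈ Finset.range p, cexp (-(2 * Real.pi * Complex.I * m * x ^ 2 / p)) ^ r *
    cexp (2 * Real.pi * Complex.I * (-m - 1) * x / p)) = S2
  linear_combination (K1 * K2 * L * (F1 * S1 - F2 * S2) * (Complex.I ^ 2 / 8)) * h5' +
    (K1 * K2 * L * (F1 * S1 - F2 * S2) * (H / W)) * Complex.I_sq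

end Pool.Agent.Lib.MP_fcdc94_gt
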