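import Mathlib
import Pool.Agent.Lib.MP_fcdc94_gt.HopfEval

set_option autoImplicit false

/-!
Evaluation of the invariants of lens spaces, given by surgery on chains of unknots.
-/

open Complex Filter Topology

namespace Pool.Agent.Lib.MP_fcdc94_gt

/-- The pair `(p, q)` with `p / q = a₁ - 1 / (a₂ - 1 / (⋯ - 1 / aₖ))`: surgery on the chain of
unknots with framings `a₁, …, aₖ` gives the lens space `L(p, q)`. -/
def frac : List ℤ → ℤ × ℤ
  | [] => (1, 0)
  | a :: l => (a * (frac l).1 - (frac l).2, (frac l).1)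

/-- The entry `(y, 1)` of `S T ^ a₁ S T ^ a₂ S ⋯ T ^ aₖ S`. -/
noncomputable def chain (r : ℕ) : List ℤ → ℕ → ℂ
  | [] => fun y => sMat r y 1
  | a :: l => fun y => ∑ x ∈ Finset.Icc 1 (r - 1), sMat r y x * tMat r x ^ a * chain r l x

/-- The `SU(2)` invariant of the manifold obtained by surgery on a chain of unknots with framings
`a₁, …, aₖ` (a lens space), with framing correction `f`: the vacuum entry of
`S T ^ a₁ S T ^ a₂ S ⋯ T ^ aₖ S`. -/
noncomputable def chainSurgery (a : List ℤ) (f : ℤ) (r : ℕ) : ℂ := framing f r * chain r a 1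

lemma tMat_zpow (r a : ℕ) (n : ℤ) (hr : 0 < r) : tMat r a ^ n =
    cexp (-(Real.pi * Complex.I * n / 4)) *
      cexp (Real.pi * Complex.I * (n * a ^ 2) / (2 * r)) := by
  have hr' : (r : ℂ) ≠ 0 := by exact_mod_cast hr.ne'
  unfold tMat
  rw [← Complex.exp_int_mul, ← Complex.exp_add]
  congr 1
  field_simp
  ring

/-- The summand. -/
noncomputable def gk (r p : ℕ) (q t ε Y : ℤ) : ℂ :=
  cexp (-(Real.pi * Complex.I * (q * Y ^ 2 + 2 * ε * Y + t) / (2 * r * p)))

/-- The sum. -/
noncomputable def wsum (r p : ℕ) (q t ε y : ℤ) : ℂ :=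
  ∑ j ∈ Finset.range p, gk r p q t ε (y + 2 * r * j)

variable {r p : ℕ}

lemma gk_periodic (hr : 0 < r) (hp : 0 < p) (q t ε Y : ℤ) :
    gk r p q t ε (Y + 2 * r * p) = gk r p q t ε Y := by
  have hr' : (r : ℂ) ≠ 0 := by exact_mod_cast hr.ne'
  have hp' : (p : ℂ) ≠ 0 := by exact_mod_cast hp.ne'
  unfold gk
  have : (-(Real.pi * Complex.I * (q * ((Y + 2 * r * p : ℤ) : ℂ) ^ 2 +
      2 * ε * ((Y + 2 * r * p : ℤ) : ℂ) + t) / (2 * r * p)) : ℂ) =
      -(Real.pi * Complex.I * (q * Y ^ 2 + 2 * ε * Y + t) / (2 * r * p)) +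
      ((-(q * Y + q * r * p + ε) : ℤ) : ℂ) * (2 * Real.pi * Complex.I) := by
    push_cast
    field_simp
    ring
  rw [this, Complex.exp_add, Complex.exp_int_mul_two_pi_mul_I, mul_one]

lemma gk_index_periodic (hr : 0 < r) (hp : 0 < p) (q t ε y x : ℤ) :
    gk r p q t ε (y + 2 * r * (x + p)) = gk r p q t ε (y + 2 * r * x) := by
  rw [← gk_periodic hr hp q t ε (y + 2 * r * x)]
  congr 1
  ring

lemma wsum_add (hr : 0 < r) (hp : 0 < p) (q t ε y : ℤ) :
    wsum r p q t ε (y + (2 * r : ℕ)) = wsum r p q t ε y := by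
  unfold wsum
  have h := sum_shift_periodic (N := p) (F := fun j => gk r p q t ε (y + 2 * r * j))
    (fun x => gk_index_periodic hr hp q t ε y x) 1
  rw [← h]
  refine Finset.sum_congr rfl fun j _ => ?_
  congr 1
  push_cast
  ring

lemma wsum_eq_sub (hr : 0 < r) (hp : 0 < p) (q t ε y : ℤ) :
    ∑ j ∈ Finset.range p, gk r p q t ε (y - 2 * r * j) = wsum r p q t ε y := by
  unfold wsum
  have h := sum_reflect_periodic (N := p) (F := fun j => gk r p q t ε (y + 2 * r * j))
    (fun x => gk_index_periodic hr hp q t ε y x)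
  rw [← h]
  refine Finset.sum_congr rfl fun j _ => ?_
  congr 1
  ring

lemma gk_neg (q t ε Y : ℤ) : gk r p q t ε (-Y) = gk r p q t (-ε) Y := by
  unfold gk
  congr 1
  push_cast
  ring

lemma wsum_neg (hr : 0 < r) (hp : 0 < p) (q t ε y : ℤ) :
    wsum r p q t ε (-y) = wsum r p q t (-ε) y := by
  rw [← wsum_eq_sub hr hp q t (-ε) y]
  unfold wsum
  refine Finset.sum_congr rfl fun j _ => ?_
  rw [← gk_neg]
  congr 1
  ring

/-- The main step: Gauss reciprocity. -/
lemma wsum_step (hr : 0 < r) (p' : ℕ) (hp' : 0 < p') (hp : 0 < p) (a q' t' t : ℤ)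
    (h1 : (p : ℤ) = a * p' - q') (h2 : t * p' = 1 + t' * p) (ε y : ℤ) (hε : ε ^ 2 = 1) :
    ∑ x ∈ Finset.range (2 * r), cexp (Real.pi * Complex.I * x * y / r) *
      cexp (Real.pi * Complex.I * (a * x ^ 2) / (2 * r)) * wsum r p' q' t' ε x =
      (Real.sqrt ((p' * (2 * r) : ℕ) / p) : ℂ) * cexp (Real.pi * Complex.I / 4) *
        wsum r p p' t (-ε) y := by
  have hr' : (r : ℂ) ≠ 0 := by exact_mod_cast hr.ne'
  have hp0 : (p : ℂ) ≠ 0 := by exact_mod_cast hp.ne'
  have hp0' : (p' : ℂ) ≠ 0 := by exact_mod_cast hp'.ne'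
  have hh1 : (p : ℂ) = a * p' - q' := by exact_mod_cast h1
  have hh2 : (t : ℂ) * p' = 1 + t' * p := by exact_mod_cast h2
  have hε' : (ε : ℂ) ^ 2 = 1 := by exact_mod_cast hε
  -- combine
  have e1 : ∀ x j : ℕ, cexp (Real.pi * Complex.I * x * y / r) *
      cexp (Real.pi * Complex.I * (a * x ^ 2) / (2 * r)) *
      gk r p' q' t' ε ((x : ℤ) + 2 * r * j) =
      cexp (-(Real.pi * Complex.I * t' / (2 * r * p'))) *
        cexp (Real.pi * Complex.I * (p * ((x + 2 * r * j : ℕ) : ℂ) ^ 2 +
          ((2 * (p' * y - ε) : ℤ) : ℂ) * ((x + 2 * r * j : ℕ) : ℂ)) / (p' * (2 * r) : ℕ)) := by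
    intro x j
    unfold gk
    rw [← Complex.exp_add, ← Complex.exp_add, ← Complex.exp_add]
    have : (-(Real.pi * Complex.I * t' / (2 * r * p')) +
        Real.pi * Complex.I * (p * ((x + 2 * r * j : ℕ) : ℂ) ^ 2 +
          ((2 * (p' * y - ε) : ℤ) : ℂ) * ((x + 2 * r * j : ℕ) : ℂ)) / (p' * (2 * r) : ℕ) : ℂ) =
        (Real.pi * Complex.I * x * y / r + Real.pi * Complex.I * (a * x ^ 2) / (2 * r) +
        -(Real.pi * Complex.I * (q' * (((x : ℤ) + 2 * r * j : ℤ) : ℂ) ^ 2 +
          2 * ε * (((x : ℤ) + 2 * r * j : ℤ) : ℂ) + t') / (2 * r * p'))) +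
        ((j * y + a * (x * j + r * j ^ 2) : ℤ) : ℂ) * (2 * Real.pi * Complex.I) := by
      rw [hh1]
      push_cast
      field_simp
      ring
    rw [this, Complex.exp_add _ (_ * (2 * Real.pi * Complex.I)),
      Complex.exp_int_mul_two_pi_mul_I, mul_one]
  have e2 : ∑ x ∈ Finset.range (2 * r), cexp (Real.pi * Complex.I * x * y / r) *
      cexp (Real.pi * Complex.I * (a * x ^ 2) / (2 * r)) * wsum r p' q' t' ε x =
      cexp (-(Real.pi * Complex.I * t' / (2 * r * p'))) *
      ∑ X ∈ Finset.range (p' * (2 * r)), cexp (Real.pi * Complex.I * (p * (X : ℂ) ^ 2 +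
          ((2 * (p' * y - ε) : ℤ) : ℂ) * (X : ℂ)) / (p' * (2 * r) : ℕ)) := by
    rw [sum_range_mul _ p' (2 * r), Finset.sum_comm, Finset.mul_sum]
    refine Finset.sum_congr rfl fun x _ => ?_
    unfold wsum
    rw [Finset.mul_sum, Finset.mul_sum]
    refine Finset.sum_congr rfl fun j _ => ?_
    exact e1 x j
  have hG := gauss_reciprocity p (p' * (2 * r)) hp (by positivity) (2 * (p' * y - ε)) (by
    push_cast
    exact ⟨p * p' * r + (p' * y - ε), by ring⟩)
  rw [e2, hG, ← wsum_eq_sub hr hp]
  have e3 : ∀ j : ℕ, gk r p p' t (-ε) (y - 2 * r * j) =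
      cexp (-(Real.pi * Complex.I * t' / (2 * r * p'))) *
      (cexp (-(Real.pi * Complex.I * ((2 * (p' * y - ε) : ℤ) : ℂ) ^ 2 /
        (4 * p * (p' * (2 * r) : ℕ)))) *
      cexp (-(Real.pi * Complex.I * (((p' * (2 * r) : ℕ) : ℂ) * j ^ 2 -
        ((2 * (p' * y - ε) : ℤ) : ℂ) * j) / p))) := by
    intro j
    unfold gk
    rw [← Complex.exp_add, ← Complex.exp_add]
    congr 1
    have ht : (t : ℂ) = (1 + t' * p) / p' := by
      field_simp
      exact hh2
    rw [ht]
    push_cast
    field_simp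
    linear_combination (4 : ℂ) * hε'
  simp only [e3]
  rw [← Finset.mul_sum, ← Finset.mul_sum]
  ring

/-- The evaluation of the entries `(y, 1)`. -/
theorem chain_eq (l : List ℤ) (hl : ∀ a ∈ l, 2 ≤ a) :
    ∃ (p : ℕ) (q t u : ℤ) (κ : ℂ), 0 < p ∧ frac l = ((p : ℤ), q) ∧ t * q - p * u = 1 ∧
      0 ≤ q ∧ q < p ∧ κ ≠ 0 ∧
      ∀ r : ℕ, 0 < r → ∀ y : ℕ, chain r l y = κ * (((r : ℝ) ^ (-(1 / 2) : ℝ) : ℝ) : ℂ) *
        (wsum r p q t 1 y - wsum r p q t (-1) y) := by
  induction l with
  | nil =>
    refine ⟨1, 0, 0, -1, Complex.I * (Real.sqrt 2 / 2 : ℝ), by norm_num, rfl, by norm_num,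
      le_rfl, by norm_num, ?_, ?_⟩
    · refine mul_ne_zero Complex.I_ne_zero ?_
      have : (Real.sqrt 2 / 2 : ℝ) ≠ 0 := by positivity
      exact_mod_cast this
    · intro r hr y
      have hrR : (0 : ℝ) < r := by exact_mod_cast hr
      have hr' : (r : ℂ) ≠ 0 := by exact_mod_cast hr.ne'
      have e1 : (r : ℝ) ^ (-(1 / 2) : ℝ) = (Real.sqrt r)⁻¹ := by
        rw [Real.rpow_neg hrR.le, Real.sqrt_eq_rpow]
      have e3 : Real.sqrt (2 / r) = Real.sqrt 2 / Real.sqrt r := Real.sqrt_div (by norm_num) _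
      have e4 : ∀ ε : ℤ, wsum r 1 0 0 ε y = cexp (-(ε * (Real.pi * y / r) * Complex.I)) := by
        intro ε
        unfold wsum gk
        simp only [Finset.sum_range_one]
        congr 1
        push_cast
        field_simp
        ring
      have e5 : Complex.sin (Real.pi * y / r) = (cexp (-((1 : ℤ) * (Real.pi * y / r) * Complex.I)) -
        cexp (-(((-1 : ℤ) : ℂ) * (Real.pi * y / r) * Complex.I))) * Complex.I / 2 := by
        unfold Complex.sin
        congr 3
        · congr 1; push_cast; ring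
        · congr 1; push_cast; ring
      unfold chain sMat
      rw [e1, e3, e4, e4]
      push_cast
      rw [mul_one, e5]
      push_cast
      ring
  | cons a l ih =>
    obtain ⟨p', q', t', u', κ, hp', hfr, hdet, hq0, hqp, hκ, hform⟩ :=
      ih (fun x hx => hl x (List.mem_cons_of_mem _ hx))
    have ha : 2 ≤ a := hl a List.mem_cons_self
    have hpos : (p' : ℤ) < a * p' - q' := by nlinarith
    obtain ⟨p, hp⟩ : ∃ p : ℕ, (p : ℤ) = a * p' - q' :=
      ⟨(a * p' - q').toNat, Int.toNat_of_nonneg (by linarith [Int.natCast_nonneg p'])⟩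
    have hp0 : 0 < p := by
      have : (0 : ℤ) < p := by rw [hp]; linarith [Int.natCast_nonneg p']
      exact_mod_cast this
    set t : ℤ := a * t' - u' with ht
    have h2 : t * p' = 1 + t' * p := by
      rw [hp, ht]
      linear_combination hdet
    refine ⟨p, p', t, t', κ * ((Real.sqrt (p' / p) : ℝ) : ℂ) *
      (Complex.I * cexp (Real.pi * Complex.I / 4) * cexp (-(Real.pi * Complex.I * a / 4))),
      hp0, ?_, ?_, ?_, ?_, ?_, ?_⟩
    · simp only [frac, hfr, hp]
    · linear_combination h2
    · exact Int.natCast_nonneg p'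
    · rw [hp]; exact hpos
    · refine mul_ne_zero (mul_ne_zero hκ ?_) (mul_ne_zero (mul_ne_zero Complex.I_ne_zero
        (Complex.exp_ne_zero _)) (Complex.exp_ne_zero _))
      have h3 : (0 : ℝ) < p' := by exact_mod_cast hp'
      have h4 : (0 : ℝ) < p := by exact_mod_cast hp0
      have : Real.sqrt (p' / p) ≠ 0 := (Real.sqrt_pos.2 (by positivity)).ne'
      exact_mod_cast this
    · intro r hr y
      have hrR : (0 : ℝ) < r := by exact_mod_cast hr
      have hr' : (r : ℂ) ≠ 0 := by exact_mod_cast hr.ne'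
      have hpR : (0 : ℝ) < p := by exact_mod_cast hp0
      have hpR' : (0 : ℝ) < p' := by exact_mod_cast hp'
      -- the even periodic summand
      set G : ℤ → ℂ := fun x => cexp (Real.pi * Complex.I * (a * x ^ 2) / (2 * r)) *
        (wsum r p' q' t' 1 x - wsum r p' q' t' (-1) x) with hG
      set F : ℤ → ℂ := fun x => Complex.sin (Real.pi * y * x / r) * G x with hF
      have hGper : ∀ x, G (x + (2 * r : ℕ)) = G x := by
        intro x
        simp only [hG]
        rw [wsum_add hr hp', wsum_add hr hp']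
        congr 1
        have : (Real.pi * Complex.I * (a * ((x + (2 * r : ℕ) : ℤ) : ℂ) ^ 2) / (2 * r) : ℂ) =
            Real.pi * Complex.I * (a * x ^ 2) / (2 * r) +
            ((a * (x + r) : ℤ) : ℂ) * (2 * Real.pi * Complex.I) := by
          push_cast
          field_simp
          ring
        rw [this, Complex.exp_add, Complex.exp_int_mul_two_pi_mul_I, mul_one]
      have hGodd : ∀ x, G (-x) = -G x := by
        intro x
        simp only [hG]
        rw [wsum_neg hr hp', wsum_neg hr hp', neg_neg]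
        have : ((-x : ℤ) : ℂ) ^ 2 = (x : ℂ) ^ 2 := by push_cast; ring
        rw [this]
        ring
      have hFper : ∀ x, F (x + (2 * r : ℕ)) = F x := by
        intro x
        simp only [hF]
        rw [hGper]
        congr 1
        have : (Real.pi * y * ((x + (2 * r : ℕ) : ℤ) : ℂ) / r : ℂ) =
            Real.pi * y * x / r + (y : ℕ) * (2 * Real.pi) := by
          push_cast
          field_simp
        rw [this, Complex.sin_add_nat_mul_two_pi]
      have hFeven : ∀ x, F (-x) = F x := by
        intro x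
        simp only [hF]
        rw [hGodd]
        have : (Real.pi * y * ((-x : ℤ) : ℂ) / r : ℂ) = -(Real.pi * y * x / r) := by
          push_cast; ring
        rw [this, Complex.sin_neg]
        ring
      have hF0 : F ((0 : ℕ) : ℤ) = 0 := by simp [hF]
      have hFr : F ((r : ℕ) : ℤ) = 0 := by
        simp only [hF]
        have : (Real.pi * y * (((r : ℕ) : ℤ) : ℂ) / r : ℂ) = Real.pi * ((y : ℤ) : ℂ) := by
          push_cast; field_simp
        rw [this, sin_nat_pi]
        ring
      have hfold := fold_sum (fun x : ℕ => F x) r hr (by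
        intro j hj
        show F ((2 * r - j : ℕ) : ℤ) = F (j : ℤ)
        rw [Nat.cast_sub hj, sub_eq_add_neg, add_comm, hFper, hFeven])
      have hfold' : ∑ x ∈ Finset.range (2 * r), F x =
          2 * ∑ x ∈ Finset.Icc 1 (r - 1), F x := by
        have h3 : ∑ x ∈ Finset.range (2 * r), F x =
          F ((0 : ℕ) : ℤ) + F ((r : ℕ) : ℤ) + 2 * ∑ x ∈ Finset.Icc 1 (r - 1), F x := hfold
        rw [h3, hF0, hFr]
        ring
      -- replace the sine by an exponential
      set H : ℤ → ℂ := fun x => cexp (-(Real.pi * Complex.I * x * y / r)) * G x with hH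
      have hHper : ∀ x, H (x + (2 * r : ℕ)) = H x := by
        intro x
        simp only [hH]
        rw [hGper]
        congr 1
        have : (-(Real.pi * Complex.I * ((x + (2 * r : ℕ) : ℤ) : ℂ) * y / r) : ℂ) =
            -(Real.pi * Complex.I * x * y / r) +
            ((-y : ℤ) : ℂ) * (2 * Real.pi * Complex.I) := by
          push_cast
          field_simp
          ring
        rw [this, Complex.exp_add, Complex.exp_int_mul_two_pi_mul_I, mul_one]
      have hHsum := sum_reflect_periodic (N := 2 * r) hHper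
      have hHneg : ∀ x : ℕ, H (-(x : ℤ)) = -(cexp (Real.pi * Complex.I * x * y / r) * G x) := by
        intro x
        simp only [hH]
        rw [hGodd]
        have : (-(Real.pi * Complex.I * ((-(x : ℤ) : ℤ) : ℂ) * y / r) : ℂ) =
          Real.pi * Complex.I * x * y / r := by push_cast; ring
        rw [this]
        ring
      have hsin : ∑ x ∈ Finset.range (2 * r), F x = -Complex.I *
          ∑ x ∈ Finset.range (2 * r), cexp (Real.pi * Complex.I * x * y / r) * G x := by
        have h3 : ∀ x : ℕ, F x = (Complex.I / 2) * (H x -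
            cexp (Real.pi * Complex.I * x * y / r) * G x) := by
          intro x
          simp only [hF, hH]
          have h4 : Complex.sin (Real.pi * y * ((x : ℤ) : ℂ) / r) =
              (cexp (-(Real.pi * Complex.I * ((x : ℤ) : ℂ) * y / r)) -
                cexp (Real.pi * Complex.I * x * y / r)) * Complex.I / 2 := by
            unfold Complex.sin
            congr 3
            · congr 1; push_cast; ring
            · congr 1; push_cast; ring
          rw [h4]
          ring
        simp only [h3]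
        rw [← Finset.mul_sum, Finset.sum_sub_distrib, ← hHsum]
        simp only [hHneg]
        rw [Finset.sum_neg_distrib]
        ring
      have hstep : ∀ ε : ℤ, ε ^ 2 = 1 → ∑ x ∈ Finset.range (2 * r),
          cexp (Real.pi * Complex.I * x * y / r) *
          cexp (Real.pi * Complex.I * (a * x ^ 2) / (2 * r)) * wsum r p' q' t' ε x =
          (Real.sqrt ((p' * (2 * r) : ℕ) / p) : ℂ) * cexp (Real.pi * Complex.I / 4) *
            wsum r p p' t (-ε) y := by
        intro ε hε
        have := wsum_step hr p' hp' hp0 a q' t' t hp h2 ε y hε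
        simpa using this
      have hsum : ∑ x ∈ Finset.range (2 * r), cexp (Real.pi * Complex.I * x * y / r) * G x =
          (Real.sqrt ((p' * (2 * r) : ℕ) / p) : ℂ) * cexp (Real.pi * Complex.I / 4) *
            (wsum r p p' t (-1) y - wsum r p p' t 1 y) := by
        have h3 := hstep 1 (by norm_num)
        have h4 := hstep (-1) (by norm_num)
        rw [neg_neg] at h4
        calc ∑ x ∈ Finset.range (2 * r), cexp (Real.pi * Complex.I * x * y / r) * G x =
            ∑ x ∈ Finset.range (2 * r), (cexp (Real.pi * Complex.I * x * y / r) *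
              cexp (Real.pi * Complex.I * (a * x ^ 2) / (2 * r)) * wsum r p' q' t' 1 x -
              cexp (Real.pi * Complex.I * x * y / r) *
              cexp (Real.pi * Complex.I * (a * x ^ 2) / (2 * r)) * wsum r p' q' t' (-1) x) := by
              refine Finset.sum_congr rfl fun x _ => ?_
              simp only [hG]
              push_cast
              ring
          _ = _ := by
              rw [Finset.sum_sub_distrib, h3, h4]
              ring
      -- assemble
      have hsummand : ∀ x : ℕ, sMat r y x * tMat r x ^ a * chain r l x =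
          κ * (((r : ℝ) ^ (-(1 / 2) : ℝ) : ℝ) : ℂ) * ((Real.sqrt (2 / r) : ℝ) : ℂ) *
            cexp (-(Real.pi * Complex.I * a / 4)) * F x := by
        intro x
        rw [hform r hr x, tMat_zpow r x a hr]
        simp only [hF, hG]
        unfold sMat
        push_cast
        ring
      have hchain : chain r (a :: l) y = ∑ x ∈ Finset.Icc 1 (r - 1),
          sMat r y x * tMat r x ^ a * chain r l x := rfl
      rw [hchain]
      simp only [hsummand]
      rw [← Finset.mul_sum]
      have hhalf : ∑ x ∈ Finset.Icc 1 (r - 1), F x =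
          (1 / 2) * (-Complex.I * ((Real.sqrt ((p' * (2 * r) : ℕ) / p) : ℂ) *
            cexp (Real.pi * Complex.I / 4) *
            (wsum r p p' t (-1) y - wsum r p p' t 1 y))) := by
        rw [← hsum, ← hsin, hfold']
        ring
      rw [hhalf]
      have hsq : Real.sqrt (2 / r) * Real.sqrt ((p' * (2 * r) : ℕ) / p) =
          2 * Real.sqrt (p' / p) := by
        rw [← Real.sqrt_mul (by positivity)]
        have : (2 / r * (((p' * (2 * r) : ℕ) : ℝ) / p) : ℝ) = 2 ^ 2 * (p' / p) := by
          push_cast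
          field_simp
        rw [this, Real.sqrt_mul (by norm_num), Real.sqrt_sq (by norm_num)]
      have hsq' : ((Real.sqrt (2 / r) : ℝ) : ℂ) * (Real.sqrt ((p' * (2 * r) : ℕ) / p) : ℂ) =
          2 * ((Real.sqrt (p' / p) : ℝ) : ℂ) := by
        rw [← Complex.ofReal_mul, hsq]
        push_cast
        ring
      linear_combination (κ * (((r : ℝ) ^ (-(1 / 2) : ℝ) : ℝ) : ℂ) *
        cexp (-(Real.pi * Complex.I * a / 4)) * (1 / 2) * (-Complex.I) *
        cexp (Real.pi * Complex.I / 4) *
        (wsum r p p' t (-1) y - wsum r p p' t 1 y)) * hsq'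

end Pool.Agent.Lib.MP_fcdc94_gt
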