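import Mathlib
import Pool.Agent.Lib.MP_fcdc94_gt.Uniqueness
import Pool.Agent.Lib.MP_fcdc94_gt.Defs

set_option autoImplicit false

/-!
Comparing an exact expansion with the data of the conjecture.
-/

open Complex Filter Topology

namespace Pool.Agent.Lib.MP_fcdc94_gt

lemma exp_two_pi_eq_one_iff {x : ℝ} : cexp (2 * Real.pi * Complex.I * x) = 1 ↔ ∃ k : ℤ, x = k := by
  rw [Complex.exp_eq_one_iff]
  have hpi : (2 * Real.pi * Complex.I : ℂ) ≠ 0 := Complex.two_pi_I_ne_zero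
  constructor
  · rintro ⟨k, hk⟩
    refine ⟨k, ?_⟩
    have : (x : ℂ) = k := by
      apply mul_left_cancel₀ hpi
      rw [hk]; ring
    exact_mod_cast this
  · rintro ⟨k, rfl⟩
    exact ⟨k, by push_cast; ring⟩

namespace Expansion

variable (X : Expansion)

/-- The unitary number of the phase `c j`. -/
noncomputable def z (j : Fin (X.m + 1)) : ℂ := cexp (2 * Real.pi * Complex.I * X.c j)

lemma norm_z (j : Fin (X.m + 1)) : ‖X.z j‖ = 1 := by
  unfold z
  rw [Complex.norm_exp]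
  simp

lemma z_injective : Function.Injective X.z := by
  intro i j h
  by_contra hij
  have h1 : cexp (2 * Real.pi * Complex.I * ((X.c i - X.c j : ℝ) : ℂ)) = 1 := by
    have : cexp (2 * Real.pi * Complex.I * ((X.c i - X.c j : ℝ) : ℂ)) = X.z i / X.z j := by
      unfold z
      rw [← Complex.exp_sub]
      congr 1
      push_cast; ring
    rw [this, h, div_self]
    unfold z
    exact Complex.exp_ne_zero _
  obtain ⟨k, hk⟩ := exp_two_pi_eq_one_iff.1 h1
  exact X.c_distinct i j hij k hk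

lemma z_zero : X.z 0 = 1 := by simp [z, X.c_zero]

/-- Coefficients of the truncated expansion, including the leading one. -/
noncomputable def coeff (j : Fin (X.m + 1)) (e : ℕ) : ℂ :=
  (X.v j : ℂ) * cexp (2 * Real.pi * Complex.I * (X.I j / 8)) * (if e = 0 then 1 else X.a j e)

lemma coeff_zero_ne {j : Fin (X.m + 1)} (hv : 0 < X.v j) : X.coeff j 0 ≠ 0 := by
  unfold coeff
  simp [hv.ne']

lemma coeff_of_v_zero {j : Fin (X.m + 1)} (hv : X.v j = 0) (e : ℕ) : X.coeff j e = 0 := by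
  unfold coeff
  simp [hv]

/-- The right-hand side at a phase `z j` is a sum over the exponents of `j` only. -/
lemma rhs_eq {δ : ℝ} (E : ℕ) (j : Fin (X.m + 1)) (β : ℝ) [DecidableEq (ℂ × ℝ)] :
    ∑ p ∈ Finset.univ.filter (fun p : Fin (X.m + 1) × Fin (E + 1) =>
        (X.z p.1, X.d p.1 - (p.2 : ℕ) * δ) = (X.z j, β)), X.coeff p.1 p.2 =
      ∑ e : Fin (E + 1), if X.d j - (e : ℕ) * δ = β then X.coeff j e else 0 := by
  classical
  rw [Finset.sum_filter, Fintype.sum_prod_type, Finset.sum_eq_single j]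
  · refine Finset.sum_congr rfl fun e _ => ?_
    simp
  · intro i _ hij
    refine Finset.sum_eq_zero fun e _ => ?_
    rw [if_neg]
    intro h
    rw [Prod.mk.injEq] at h
    exact hij (X.z_injective h.1)
  · intro h
    exact absurd (Finset.mem_univ j) h

/-- The right-hand side vanishes at a value that is not a phase. -/
lemma rhs_of_not_phase {δ : ℝ} (E : ℕ) {w : ℂ} (hw : ∀ j, X.z j ≠ w) (β : ℝ)
    [DecidableEq (ℂ × ℝ)] :
    ∑ p ∈ Finset.univ.filter (fun p : Fin (X.m + 1) × Fin (E + 1) =>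
        (X.z p.1, X.d p.1 - (p.2 : ℕ) * δ) = (w, β)), X.coeff p.1 p.2 = 0 := by
  refine Finset.sum_eq_zero fun p hp => ?_
  exfalso
  simp only [Finset.mem_filter, Finset.mem_univ, true_and, Prod.mk.injEq] at hp
  exact hw _ hp.1

lemma le_top (j : Fin (X.m + 1)) : X.d j ≤ X.top := Finset.le_sup' X.d (Finset.mem_univ j)

lemma exists_top : ∃ j, X.d j = X.top := by
  obtain ⟨j, _, hj⟩ := Finset.exists_mem_eq_sup' Finset.univ_nonempty X.d
  exact ⟨j, hj.symm⟩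

lemma S_eq (δ : ℝ) (E r : ℕ) (hr : 2 ≤ r) : X.S δ E r =
    ∑ p : Fin (X.m + 1) × Fin (E + 1), X.coeff p.1 p.2 * X.z p.1 ^ r *
      (((r : ℝ) ^ (X.d p.1 - (p.2 : ℕ) * δ) : ℝ) : ℂ) := by
  have hr0 : (0 : ℝ) < r := by exact_mod_cast (by omega : 0 < r)
  unfold S
  rw [Fintype.sum_prod_type]
  refine Finset.sum_congr rfl fun j _ => ?_
  have h1 : cexp (2 * Real.pi * Complex.I * (r * X.c j + X.I j / 8)) =
      cexp (2 * Real.pi * Complex.I * (X.I j / 8)) * X.z j ^ r := by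
    unfold z
    rw [← Complex.exp_nat_mul, ← Complex.exp_add]
    congr 1; ring
  have h2 : (1 + ∑ e ∈ Finset.Icc 1 E, X.a j e * (((r : ℝ) ^ (-(e * δ)) : ℝ) : ℂ)) =
      ∑ e : Fin (E + 1), (if (e : ℕ) = 0 then 1 else X.a j e) *
        (((r : ℝ) ^ (-(((e : ℕ) : ℝ) * δ)) : ℝ) : ℂ) := by
    rw [Fin.sum_univ_eq_sum_range (fun e => (if e = 0 then (1 : ℂ) else X.a j e) *
        (((r : ℝ) ^ (-(e * δ)) : ℝ) : ℂ)) (E + 1), Finset.sum_range_succ', add_comm]
    congr 1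
    · have : ∑ e ∈ Finset.Icc 1 E, X.a j e * (((r : ℝ) ^ (-(e * δ)) : ℝ) : ℂ) =
        ∑ k ∈ Finset.range E, X.a j (k + 1) * (((r : ℝ) ^ (-(((k + 1 : ℕ) : ℝ) * δ)) : ℝ) : ℂ) := by
        rw [Finset.range_eq_Ico, Finset.sum_Ico_add'
          (fun e => X.a j e * (((r : ℝ) ^ (-(e * δ)) : ℝ) : ℂ)) 0 E 1]
        rfl
      rw [this]
      refine Finset.sum_congr rfl fun k _ => ?_
      rw [if_neg (by omega)]
    · simp
  rw [h1, h2, Finset.mul_sum]
  refine Finset.sum_congr rfl fun e _ => ?_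
  have h3 : (r : ℝ) ^ (X.d j - (e : ℕ) * δ) =
      (r : ℝ) ^ (X.d j) * (r : ℝ) ^ (-(((e : ℕ) : ℝ) * δ)) := by
    rw [← Real.rpow_add hr0]; congr 1
  rw [h3]
  unfold coeff
  push_cast
  ring

/-- Comparison of coefficients. -/
theorem compare {ι : Type*} [Fintype ι] {Z : ℕ → ℂ} {E : ℕ} {δ : ℝ} (hB : X.Bound δ Z E)
    (z : ι → ℂ) (hz : ∀ i, ‖z i‖ = 1) (α : ι → ℝ) (g : ι → ℂ) (η C : ℝ)
    (hZ : ∀ r : ℕ, 2 ≤ r → ‖Z r - ∑ i, g i * z i ^ r * (((r : ℝ) ^ (α i) : ℝ) : ℂ)‖ ≤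
      C * (r : ℝ) ^ η) (γ : ℝ) (h1 : η < γ) (h2 : X.top - (E + 1) * δ < γ)
    [DecidableEq (ℂ × ℝ)] (w : ℂ) (β : ℝ) (hβ : γ ≤ β) :
    ∑ i ∈ Finset.univ.filter (fun i => (z i, α i) = (w, β)), g i =
      ∑ p ∈ Finset.univ.filter (fun p : Fin (X.m + 1) × Fin (E + 1) =>
        (X.z p.1, X.d p.1 - (p.2 : ℕ) * δ) = (w, β)), X.coeff p.1 p.2 := by
  classical
  obtain ⟨C', hC'⟩ := hB
  let κ := ι ⊕ (Fin (X.m + 1) × Fin (E + 1))
  let zz : κ → ℂ := Sum.elim z (fun p => X.z p.1)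
  let aa : κ → ℝ := Sum.elim α (fun p => X.d p.1 - (p.2 : ℕ) * δ)
  let gg : κ → ℂ := Sum.elim g (fun p => -X.coeff p.1 p.2)
  have hlim : Tendsto (fun r : ℕ => ((r : ℝ) ^ (-γ) : ℝ) * ∑ i, gg i * zz i ^ r *
      ((r : ℝ) ^ (aa i) : ℝ)) atTop (𝓝 0) := by
    rw [tendsto_zero_iff_norm_tendsto_zero]
    have hb : ∀ᶠ r : ℕ in atTop, ‖(((r : ℝ) ^ (-γ) : ℝ) : ℂ) * ∑ i, gg i * zz i ^ r *
        ((r : ℝ) ^ (aa i) : ℝ)‖ ≤ C * (r : ℝ) ^ (η - γ) + C' * (r : ℝ) ^ (X.top - (E + 1) * δ - γ) := by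
      filter_upwards [eventually_ge_atTop 2] with r hr
      have hr0 : (0 : ℝ) < r := by exact_mod_cast (by omega : 0 < r)
      have e1 : ∑ i, gg i * zz i ^ r * (((r : ℝ) ^ (aa i) : ℝ) : ℂ) =
          ∑ i, g i * z i ^ r * (((r : ℝ) ^ (α i) : ℝ) : ℂ) - X.S δ E r := by
        rw [X.S_eq δ E r hr, Fintype.sum_sum_type, sub_eq_add_neg, ← Finset.sum_neg_distrib]
        congr 1
        refine Finset.sum_congr rfl fun p _ => ?_
        simp only [gg, zz, aa, Sum.elim_inr]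
        ring
      rw [e1, norm_mul, Complex.norm_real, Real.norm_of_nonneg (by positivity)]
      have e2 : ‖∑ i, g i * z i ^ r * (((r : ℝ) ^ (α i) : ℝ) : ℂ) - X.S δ E r‖ ≤
          C * (r : ℝ) ^ η + C' * (r : ℝ) ^ (X.top - (E + 1) * δ) := by
        have e3 : ∑ i, g i * z i ^ r * (((r : ℝ) ^ (α i) : ℝ) : ℂ) - X.S δ E r =
          (Z r - X.S δ E r) - (Z r - ∑ i, g i * z i ^ r * (((r : ℝ) ^ (α i) : ℝ) : ℂ)) := by ring
        rw [e3]
        calc _ ≤ ‖Z r - X.S δ E r‖ + ‖Z r - ∑ i, g i * z i ^ r * (((r : ℝ) ^ (α i) : ℝ) : ℂ)‖ :=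
              norm_sub_le _ _
          _ ≤ C' * (r : ℝ) ^ (X.top - (E + 1) * δ) + C * (r : ℝ) ^ η := add_le_add (hC' r hr) (hZ r hr)
          _ = _ := by ring
      calc _ ≤ (r : ℝ) ^ (-γ) * (C * (r : ℝ) ^ η + C' * (r : ℝ) ^ (X.top - (E + 1) * δ)) :=
            mul_le_mul_of_nonneg_left e2 (by positivity)
        _ = C * ((r : ℝ) ^ η * (r : ℝ) ^ (-γ)) +
            C' * ((r : ℝ) ^ (X.top - (E + 1) * δ) * (r : ℝ) ^ (-γ)) := by ring
        _ = _ := by
            rw [← Real.rpow_add hr0, ← Real.rpow_add hr0, ← sub_eq_add_neg, ← sub_eq_add_neg]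
    have hlim2 : Tendsto (fun r : ℕ => C * (r : ℝ) ^ (η - γ) +
        C' * (r : ℝ) ^ (X.top - (E + 1) * δ - γ)) atTop (𝓝 0) := by
      have t1 := (tendsto_rpow_neg_nat (x := η - γ) (by linarith)).const_mul C
      have t2 := (tendsto_rpow_neg_nat (x := X.top - (E + 1) * δ - γ) (by linarith)).const_mul C'
      simpa using t1.add t2
    exact tendsto_of_tendsto_of_tendsto_of_le_of_le' tendsto_const_nhds hlim2
      (Eventually.of_forall fun _ => norm_nonneg _) hb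
  have key := unique_coeff zz (by
    rintro (i | p)
    · exact hz i
    · exact X.norm_z p.1) aa gg γ hlim w β hβ
  rw [Finset.sum_filter, Fintype.sum_sum_type] at key
  simp only [zz, aa, gg, Sum.elim_inl, Sum.elim_inr] at key
  rw [Finset.sum_filter, Finset.sum_filter]
  have e4 : ∑ p : Fin (X.m + 1) × Fin (E + 1), (if (X.z p.1, X.d p.1 - (p.2 : ℕ) * δ) = (w, β)
      then -X.coeff p.1 p.2 else 0) = -∑ p : Fin (X.m + 1) × Fin (E + 1),
      (if (X.z p.1, X.d p.1 - (p.2 : ℕ) * δ) = (w, β) then X.coeff p.1 p.2 else 0) := by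
    rw [← Finset.sum_neg_distrib]
    refine Finset.sum_congr rfl fun p _ => ?_
    split_ifs <;> simp
  rw [e4] at key
  linear_combination key

/-- The right-hand side at the phase `z j` and the leading exponent `d j`. -/
lemma rhs_lead {δ : ℝ} (hδ : 0 < δ) (E : ℕ) (j : Fin (X.m + 1)) [DecidableEq (ℂ × ℝ)] :
    ∑ p ∈ Finset.univ.filter (fun p : Fin (X.m + 1) × Fin (E + 1) =>
        (X.z p.1, X.d p.1 - (p.2 : ℕ) * δ) = (X.z j, X.d j)), X.coeff p.1 p.2 = X.coeff j 0 := by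
  have : Finset.univ.filter (fun p : Fin (X.m + 1) × Fin (E + 1) =>
        (X.z p.1, X.d p.1 - (p.2 : ℕ) * δ) = (X.z j, X.d j)) = {(j, 0)} := by
    ext ⟨i, e⟩
    simp only [Finset.mem_filter, Finset.mem_univ, true_and, Prod.mk.injEq,
      Finset.mem_singleton]
    constructor
    · rintro ⟨h1, h2⟩
      have h3 := X.z_injective h1
      subst h3
      refine ⟨rfl, ?_⟩
      have h4 : ((e : ℕ) : ℝ) * δ = 0 := by linarith
      have h4 : ((e : ℕ) : ℝ) = 0 := (mul_eq_zero.1 h4).resolve_right hδ.ne'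
      have h5 : (e : ℕ) = 0 := by exact_mod_cast h4
      exact Fin.ext (by simpa using h5)
    · rintro ⟨rfl, rfl⟩
      simp
  rw [this]
  simp

end Expansion

end Pool.Agent.Lib.MP_fcdc94_gt
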