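import Mathlib
import Pool.Agent.Lib.MP_fcdc94_gt.Torus
import Pool.Agent.Lib.MP_fcdc94_gt.Compare

set_option autoImplicit false

/-!
Failure of the leading order bound for the torus bundles with monodromy a power of a Dehn twist.
-/

open Complex Filter Topology

namespace Pool.Agent.Lib.MP_fcdc94_gt

/-- The leading part of the invariant of the torus bundle. -/
lemma torus_expansion [DecidableEq (ℂ × ℝ)] (n : ℕ) (hn : 0 < n) (f : ℤ) :
    ∃ (ι : Type) (_ : Fintype ι) (z : ι → ℂ) (α : ι → ℝ) (g : ι → ℂ) (C : ℝ),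
      (∀ i, ‖z i‖ = 1) ∧
      (∀ r : ℕ, 2 ≤ r → ‖torusBundle n f r -
        ∑ i, g i * z i ^ r * (((r : ℝ) ^ (α i) : ℝ) : ℂ)‖ ≤ C * (r : ℝ) ^ (-(1 / 2) : ℝ)) ∧
      (∀ i, α i ≤ 1 / 2) ∧
      ∑ i ∈ Finset.univ.filter (fun i => (z i, α i) = (1, 1 / 2)), g i ≠ 0 ∧
      ∑ i ∈ Finset.univ.filter (fun i => (z i, α i) = (1, 0)), g i ≠ 0 := by
  set K : ℂ := cexp (Real.pi * Complex.I * f / 4) * cexp (-(Real.pi * Complex.I * n / 4)) / 2
    with hK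
  have hK0 : K ≠ 0 := by
    rw [hK]
    exact div_ne_zero (mul_ne_zero (Complex.exp_ne_zero _) (Complex.exp_ne_zero _)) two_ne_zero
  set B : ℂ := (Real.sqrt (2 / n) : ℂ) * cexp (Real.pi * Complex.I / 4) with hBdef
  have hnR : (0 : ℝ) < n := by exact_mod_cast hn
  have hB0 : B ≠ 0 := by
    rw [hBdef]
    refine mul_ne_zero ?_ (Complex.exp_ne_zero _)
    have : 0 < Real.sqrt (2 / n) := Real.sqrt_pos.2 (by positivity)
    exact_mod_cast this.ne'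
  set wj : ℕ → ℂ := fun j => cexp (-(2 * Real.pi * Complex.I * j ^ 2 / n)) with hwj
  set u : ℂ := cexp (Real.pi * Complex.I * n / 2) with hu
  have hwn : ∀ j, ‖wj j‖ = 1 := by
    intro j
    have : (-(2 * Real.pi * Complex.I * j ^ 2 / n) : ℂ) =
        ((-(2 * Real.pi * (j : ℝ) ^ 2 / n) : ℝ) : ℂ) * Complex.I := by push_cast; ring
    simp only [hwj]
    rw [this, Complex.norm_exp_ofReal_mul_I]
  have hun : ‖u‖ = 1 := by
    have : (Real.pi * Complex.I * n / 2 : ℂ) = ((Real.pi * n / 2 : ℝ) : ℂ) * Complex.I := by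
      push_cast; ring
    rw [hu, this, Complex.norm_exp_ofReal_mul_I]
  let z : Fin n ⊕ Fin 2 → ℂ := Sum.elim (fun j => wj j) ![1, u]
  let α : Fin n ⊕ Fin 2 → ℝ := Sum.elim (fun _ => 1 / 2) (fun _ => 0)
  let g : Fin n ⊕ Fin 2 → ℂ := Sum.elim (fun _ => K * B) (fun _ => -K)
  have hz : ∀ i, ‖z i‖ = 1 := by
    rintro (j | j)
    · exact hwn j
    · fin_cases j
      · simp [z]
      · simpa [z] using hun
  have hF : ∀ r : ℕ, ∑ i, g i * z i ^ r * (((r : ℝ) ^ (α i) : ℝ) : ℂ) =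
      K * (B * (∑ j ∈ Finset.range n, wj j ^ r) * (((r : ℝ) ^ (1 / 2 : ℝ) : ℝ) : ℂ) - 1 - u ^ r) := by
    intro r
    rw [Fintype.sum_sum_type]
    simp only [g, z, α, Sum.elim_inl, Sum.elim_inr]
    rw [Fin.sum_univ_two]
    rw [Fin.sum_univ_eq_sum_range (fun j => K * B * wj j ^ r *
      (((r : ℝ) ^ (1 / 2 : ℝ) : ℝ) : ℂ)) n, ← Finset.sum_mul, ← Finset.mul_sum]
    simp
    ring
  set C : ℝ := (Real.pi * |(f : ℝ)| / 2) * (‖K‖ * (‖B‖ * n + 2)) with hC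
  have hZ : ∀ r : ℕ, 2 ≤ r → ‖torusBundle n f r -
      ∑ i, g i * z i ^ r * (((r : ℝ) ^ (α i) : ℝ) : ℂ)‖ ≤ C * (r : ℝ) ^ (-(1 / 2) : ℝ) := by
    intro r hr
    have hr0 : (0 : ℝ) < r := by exact_mod_cast (by omega : 0 < r)
    have hr1 : (1 : ℝ) ≤ r := by exact_mod_cast (by omega : 1 ≤ r)
    rw [torusBundle_eq n hn f r hr, hF]
    have e1 : ∀ A W : ℂ, A * W - W = (A - 1) * W := by intro A W; ring
    rw [e1, norm_mul]
    have e2 : (-(Real.pi * Complex.I * f / (2 * r)) : ℂ) =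
        ((-(Real.pi * f / (2 * r)) : ℝ) : ℂ) * Complex.I := by push_cast; ring
    have e3 : ‖cexp (-(Real.pi * Complex.I * f / (2 * r))) - 1‖ ≤
        (Real.pi * |(f : ℝ)| / 2) * (r : ℝ)⁻¹ := by
      rw [e2]
      refine (norm_exp_sub_one_le _).trans (le_of_eq ?_)
      rw [abs_neg, abs_div, abs_mul, abs_of_pos Real.pi_pos, abs_of_pos (by positivity : (0 : ℝ) <
        2 * r)]
      field_simp
    have e4 : ‖K * (B * (∑ j ∈ Finset.range n, wj j ^ r) *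
        (((r : ℝ) ^ (1 / 2 : ℝ) : ℝ) : ℂ) - 1 - u ^ r)‖ ≤
        ‖K‖ * (‖B‖ * n + 2) * (r : ℝ) ^ (1 / 2 : ℝ) := by
      suffices h8 : ‖B * (∑ j ∈ Finset.range n, wj j ^ r) *
          (((r : ℝ) ^ (1 / 2 : ℝ) : ℝ) : ℂ) - 1 - u ^ r‖ ≤ (‖B‖ * n + 2) * (r : ℝ) ^ (1 / 2 : ℝ) by
        rw [norm_mul]
        calc _ ≤ ‖K‖ * ((‖B‖ * n + 2) * (r : ℝ) ^ (1 / 2 : ℝ)) :=
              mul_le_mul_of_nonneg_left h8 (norm_nonneg K)
          _ = _ := by ring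
      have e5 : ‖∑ j ∈ Finset.range n, wj j ^ r‖ ≤ n := by
        have h5 : ∀ j ∈ Finset.range n, ‖wj j ^ r‖ = 1 := by
          intro j _; rw [norm_pow, hwn, one_pow]
        calc ‖∑ j ∈ Finset.range n, wj j ^ r‖ ≤ ∑ j ∈ Finset.range n, ‖wj j ^ r‖ :=
              norm_sum_le _ _
          _ = n := by rw [Finset.sum_congr rfl h5]; simp
      have e6 : (1 : ℝ) ≤ (r : ℝ) ^ (1 / 2 : ℝ) := Real.one_le_rpow hr1 (by norm_num)
      have e7 : ‖B * (∑ j ∈ Finset.range n, wj j ^ r) * (((r : ℝ) ^ (1 / 2 : ℝ) : ℝ) : ℂ)‖ ≤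
          ‖B‖ * n * (r : ℝ) ^ (1 / 2 : ℝ) := by
        rw [norm_mul, norm_mul, Complex.norm_real, Real.norm_of_nonneg (by positivity)]
        refine mul_le_mul_of_nonneg_right ?_ (by positivity)
        exact mul_le_mul_of_nonneg_left e5 (norm_nonneg _)
      calc _ ≤ ‖B * (∑ j ∈ Finset.range n, wj j ^ r) * (((r : ℝ) ^ (1 / 2 : ℝ) : ℝ) : ℂ) - 1‖ +
            ‖u ^ r‖ := norm_sub_le _ _
        _ ≤ (‖B * (∑ j ∈ Finset.range n, wj j ^ r) * (((r : ℝ) ^ (1 / 2 : ℝ) : ℝ) : ℂ)‖ +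
            ‖(1 : ℂ)‖) + ‖u ^ r‖ := by gcongr; exact norm_sub_le _ _
        _ ≤ (‖B‖ * n * (r : ℝ) ^ (1 / 2 : ℝ) + 1) + 1 := by
            rw [norm_pow, hun, one_pow, norm_one]; linarith
        _ ≤ _ := by nlinarith
    calc _ ≤ (Real.pi * |(f : ℝ)| / 2) * (r : ℝ)⁻¹ *
          (‖K‖ * (‖B‖ * n + 2) * (r : ℝ) ^ (1 / 2 : ℝ)) :=
          mul_le_mul e3 e4 (norm_nonneg _) (by positivity)
      _ = C * ((r : ℝ)⁻¹ * (r : ℝ) ^ (1 / 2 : ℝ)) := by rw [hC]; ring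
      _ = C * (r : ℝ) ^ (-(1 / 2) : ℝ) := by
          congr 1
          rw [← Real.rpow_neg_one, ← Real.rpow_add hr0]
          norm_num
  refine ⟨Fin n ⊕ Fin 2, inferInstance, z, α, g, C, hz, hZ, ?_, ?_, ?_⟩
  · rintro (i | i)
    · exact le_rfl
    · simp [α]
  · rw [Finset.sum_filter, Fintype.sum_sum_type]
    simp only [z, α, g, Sum.elim_inl, Sum.elim_inr, Prod.mk.injEq]
    have hz0 : ∀ i : Fin 2, (if (![1, u] i = 1 ∧ (0 : ℝ) = 1 / 2) then -K else 0) = 0 := by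
      intro i; rw [if_neg]; rintro ⟨_, h⟩; norm_num at h
    rw [Finset.sum_congr rfl (fun i _ => hz0 i), Finset.sum_const_zero, add_zero]
    simp only [and_true]
    rw [← Finset.sum_filter, Finset.sum_const, nsmul_eq_mul]
    refine mul_ne_zero ?_ (mul_ne_zero hK0 hB0)
    rw [Nat.cast_ne_zero, ← Nat.pos_iff_ne_zero, Finset.card_pos]
    exact ⟨⟨0, hn⟩, by simp [wj]⟩
  · rw [Finset.sum_filter, Fintype.sum_sum_type]
    simp only [z, α, g, Sum.elim_inl, Sum.elim_inr, Prod.mk.injEq]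
    have hz0 : ∀ i : Fin n, (if (wj i = 1 ∧ (1 / 2 : ℝ) = 0) then K * B else 0) = 0 := by
      intro i; rw [if_neg]; rintro ⟨_, h⟩; norm_num at h
    rw [Finset.sum_congr rfl (fun i _ => hz0 i), Finset.sum_const_zero, zero_add,
      Fin.sum_univ_two]
    by_cases hu1 : u = 1
    · simp [hu1]
      intro h
      exact hK0 h
    · simp [hu1, hK0]

/-- Failure at order `0` for positive `v j`. -/
theorem torus_fail_nat (n : ℕ) (hn : 0 < n) (f : ℤ) (X : Expansion) (hv : ∀ j, 0 < X.v j)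
    (δ : ℝ) (hδ : 1 / 2 < δ) : ¬ X.Bound δ (torusBundle n f) 0 := by
  classical
  intro hB
  obtain ⟨ι, hι, z, α, g, C, hz, hZ, hα, hl1, hl2⟩ := torus_expansion n hn f
  have hcmp : ∀ (γ : ℝ) (_ : -(1 / 2) < γ) (_ : X.top - δ < γ) (w : ℂ) (β : ℝ)
      (_ : γ ≤ β), ∑ i ∈ Finset.univ.filter (fun i => (z i, α i) = (w, β)), g i =
      ∑ p ∈ Finset.univ.filter (fun p : Fin (X.m + 1) × Fin (0 + 1) =>
        (X.z p.1, X.d p.1 - (p.2 : ℕ) * δ) = (w, β)), X.coeff p.1 p.2 := by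
    intro γ h1 h2 w β hβ
    exact X.compare hB z hz α g _ C hZ γ h1 (by simpa using h2) w β hβ
  by_cases htop : X.top ≤ 1 / 2
  · have h1 := hcmp 0 (by norm_num) (by linarith) (X.z 0) (1 / 2) (by norm_num)
    have h2 := hcmp 0 (by norm_num) (by linarith) (X.z 0) 0 le_rfl
    rw [X.rhs_eq, X.z_zero] at h1 h2
    rw [h1] at hl1
    rw [h2] at hl2
    obtain ⟨e₁, _, he₁⟩ := Finset.exists_ne_zero_of_sum_ne_zero hl1
    obtain ⟨e₂, _, he₂⟩ := Finset.exists_ne_zero_of_sum_ne_zero hl2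
    have f₁ : X.d 0 - (e₁ : ℕ) * δ = 1 / 2 := by
      by_contra h
      exact he₁ (if_neg h)
    have f₂ : X.d 0 - (e₂ : ℕ) * δ = 0 := by
      by_contra h
      exact he₂ (if_neg h)
    have g₁ : (e₁ : ℕ) = 0 := by omega
    have g₂ : (e₂ : ℕ) = 0 := by omega
    rw [g₁] at f₁
    rw [g₂] at f₂
    rw [f₂] at f₁
    norm_num at f₁
  · push Not at htop
    obtain ⟨j, hj⟩ := X.exists_top
    have h1 := hcmp X.top (by linarith) (by linarith) (X.z j) X.top le_rfl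
    have h2 := X.rhs_lead (by linarith : (0 : ℝ) < δ) 0 j
    rw [hj] at h2
    rw [h2] at h1
    have h3 : ∑ i ∈ Finset.univ.filter (fun i => (z i, α i) = (X.z j, X.top)), g i = 0 := by
      refine Finset.sum_eq_zero fun i hi => ?_
      exfalso
      simp only [Finset.mem_filter, Finset.mem_univ, true_and, Prod.mk.injEq] at hi
      have := hα i
      linarith [hi.2]
    rw [h3] at h1
    exact X.coeff_zero_ne (hv j) h1.symm

/-- Failure at some order, for `v j ≥ 0`. -/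
theorem torus_fail_nat' (n : ℕ) (hn : 0 < n) (f : ℤ) (X : Expansion)
    (δ : ℝ) (hδ : 1 / 2 < δ) : ¬ ∀ E, X.Bound δ (torusBundle n f) E := by
  classical
  intro hB
  obtain ⟨ι, hι, z, α, g, C, hz, hZ, hα, hl1, hl2⟩ := torus_expansion n hn f
  have hδ0 : 0 < δ := by linarith
  obtain ⟨E, hE⟩ : ∃ E : ℕ, X.top - (E + 1) * δ < 0 := by
    obtain ⟨E, hE⟩ := exists_nat_gt (X.top / δ)
    refine ⟨E, ?_⟩
    rw [div_lt_iff₀ hδ0] at hE
    nlinarith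
  have h1 := X.compare (hB E) z hz α g _ C hZ 0 (by norm_num) hE (X.z 0) (1 / 2) (by norm_num)
  have h2 := X.compare (hB E) z hz α g _ C hZ 0 (by norm_num) hE (X.z 0) 0 le_rfl
  rw [X.rhs_eq, X.z_zero] at h1 h2
  rw [h1] at hl1
  rw [h2] at hl2
  obtain ⟨e₁, _, he₁⟩ := Finset.exists_ne_zero_of_sum_ne_zero hl1
  obtain ⟨e₂, _, he₂⟩ := Finset.exists_ne_zero_of_sum_ne_zero hl2
  have f₁ : X.d 0 - (e₁ : ℕ) * δ = 1 / 2 := by
    by_contra h
    exact he₁ (if_neg h)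
  have f₂ : X.d 0 - (e₂ : ℕ) * δ = 0 := by
    by_contra h
    exact he₂ (if_neg h)
  have f₃ : (((e₂ : ℕ) : ℝ) - ((e₁ : ℕ) : ℝ)) * δ = 1 / 2 := by linarith
  have f₄ : ((e₁ : ℕ) : ℝ) < ((e₂ : ℕ) : ℝ) := by
    by_contra h
    push Not at h
    nlinarith
  have f₅ : (e₁ : ℕ) + 1 ≤ (e₂ : ℕ) := by
    have : (e₁ : ℕ) < (e₂ : ℕ) := by exact_mod_cast f₄
    omega
  have f₆ : ((e₁ : ℕ) : ℝ) + 1 ≤ ((e₂ : ℕ) : ℝ) := by exact_mod_cast f₅
  nlinarith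

end Pool.Agent.Lib.MP_fcdc94_gt
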