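import Mathlib
import Pool.Agent.Lib.MP_fcdc94_gt.TorusFail

set_option autoImplicit false

/-!
Complex conjugation (orientation reversal).
-/

open Complex Filter Topology

namespace Pool.Agent.Lib.MP_fcdc94_gt

/-- The conjugate data. -/
noncomputable def Expansion.conj (X : Expansion) : Expansion where
  m := X.m
  c := fun j => -X.c j
  c_zero := by simp [X.c_zero]
  c_distinct := by
    intro i j hij k h
    apply X.c_distinct i j hij (-k)
    push_cast
    linarith
  d := X.d
  I := fun j => -X.I j
  v := X.v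
  v_nonneg := X.v_nonneg
  a := fun j e => starRingEnd ℂ (X.a j e)

lemma conj_S (X : Expansion) (δ : ℝ) (E r : ℕ) :
    X.conj.S δ E r = starRingEnd ℂ (X.S δ E r) := by
  unfold Expansion.S
  rw [map_sum]
  refine Finset.sum_congr rfl fun j _ => ?_
  simp only [Expansion.conj, map_mul, map_add, map_one, map_sum, Complex.conj_ofReal]
  congr 3
  rw [← Complex.exp_conj]
  congr 1
  simp only [map_mul, map_add, map_div₀, Complex.conj_ofReal, Complex.conj_I, map_natCast,
    map_ofNat]
  push_cast
  ring

lemma conj_top (X : Expansion) : X.conj.top = X.top := rfl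

lemma conj_bound (X : Expansion) {δ : ℝ} {Z : ℕ → ℂ} {E : ℕ} (h : X.Bound δ Z E) :
    X.conj.Bound δ (fun r => starRingEnd ℂ (Z r)) E := by
  obtain ⟨C, hC⟩ := h
  refine ⟨C, fun r hr => ?_⟩
  rw [conj_S, conj_top, ← map_sub, RCLike.norm_conj]
  exact hC r hr

lemma conj_torusBundle (n f : ℤ) (r : ℕ) :
    starRingEnd ℂ (torusBundle n f r) = torusBundle (-n) (-f) r := by
  unfold torusBundle
  rw [map_mul, map_sum]
  congr 1
  · unfold framing
    rw [← Complex.exp_conj]
    congr 1
    simp only [map_mul, map_sub, map_div₀, Complex.conj_ofReal, Complex.conj_I, map_natCast,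
      map_ofNat, map_intCast]
    push_cast
    ring
  · refine Finset.sum_congr rfl fun a _ => ?_
    have h1 : starRingEnd ℂ (tMat r a) = (tMat r a)⁻¹ := by
      unfold tMat
      rw [← Complex.exp_conj, ← Complex.exp_neg]
      congr 1
      simp only [map_mul, map_sub, map_div₀, map_pow, Complex.conj_ofReal, Complex.conj_I,
        map_natCast, map_ofNat, map_one]
      ring
    rw [map_zpow₀, h1, inv_zpow, zpow_neg]

/-- Failure for all nonzero powers. -/
theorem torus_fail (n : ℤ) (hn : n ≠ 0) (f : ℤ) (X : Expansion) (δ : ℝ) (hδ : 1 / 2 < δ) :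
    (¬ ∀ E, X.Bound δ (torusBundle n f) E) ∧
      ((∀ j, 0 < X.v j) → ¬ X.Bound δ (torusBundle n f) 0) := by
  rcases lt_or_gt_of_ne hn with h | h
  · obtain ⟨k, hk⟩ : ∃ k : ℕ, -n = k := ⟨(-n).toNat, by omega⟩
    have h2 : (fun r => starRingEnd ℂ (torusBundle n f r)) = torusBundle (k : ℤ) (-f) := by
      funext r
      rw [conj_torusBundle, hk]
    constructor
    · intro hB
      have h1 : ∀ E, X.conj.Bound δ (torusBundle (k : ℤ) (-f)) E := by
        intro E
        rw [← h2]
        exact conj_bound X (hB E)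
      exact torus_fail_nat' k (by omega) (-f) _ δ hδ h1
    · intro hv hB
      have h1 := conj_bound X hB
      rw [h2] at h1
      exact torus_fail_nat k (by omega) (-f) X.conj hv δ hδ h1
  · obtain ⟨k, rfl⟩ : ∃ k : ℕ, n = k := ⟨n.toNat, by omega⟩
    exact ⟨torus_fail_nat' k (by omega) f X δ hδ,
      fun hv => torus_fail_nat k (by omega) f X hv δ hδ⟩

end Pool.Agent.Lib.MP_fcdc94_gt
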