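import Mathlib
import Pool.Agent.Lib.MP_fcdc94_gt.Conj

set_option autoImplicit false

/-!
Connected sums of torus bundles.
-/

open Complex Filter Topology

namespace Pool.Agent.Lib.MP_fcdc94_gt

/-- The invariant of a connected sum, from the invariants `Z₁`, `Z₂` of the summands:
`Z₁ Z₂ / Z(S ^ 3)`, where `Z(S ^ 3)` is the vacuum entry of the modular `S`-matrix. -/
noncomputable def connSum (Z₁ Z₂ : ℕ → ℂ) (r : ℕ) : ℂ := Z₁ r * Z₂ r / sMat r 1 1

/-- Evaluation for negative powers. -/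
lemma torusBundle_neg_eq (m : ℕ) (hm : 0 < m) (f : ℤ) (r : ℕ) (hr : 2 ≤ r) :
    torusBundle (-(m : ℤ)) f r = cexp (-(Real.pi * Complex.I * f / (2 * r))) *
      ((cexp (Real.pi * Complex.I * f / 4) * cexp (Real.pi * Complex.I * m / 4) / 2) *
        ((Real.sqrt (2 / m) : ℂ) * cexp (-(Real.pi * Complex.I / 4)) *
          (∑ j ∈ Finset.range m, cexp (2 * Real.pi * Complex.I * j ^ 2 / m) ^ r) *
          (((r : ℝ) ^ (1 / 2 : ℝ) : ℝ) : ℂ) - 1 - cexp (-(Real.pi * Complex.I * m / 2)) ^ r)) := by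
  have h1 := conj_torusBundle (m : ℤ) (-f) r
  rw [neg_neg] at h1
  rw [← h1, torusBundle_eq m hm (-f) r hr]
  have hx : ∀ x : ℂ, starRingEnd ℂ (cexp x) = cexp (starRingEnd ℂ x) := fun x =>
    (Complex.exp_conj x).symm
  simp only [map_mul, map_sub, map_one, map_div₀, map_sum, map_pow, hx, Complex.conj_ofReal,
    map_neg, Complex.conj_I, map_natCast, map_ofNat, map_intCast]
  have e1 : (-(Real.pi * -Complex.I * ((-f : ℤ) : ℂ) / (2 * r)) : ℂ) =
      -(Real.pi * Complex.I * f / (2 * r)) := by push_cast; ring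
  have e2 : (Real.pi * -Complex.I * ((-f : ℤ) : ℂ) / 4 : ℂ) = Real.pi * Complex.I * f / 4 := by
    push_cast; ring
  have e3 : (-(Real.pi * -Complex.I * m / 4) : ℂ) = Real.pi * Complex.I * m / 4 := by ring
  have e4 : (Real.pi * -Complex.I / 4 : ℂ) = -(Real.pi * Complex.I / 4) := by ring
  have e5 : (Real.pi * -Complex.I * m / 2 : ℂ) = -(Real.pi * Complex.I * m / 2) := by ring
  have e6 : ∀ j : ℕ, (-(2 * Real.pi * -Complex.I * (j : ℂ) ^ 2 / m) : ℂ) =
      2 * Real.pi * Complex.I * j ^ 2 / m := by intro j; ring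
  simp only [e1, e2, e3, e4, e5, e6]

lemma sMat_one_one (r : ℕ) (hr : 2 ≤ r) : ∃ ψ : ℝ, |ψ - 1| ≤
    (Real.pi * (Real.pi / 2) * Real.exp (Real.pi / 2)) * (r : ℝ)⁻¹ ∧
    (sMat r 1 1)⁻¹ = (ψ : ℂ) * ((1 / (Real.sqrt 2 * Real.pi) : ℝ) : ℂ) *
      (((r : ℝ) ^ (3 / 2 : ℝ) : ℝ) : ℂ) := by
  have hrR : (0 : ℝ) < r := by exact_mod_cast (by omega : 0 < r)
  have hr2 : (2 : ℝ) ≤ r := by exact_mod_cast hr
  set x : ℝ := Real.pi / r with hx
  have hx0 : 0 < x := by positivity
  have hx1 : x ≤ Real.pi / 2 := by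
    rw [hx]
    exact div_le_div_of_nonneg_left Real.pi_pos.le (by norm_num) hr2
  have hsin : 2 / Real.pi * x ≤ Real.sin x := Real.mul_le_sin hx0.le hx1
  have hsin0 : 0 < Real.sin x := lt_of_lt_of_le (by positivity) hsin
  refine ⟨x / Real.sin x, ?_, ?_⟩
  · have h1 : |x - Real.sin x| ≤ x ^ 2 * Real.exp (Real.pi / 2) := by
      have h2 := Complex.norm_exp_sub_sum_le_norm_mul_exp (x * Complex.I) 2
      have h3 : ‖(x * Complex.I : ℂ)‖ = x := by
        rw [norm_mul, Complex.norm_I, mul_one, Complex.norm_real, Real.norm_of_nonneg hx0.le]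
      rw [h3] at h2
      have h4 : |(cexp (x * Complex.I) - ∑ m ∈ Finset.range 2,
          (x * Complex.I) ^ m / (m.factorial : ℂ)).im| ≤ x ^ 2 * Real.exp x :=
        (Complex.abs_im_le_norm _).trans h2
      have h5 : (cexp (x * Complex.I) - ∑ m ∈ Finset.range 2,
          (x * Complex.I) ^ m / (m.factorial : ℂ)).im = Real.sin x - x := by
        rw [Complex.sub_im, Complex.exp_ofReal_mul_I_im]
        simp [Finset.sum_range_succ]
      rw [h5, abs_sub_comm] at h4
      refine h4.trans ?_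
      gcongr
    have h6 : x / Real.sin x - 1 = (x - Real.sin x) / Real.sin x := by
      field_simp
    rw [h6, abs_div, abs_of_pos hsin0, div_le_iff₀ hsin0]
    refine h1.trans ?_
    calc x ^ 2 * Real.exp (Real.pi / 2) = (Real.pi * (Real.pi / 2) * Real.exp (Real.pi / 2)) *
          (r : ℝ)⁻¹ * (2 / Real.pi * x) := by
          rw [hx]; field_simp
      _ ≤ _ := by gcongr
  · unfold sMat
    have h1 : Real.pi * ((1 : ℕ) : ℝ) * ((1 : ℕ) : ℝ) / r = x := by rw [hx]; simp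
    rw [h1, ← Complex.ofReal_inv, ← Complex.ofReal_mul, ← Complex.ofReal_mul]
    congr 1
    have e1 : (r : ℝ) ^ (3 / 2 : ℝ) = r * Real.sqrt r := by
      rw [Real.sqrt_eq_rpow, ← Real.rpow_one_add' hrR.le (by norm_num)]
      norm_num
    have e3 : Real.sqrt (2 / r) = Real.sqrt 2 / Real.sqrt r := Real.sqrt_div (by norm_num) _
    have e6 : 0 < Real.sqrt r := Real.sqrt_pos.2 hrR
    have e8 : 0 < Real.sqrt (2 : ℝ) := Real.sqrt_pos.2 (by norm_num)
    rw [e1, e3]
    have e9 : x * r = Real.pi := by rw [hx]; field_simp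
    field_simp
    linear_combination -e9

end Pool.Agent.Lib.MP_fcdc94_gt
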