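import Mathlib
import Pool.Agent.Lib.MP_fcdc94_gt.ConnEval

set_option autoImplicit false

/-!
Connected sums of torus bundles: irrational phases.
-/

open Complex Filter Topology

namespace Pool.Agent.Lib.MP_fcdc94_gt

/-- The leading part of the invariant of a connected sum of two torus bundles. -/
lemma conn_expansion [DecidableEq (ℂ × ℝ)] (n m : ℕ) (hn : Squarefree n) (hm : Squarefree m)
    (hodd : Odd n) (h4 : 4 ∣ n + m) (f₁ f₂ : ℤ) :
    ∃ (ι : Type) (_ : Fintype ι) (z : ι → ℂ) (α : ι → ℝ) (g : ι → ℂ) (C : ℝ),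
      (∀ i, ‖z i‖ = 1) ∧
      (∀ r : ℕ, 2 ≤ r → ‖connSum (torusBundle n f₁) (torusBundle (-(m : ℤ)) f₂) r -
        ∑ i, g i * z i ^ r * (((r : ℝ) ^ (α i) : ℝ) : ℂ)‖ ≤ C * (r : ℝ) ^ (3 / 2 : ℝ)) ∧
      (∀ β : ℝ, 2 < β → ∑ i ∈ Finset.univ.filter
        (fun i => (z i, α i) = (cexp (Real.pi * Complex.I * n / 2), β)), g i = 0) ∧
      ∑ i ∈ Finset.univ.filter
        (fun i => (z i, α i) = (cexp (Real.pi * Complex.I * n / 2), 2)), g i =
        -(cexp (Real.pi * Complex.I * f₁ / 4) * cexp (-(Real.pi * Complex.I * n / 4)) / 2 *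
          (cexp (Real.pi * Complex.I * f₂ / 4) * cexp (Real.pi * Complex.I * m / 4) / 2) *
          ((1 / (Real.sqrt 2 * Real.pi) : ℝ) : ℂ)) *
          ((Real.sqrt (2 / n) : ℂ) * cexp (Real.pi * Complex.I / 4) +
            (Real.sqrt (2 / m) : ℂ) * cexp (-(Real.pi * Complex.I / 4))) := by
  have hn0 : 0 < n := Nat.pos_of_ne_zero hn.ne_zero
  have hm0 : 0 < m := Nat.pos_of_ne_zero hm.ne_zero
  have hn' : (n : ℂ) ≠ 0 := by exact_mod_cast hn0.ne'
  have hm' : (m : ℂ) ≠ 0 := by exact_mod_cast hm0.ne'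
  have hmodd : Odd m := by
    rw [Nat.odd_iff] at hodd ⊢
    omega
  set B₁ : ℂ := (Real.sqrt (2 / n) : ℂ) * cexp (Real.pi * Complex.I / 4) with hB₁
  set B₂ : ℂ := (Real.sqrt (2 / m) : ℂ) * cexp (-(Real.pi * Complex.I / 4)) with hB₂
  set c : ℂ := cexp (Real.pi * Complex.I * f₁ / 4) * cexp (-(Real.pi * Complex.I * n / 4)) / 2 *
          (cexp (Real.pi * Complex.I * f₂ / 4) * cexp (Real.pi * Complex.I * m / 4) / 2) *
          ((1 / (Real.sqrt 2 * Real.pi) : ℝ) : ℂ) with hc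
  set w : ℕ → ℂ := fun j => cexp (-(2 * Real.pi * Complex.I * j ^ 2 / n)) with hw
  set w' : ℕ → ℂ := fun j => cexp (2 * Real.pi * Complex.I * j ^ 2 / m) with hw'
  set u : ℂ := cexp (Real.pi * Complex.I * n / 2) with hu
  have hu' : cexp (-(Real.pi * Complex.I * m / 2)) = u := by
    obtain ⟨k, hk⟩ := h4
    have e1 : (n : ℂ) + m = 4 * k := by exact_mod_cast hk
    have e2 : (-(Real.pi * Complex.I * m / 2) : ℂ) = Real.pi * Complex.I * n / 2 +
        ((-k : ℤ) : ℂ) * (2 * Real.pi * Complex.I) := by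
      push_cast
      linear_combination (-(Real.pi * Complex.I / 2) : ℂ) * e1
    rw [e2, Complex.exp_add, Complex.exp_int_mul_two_pi_mul_I, mul_one]
  have hwn : ∀ j, ‖w j‖ = 1 := by
    intro j
    have : (-(2 * Real.pi * Complex.I * j ^ 2 / n) : ℂ) =
        ((-(2 * Real.pi * (j : ℝ) ^ 2 / n) : ℝ) : ℂ) * Complex.I := by push_cast; ring
    simp only [hw]
    rw [this, Complex.norm_exp_ofReal_mul_I]
  have hwn' : ∀ j, ‖w' j‖ = 1 := by
    intro j
    have : (2 * Real.pi * Complex.I * j ^ 2 / m : ℂ) =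
        ((2 * Real.pi * (j : ℝ) ^ 2 / m : ℝ) : ℂ) * Complex.I := by push_cast; ring
    simp only [hw']
    rw [this, Complex.norm_exp_ofReal_mul_I]
  have hun : ‖u‖ = 1 := by
    have : (Real.pi * Complex.I * n / 2 : ℂ) = ((Real.pi * n / 2 : ℝ) : ℂ) * Complex.I := by
      push_cast; ring
    rw [hu, this, Complex.norm_exp_ofReal_mul_I]
  have hwpow : ∀ j, w j ^ n = 1 := by
    intro j
    simp only [hw]
    rw [← Complex.exp_nat_mul]
    have : (n : ℂ) * -(2 * Real.pi * Complex.I * j ^ 2 / n) =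
        ((-(j ^ 2 : ℕ) : ℤ) : ℂ) * (2 * Real.pi * Complex.I) := by
      push_cast; field_simp
    rw [this, Complex.exp_int_mul_two_pi_mul_I]
  have hwpow' : ∀ j, w' j ^ m = 1 := by
    intro j
    simp only [hw']
    rw [← Complex.exp_nat_mul]
    have : (m : ℂ) * (2 * Real.pi * Complex.I * j ^ 2 / m) =
        (((j ^ 2 : ℕ) : ℤ) : ℂ) * (2 * Real.pi * Complex.I) := by
      push_cast; field_simp
    rw [this, Complex.exp_int_mul_two_pi_mul_I]
  have hupow : u ^ (n * m) ≠ 1 := by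
    rw [hu, ← Complex.exp_nat_mul, Ne, Complex.exp_eq_one_iff]
    rintro ⟨k, hk⟩
    have h2 : (2 * Real.pi * Complex.I : ℂ) ≠ 0 := Complex.two_pi_I_ne_zero
    have h3 : ((n * m : ℕ) : ℂ) * n = 4 * k := by
      apply mul_left_cancel₀ h2
      linear_combination (4 : ℂ) * hk
    have h5 : ((n * m : ℕ) : ℤ) * n = 4 * k := by exact_mod_cast h3
    have h6 : Odd (n * m * n) := (hodd.mul hmodd).mul hodd
    have h7 : (4 : ℤ) ∣ ((n * m * n : ℕ) : ℤ) := ⟨k, by push_cast at h5 ⊢; exact h5⟩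
    have h8 : 4 ∣ n * m * n := by exact_mod_cast h7
    rw [Nat.odd_iff] at h6
    omega
  have hne : ∀ j k, w j * w' k ≠ u := by
    intro j k h
    apply hupow
    rw [← h, mul_pow, pow_mul, hwpow, one_pow, mul_comm n m, pow_mul, hwpow', one_pow, one_mul]
  have hw0' : w' 0 = 1 := by simp [hw']
  have hw0 : w 0 = 1 := by simp [hw]
  have hne1 : ∀ j, w j ≠ u := by
    intro j h
    have := hne j 0
    rw [hw0', mul_one] at this
    exact this h
  have hne2 : ∀ j, w' j ≠ u := by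
    intro j h
    have := hne 0 j
    rw [hw0, one_mul] at this
    exact this h
  have hu0 : u ≠ 0 := Complex.exp_ne_zero _
  have hw1 : ∀ j < n, w j = 1 → j = 0 := by
    intro j hj h
    simp only [hw] at h
    rw [Complex.exp_eq_one_iff] at h
    obtain ⟨k, hk⟩ := h
    have h2 : (2 * Real.pi * Complex.I : ℂ) ≠ 0 := Complex.two_pi_I_ne_zero
    have h3 : ((j : ℂ) ^ 2) = n * (-k) := by
      apply mul_left_cancel₀ h2
      field_simp at hk
      linear_combination (-(2 * Real.pi * Complex.I) : ℂ) * hk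
    have h5 : ((j : ℤ) ^ 2) = n * (-k) := by exact_mod_cast h3
    have h6 : n ∣ j ^ 2 := by
      have : (n : ℤ) ∣ ((j ^ 2 : ℕ) : ℤ) := ⟨-k, by push_cast; exact h5⟩
      exact_mod_cast this
    exact Nat.eq_zero_of_dvd_of_lt ((hn.dvd_pow_iff_dvd (by norm_num)).1 h6) hj
  have hw1' : ∀ j < m, w' j = 1 → j = 0 := by
    intro j hj h
    simp only [hw'] at h
    rw [Complex.exp_eq_one_iff] at h
    obtain ⟨k, hk⟩ := h
    have h2 : (2 * Real.pi * Complex.I : ℂ) ≠ 0 := Complex.two_pi_I_ne_zero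
    have h3 : ((j : ℂ) ^ 2) = m * k := by
      apply mul_left_cancel₀ h2
      field_simp at hk
      linear_combination (2 * Real.pi * Complex.I : ℂ) * hk
    have h5 : ((j : ℤ) ^ 2) = m * k := by exact_mod_cast h3
    have h6 : m ∣ j ^ 2 := by
      have : (m : ℤ) ∣ ((j ^ 2 : ℕ) : ℤ) := ⟨k, by push_cast; exact h5⟩
      exact_mod_cast this
    exact Nat.eq_zero_of_dvd_of_lt ((hm.dvd_pow_iff_dvd (by norm_num)).1 h6) hj
  let z : (Fin n × Fin m) ⊕ ((Fin n × Fin 2) ⊕ (Fin m × Fin 2)) → ℂ :=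
    Sum.elim (fun i => w i.1 * w' i.2) (Sum.elim (fun i => w i.1 * u ^ (i.2 : ℕ))
      (fun i => w' i.1 * u ^ (i.2 : ℕ)))
  let α : (Fin n × Fin m) ⊕ ((Fin n × Fin 2) ⊕ (Fin m × Fin 2)) → ℝ :=
    Sum.elim (fun _ => 5 / 2) (Sum.elim (fun _ => 2) (fun _ => 2))
  let g : (Fin n × Fin m) ⊕ ((Fin n × Fin 2) ⊕ (Fin m × Fin 2)) → ℂ :=
    Sum.elim (fun _ => c * B₁ * B₂) (Sum.elim (fun _ => -c * B₁) (fun _ => -c * B₂))
  have hz : ∀ i, ‖z i‖ = 1 := by
    rintro (i | i | i)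
    · simp [z, hwn, hwn']
    · simp [z, hwn, hun]
    · simp [z, hwn', hun]
  have hF : ∀ r : ℕ, 2 ≤ r → ∑ i, g i * z i ^ r * (((r : ℝ) ^ (α i) : ℝ) : ℂ) =
      c * (((r : ℝ) ^ (3 / 2 : ℝ) : ℝ) : ℂ) *
      ((B₁ * (∑ j ∈ Finset.range n, w j ^ r) * (((r : ℝ) ^ (1 / 2 : ℝ) : ℝ) : ℂ) - 1 - u ^ r) *
       (B₂ * (∑ j ∈ Finset.range m, w' j ^ r) * (((r : ℝ) ^ (1 / 2 : ℝ) : ℝ) : ℂ) - 1 - u ^ r) -
       (1 + u ^ r) ^ 2) := by
    intro r hr
    have hrR : (0 : ℝ) < r := by exact_mod_cast (by omega : 0 < r)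
    have p1 : (((r : ℝ) ^ (5 / 2 : ℝ) : ℝ) : ℂ) = (((r : ℝ) ^ (3 / 2 : ℝ) : ℝ) : ℂ) *
        ((((r : ℝ) ^ (1 / 2 : ℝ) : ℝ) : ℂ) * (((r : ℝ) ^ (1 / 2 : ℝ) : ℝ) : ℂ)) := by
      rw [← Complex.ofReal_mul, ← Complex.ofReal_mul, ← Real.rpow_add hrR, ← Real.rpow_add hrR]
      norm_num
    have p2 : (((r : ℝ) ^ (2 : ℝ) : ℝ) : ℂ) = (((r : ℝ) ^ (3 / 2 : ℝ) : ℝ) : ℂ) *
        (((r : ℝ) ^ (1 / 2 : ℝ) : ℝ) : ℂ) := by
      rw [← Complex.ofReal_mul, ← Real.rpow_add hrR]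
      norm_num
    rw [Fintype.sum_sum_type, Fintype.sum_sum_type, Fintype.sum_prod_type,
      Fintype.sum_prod_type, Fintype.sum_prod_type]
    simp only [g, z, α, Sum.elim_inl, Sum.elim_inr, Fin.sum_univ_two, p1, p2, Fin.val_zero,
      Fin.val_one, pow_zero, pow_one, mul_one]
    have q1 : ∑ x : Fin n, w x ^ r = ∑ j ∈ Finset.range n, w j ^ r :=
      Fin.sum_univ_eq_sum_range (fun j => w j ^ r) n
    have q2 : ∑ x : Fin m, w' x ^ r = ∑ j ∈ Finset.range m, w' j ^ r :=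
      Fin.sum_univ_eq_sum_range (fun j => w' j ^ r) m
    have q3 : ∀ P : ℂ, ∑ x : Fin n, ∑ y : Fin m, c * B₁ * B₂ * (w x * w' y) ^ r * P =
        c * B₁ * B₂ * P * ((∑ j ∈ Finset.range n, w j ^ r) *
          (∑ j ∈ Finset.range m, w' j ^ r)) := by
      intro P
      rw [← q1, ← q2, Finset.sum_mul_sum, Finset.mul_sum]
      refine Finset.sum_congr rfl fun x _ => ?_
      rw [Finset.mul_sum]
      refine Finset.sum_congr rfl fun y _ => ?_
      ring
    have q4 : ∀ P : ℂ, ∑ x : Fin n, (-c * B₁ * w x ^ r * P + -c * B₁ * (w x * u) ^ r * P) =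
        -c * B₁ * P * (1 + u ^ r) * ∑ j ∈ Finset.range n, w j ^ r := by
      intro P
      rw [← q1, Finset.mul_sum]
      refine Finset.sum_congr rfl fun x _ => ?_
      ring
    have q5 : ∀ P : ℂ, ∑ x : Fin m, (-c * B₂ * w' x ^ r * P + -c * B₂ * (w' x * u) ^ r * P) =
        -c * B₂ * P * (1 + u ^ r) * ∑ j ∈ Finset.range m, w' j ^ r := by
      intro P
      rw [← q2, Finset.mul_sum]
      refine Finset.sum_congr rfl fun x _ => ?_
      ring
    rw [q3, q4, q5]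
    ring
  set Cθ : ℝ := Real.pi * (Real.pi / 2) * Real.exp (Real.pi / 2) +
    Real.pi * |((f₁ + f₂ : ℤ) : ℝ)| / 2 with hCθ
  set C : ℝ := Cθ * ‖c‖ * ((‖B₁‖ * n + 2) * (‖B₂‖ * m + 2)) + ‖c‖ * 4 with hC
  refine ⟨(Fin n × Fin m) ⊕ ((Fin n × Fin 2) ⊕ (Fin m × Fin 2)), inferInstance, z, α, g, C, hz,
    ?_, ?_, ?_⟩
  · intro r hr
    have hrR : (0 : ℝ) < r := by exact_mod_cast (by omega : 0 < r)
    have hr1 : (1 : ℝ) ≤ r := by exact_mod_cast (by omega : 1 ≤ r)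
    rw [hF r hr]
    obtain ⟨ψ, hψ1, hψ2⟩ := sMat_one_one r hr
    unfold connSum
    rw [torusBundle_eq n hn0 f₁ r hr, torusBundle_neg_eq m hm0 f₂ r hr, div_eq_mul_inv, hψ2, hu']
    set H : ℂ := (((r : ℝ) ^ (3 / 2 : ℝ) : ℝ) : ℂ) with hH
    set Q₁ : ℂ := B₁ * (∑ j ∈ Finset.range n, w j ^ r) * (((r : ℝ) ^ (1 / 2 : ℝ) : ℝ) : ℂ) -
      1 - u ^ r with hQ₁
    set Q₂ : ℂ := B₂ * (∑ j ∈ Finset.range m, w' j ^ r) * (((r : ℝ) ^ (1 / 2 : ℝ) : ℝ) : ℂ) -
      1 - u ^ r with hQ₂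
    set φ : ℂ := cexp (-(Real.pi * Complex.I * f₁ / (2 * r))) *
      cexp (-(Real.pi * Complex.I * f₂ / (2 * r))) with hφ
    have e1 : ∀ a b d e φ₁ φ₂ κ : ℂ, φ₁ * (a * Q₁) * (φ₂ * (b * Q₂)) * (ψ * κ * H) -
        a * b * κ * H * (Q₁ * Q₂ - (1 + u ^ r) ^ 2) =
        (φ₁ * φ₂ * ψ - 1) * (a * b * κ) * H * (Q₁ * Q₂) + a * b * κ * H * (1 + u ^ r) ^ 2 := by
      intro a b d e φ₁ φ₂ κ; ring
    have e2 := e1 (cexp (Real.pi * Complex.I * f₁ / 4) * cexp (-(Real.pi * Complex.I * n / 4)) / 2)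
      (cexp (Real.pi * Complex.I * f₂ / 4) * cexp (Real.pi * Complex.I * m / 4) / 2) 0 0
      (cexp (-(Real.pi * Complex.I * f₁ / (2 * r)))) (cexp (-(Real.pi * Complex.I * f₂ / (2 * r))))
      ((1 / (Real.sqrt 2 * Real.pi) : ℝ) : ℂ)
    rw [← hc, ← hφ] at e2
    have hHn : ‖H‖ = (r : ℝ) ^ (3 / 2 : ℝ) := by
      rw [hH, Complex.norm_real, Real.norm_of_nonneg (by positivity)]
    have hφn : ‖φ‖ = 1 := by
      have : φ = cexp (((-(Real.pi * (f₁ + f₂) / (2 * r)) : ℝ) : ℂ) * Complex.I) := by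
        rw [hφ, ← Complex.exp_add]
        congr 1
        push_cast
        ring
      rw [this, Complex.norm_exp_ofReal_mul_I]
    have hφ1 : ‖φ - 1‖ ≤ Real.pi * |((f₁ + f₂ : ℤ) : ℝ)| / 2 * (r : ℝ)⁻¹ := by
      have : φ = cexp (((-(Real.pi * ((f₁ + f₂ : ℤ) : ℝ) / (2 * r)) : ℝ) : ℂ) * Complex.I) := by
        rw [hφ, ← Complex.exp_add]
        congr 1
        push_cast
        ring
      rw [this]
      refine (norm_exp_sub_one_le _).trans (le_of_eq ?_)
      rw [abs_neg, abs_div, abs_mul, abs_of_pos Real.pi_pos,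
        abs_of_pos (by positivity : (0 : ℝ) < 2 * r)]
      field_simp
    have hθ : ‖φ * ψ - 1‖ ≤ Cθ * (r : ℝ)⁻¹ := by
      have e3 : φ * ψ - 1 = φ * (ψ - 1) + (φ - 1) := by ring
      rw [e3]
      calc ‖φ * (ψ - 1) + (φ - 1)‖ ≤ ‖φ * (ψ - 1)‖ + ‖φ - 1‖ := norm_add_le _ _
        _ = |ψ - 1| + ‖φ - 1‖ := by
            rw [norm_mul, hφn, one_mul, ← Complex.ofReal_one, ← Complex.ofReal_sub,
              Complex.norm_real, Real.norm_eq_abs]
        _ ≤ _ := by rw [hCθ]; linarith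
    have hsq : (1 : ℝ) ≤ (r : ℝ) ^ (1 / 2 : ℝ) := Real.one_le_rpow hr1 (by norm_num)
    have hun' : ‖1 + u ^ r‖ ≤ 2 := by
      calc ‖1 + u ^ r‖ ≤ ‖(1 : ℂ)‖ + ‖u ^ r‖ := norm_add_le _ _
        _ = 2 := by rw [norm_pow, hun, one_pow, norm_one]; norm_num
    have hQb : ∀ (b : ℂ) (N : ℕ) (v : ℕ → ℂ), (∀ j, ‖v j‖ = 1) →
        ‖b * (∑ j ∈ Finset.range N, v j ^ r) * (((r : ℝ) ^ (1 / 2 : ℝ) : ℝ) : ℂ) - 1 - u ^ r‖ ≤
        (‖b‖ * N + 2) * (r : ℝ) ^ (1 / 2 : ℝ) := by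
      intro b N v hv
      have e5 : ‖∑ j ∈ Finset.range N, v j ^ r‖ ≤ N := by
        have h5 : ∀ j ∈ Finset.range N, ‖v j ^ r‖ = 1 := by
          intro j _; rw [norm_pow, hv, one_pow]
        calc ‖∑ j ∈ Finset.range N, v j ^ r‖ ≤ ∑ j ∈ Finset.range N, ‖v j ^ r‖ :=
              norm_sum_le _ _
          _ = N := by rw [Finset.sum_congr rfl h5]; simp
      have e6 : b * (∑ j ∈ Finset.range N, v j ^ r) * (((r : ℝ) ^ (1 / 2 : ℝ) : ℝ) : ℂ) - 1 -
          u ^ r = b * (∑ j ∈ Finset.range N, v j ^ r) * (((r : ℝ) ^ (1 / 2 : ℝ) : ℝ) : ℂ) -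
          (1 + u ^ r) := by ring
      rw [e6]
      calc _ ≤ ‖b * (∑ j ∈ Finset.range N, v j ^ r) * (((r : ℝ) ^ (1 / 2 : ℝ) : ℝ) : ℂ)‖ +
            ‖1 + u ^ r‖ := norm_sub_le _ _
        _ ≤ ‖b‖ * N * (r : ℝ) ^ (1 / 2 : ℝ) + 2 * (r : ℝ) ^ (1 / 2 : ℝ) := by
            refine add_le_add ?_ ?_
            · rw [norm_mul, norm_mul, Complex.norm_real, Real.norm_of_nonneg (by positivity)]
              gcongr
            · linarith
        _ = _ := by ring
    have hQ₁b : ‖Q₁‖ ≤ (‖B₁‖ * n + 2) * (r : ℝ) ^ (1 / 2 : ℝ) := hQb B₁ n w hwn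
    have hQ₂b : ‖Q₂‖ ≤ (‖B₂‖ * m + 2) * (r : ℝ) ^ (1 / 2 : ℝ) := hQb B₂ m w' hwn'
    have hfin : ‖(φ * ψ - 1) * c * H * (Q₁ * Q₂) + c * H * (1 + u ^ r) ^ 2‖ ≤
        C * (r : ℝ) ^ (3 / 2 : ℝ) := by
      have hQQ : ‖Q₁ * Q₂‖ ≤ ((‖B₁‖ * n + 2) * (‖B₂‖ * m + 2)) * r := by
        rw [norm_mul]
        calc ‖Q₁‖ * ‖Q₂‖ ≤ ((‖B₁‖ * n + 2) * (r : ℝ) ^ (1 / 2 : ℝ)) *
              ((‖B₂‖ * m + 2) * (r : ℝ) ^ (1 / 2 : ℝ)) :=
              mul_le_mul hQ₁b hQ₂b (norm_nonneg _) (by positivity)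
          _ = ((‖B₁‖ * n + 2) * (‖B₂‖ * m + 2)) *
              ((r : ℝ) ^ (1 / 2 : ℝ) * (r : ℝ) ^ (1 / 2 : ℝ)) := by ring
          _ = _ := by
              rw [← Real.rpow_add hrR]
              norm_num
      calc _ ≤ ‖(φ * ψ - 1) * c * H * (Q₁ * Q₂)‖ + ‖c * H * (1 + u ^ r) ^ 2‖ := norm_add_le _ _
        _ = ‖φ * ψ - 1‖ * ‖c‖ * (r : ℝ) ^ (3 / 2 : ℝ) * ‖Q₁ * Q₂‖ +
            ‖c‖ * (r : ℝ) ^ (3 / 2 : ℝ) * ‖1 + u ^ r‖ ^ 2 := by
            rw [norm_mul (_ * _ * _) (Q₁ * Q₂), norm_mul (_ * _) H, norm_mul _ c, hHn,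
              norm_mul (c * H), norm_mul c H, hHn, norm_pow]
        _ ≤ (Cθ * (r : ℝ)⁻¹) * ‖c‖ * (r : ℝ) ^ (3 / 2 : ℝ) *
            (((‖B₁‖ * n + 2) * (‖B₂‖ * m + 2)) * r) +
            ‖c‖ * (r : ℝ) ^ (3 / 2 : ℝ) * 2 ^ 2 := by
            have hCθ0 : 0 ≤ Cθ := by rw [hCθ]; positivity
            gcongr
        _ = C * (r : ℝ) ^ (3 / 2 : ℝ) := by
            rw [hC]
            field_simp
            ring
    refine le_trans (le_of_eq ?_) hfin
    congr 1
  · intro β hβ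
    refine Finset.sum_eq_zero fun i hi => ?_
    exfalso
    simp only [Finset.mem_filter, Finset.mem_univ, true_and, Prod.mk.injEq] at hi
    rcases i with i | i | i
    · exact hne _ _ hi.1
    · have : (2 : ℝ) = β := hi.2
      linarith
    · have : (2 : ℝ) = β := hi.2
      linarith
  · rw [Finset.sum_filter, Fintype.sum_sum_type, Fintype.sum_sum_type]
    simp only [z, α, g, Sum.elim_inl, Sum.elim_inr, Prod.mk.injEq, and_true]
    have s1 : ∑ x : Fin n × Fin m, (if w x.1 * w' x.2 = u ∧ (5 / 2 : ℝ) = 2 then c * B₁ * B₂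
        else 0) = 0 := by
      refine Finset.sum_eq_zero fun x _ => ?_
      rw [if_neg]
      rintro ⟨h, _⟩
      exact hne _ _ h
    have s2 : ∑ x : Fin n × Fin 2, (if w x.1 * u ^ (x.2 : ℕ) = u then -c * B₁ else 0) =
        -c * B₁ := by
      rw [Finset.sum_eq_single ((⟨0, hn0⟩ : Fin n), (1 : Fin 2))]
      · simp [hw0]
      · rintro ⟨j, t⟩ _ hjt
        rw [if_neg]
        intro h
        fin_cases t
        · simp only [pow_zero, mul_one] at h
          exact hne1 _ h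
        · simp only [pow_one] at h
          have h1 : w j = 1 := by
            have := mul_right_cancel₀ hu0 (h.trans (one_mul u).symm)
            exact this
          apply hjt
          have h2 := hw1 j j.2 h1
          simp only [Fin.mk_one, Prod.mk.injEq, and_true]
          exact Fin.ext h2
      · intro h
        exact absurd (Finset.mem_univ _) h
    have s3 : ∑ x : Fin m × Fin 2, (if w' x.1 * u ^ (x.2 : ℕ) = u then -c * B₂ else 0) =
        -c * B₂ := by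
      rw [Finset.sum_eq_single ((⟨0, hm0⟩ : Fin m), (1 : Fin 2))]
      · simp [hw0']
      · rintro ⟨j, t⟩ _ hjt
        rw [if_neg]
        intro h
        fin_cases t
        · simp only [pow_zero, mul_one] at h
          exact hne2 _ h
        · simp only [pow_one] at h
          have h1 : w' j = 1 := by
            have := mul_right_cancel₀ hu0 (h.trans (one_mul u).symm)
            exact this
          apply hjt
          have h2 := hw1' j j.2 h1
          simp only [Fin.mk_one, Prod.mk.injEq, and_true]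
          exact Fin.ext h2
      · intro h
        exact absurd (Finset.mem_univ _) h
    rw [s1, s2, s3]
    ring

/-- The square of the sum of the two leading coefficients. -/
lemma sum_sq (n m : ℕ) (hn0 : 0 < n) (hm0 : 0 < m) :
    ((Real.sqrt (2 / n) : ℂ) * cexp (Real.pi * Complex.I / 4) +
      (Real.sqrt (2 / m) : ℂ) * cexp (-(Real.pi * Complex.I / 4))) ^ 2 =
      ((4 / Real.sqrt (n * m) : ℝ) : ℂ) + ((2 / n - 2 / m : ℝ) : ℂ) * Complex.I := by
  have hn : (0 : ℝ) < n := by exact_mod_cast hn0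
  have hm : (0 : ℝ) < m := by exact_mod_cast hm0
  have e1 : cexp (Real.pi * Complex.I / 4) ^ 2 = Complex.I := by
    rw [← Complex.exp_nat_mul]
    have e : ((2 : ℕ) : ℂ) * (Real.pi * Complex.I / 4) = Real.pi / 2 * Complex.I := by
      push_cast; ring
    rw [e, Complex.exp_pi_div_two_mul_I]
  have e2 : cexp (-(Real.pi * Complex.I / 4)) ^ 2 = -Complex.I := by
    rw [← Complex.exp_nat_mul]
    have e : ((2 : ℕ) : ℂ) * (-(Real.pi * Complex.I / 4)) = -(Real.pi / 2 * Complex.I) := by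
      push_cast; ring
    rw [e, Complex.exp_neg, Complex.exp_pi_div_two_mul_I, Complex.inv_I]
  have e3 : cexp (Real.pi * Complex.I / 4) * cexp (-(Real.pi * Complex.I / 4)) = 1 := by
    rw [← Complex.exp_add]; simp
  have e4 : (Real.sqrt (2 / n) : ℂ) ^ 2 = ((2 / n : ℝ) : ℂ) := by
    rw [← Complex.ofReal_pow, Real.sq_sqrt (by positivity)]
  have e5 : (Real.sqrt (2 / m) : ℂ) ^ 2 = ((2 / m : ℝ) : ℂ) := by
    rw [← Complex.ofReal_pow, Real.sq_sqrt (by positivity)]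
  have e6 : 2 * ((Real.sqrt (2 / n) : ℂ) * (Real.sqrt (2 / m) : ℂ)) =
      ((4 / Real.sqrt (n * m) : ℝ) : ℂ) := by
    rw [← Complex.ofReal_mul, ← Real.sqrt_mul (by positivity)]
    have : (2 / n * (2 / m) : ℝ) = 2 ^ 2 / (n * m) := by field_simp
    rw [this, Real.sqrt_div' _ (by positivity), Real.sqrt_sq (by norm_num)]
    push_cast
    ring
  have expand : ((Real.sqrt (2 / n) : ℂ) * cexp (Real.pi * Complex.I / 4) +
      (Real.sqrt (2 / m) : ℂ) * cexp (-(Real.pi * Complex.I / 4))) ^ 2 =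
      (Real.sqrt (2 / n) : ℂ) ^ 2 * cexp (Real.pi * Complex.I / 4) ^ 2 +
      (Real.sqrt (2 / m) : ℂ) ^ 2 * cexp (-(Real.pi * Complex.I / 4)) ^ 2 +
      2 * ((Real.sqrt (2 / n) : ℂ) * (Real.sqrt (2 / m) : ℂ)) *
        (cexp (Real.pi * Complex.I / 4) * cexp (-(Real.pi * Complex.I / 4))) := by ring
  rw [expand, e1, e2, e3, e4, e5, e6]
  push_cast
  ring

/-- The leading coefficient is not a positive multiple of a root of unity. -/
lemma irrational_phase (n m : ℕ) (hn0 : 0 < n) (hm0 : 0 < m) (hnm : n ≠ m) (h1 : m ≠ 3 * n)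
    (h2 : n ≠ 3 * m) (f₁ f₂ : ℤ) (v : ℝ) (q : ℚ) :
    (v : ℂ) * cexp (2 * Real.pi * Complex.I * (((q : ℝ) : ℂ) / 8)) ≠
      -(cexp (Real.pi * Complex.I * f₁ / 4) * cexp (-(Real.pi * Complex.I * n / 4)) / 2 *
          (cexp (Real.pi * Complex.I * f₂ / 4) * cexp (Real.pi * Complex.I * m / 4) / 2) *
          ((1 / (Real.sqrt 2 * Real.pi) : ℝ) : ℂ)) *
          ((Real.sqrt (2 / n) : ℂ) * cexp (Real.pi * Complex.I / 4) +
            (Real.sqrt (2 / m) : ℂ) * cexp (-(Real.pi * Complex.I / 4))) := by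
  intro h
  have hn : (0 : ℝ) < n := by exact_mod_cast hn0
  have hm : (0 : ℝ) < m := by exact_mod_cast hm0
  set t : ℚ := q / 2 - ((f₁ + f₂ + m - n : ℤ) : ℚ) / 2 with ht
  set θ : ℝ := (t : ℝ) * Real.pi with hθ
  set R : ℝ := 32 * Real.pi ^ 2 * v ^ 2 with hR
  have key : (R : ℂ) * cexp (θ * Complex.I) =
      ((4 / Real.sqrt (n * m) : ℝ) : ℂ) + ((2 / n - 2 / m : ℝ) : ℂ) * Complex.I := by
    rw [← sum_sq n m hn0 hm0]
    set W := ((Real.sqrt (2 / n) : ℂ) * cexp (Real.pi * Complex.I / 4) +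
      (Real.sqrt (2 / m) : ℂ) * cexp (-(Real.pi * Complex.I / 4)))
    have hsq := congrArg (fun x => x ^ 2) h
    have e1 : ((v : ℂ) * cexp (2 * Real.pi * Complex.I * (((q : ℝ) : ℂ) / 8))) ^ 2 =
        (v : ℂ) ^ 2 * cexp (Real.pi * Complex.I * ((q : ℝ) : ℂ) / 2) := by
      rw [mul_pow, ← Complex.exp_nat_mul]
      congr 2
      push_cast
      ring
    have e2 : (cexp (Real.pi * Complex.I * f₁ / 4) * cexp (-(Real.pi * Complex.I * n / 4)) / 2 *
          (cexp (Real.pi * Complex.I * f₂ / 4) * cexp (Real.pi * Complex.I * m / 4) / 2)) ^ 2 =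
        cexp (Real.pi * Complex.I * (f₁ + f₂ + m - n) / 2) / 16 := by
      have : cexp (Real.pi * Complex.I * (f₁ + f₂ + m - n) / 2) =
        cexp (Real.pi * Complex.I * f₁ / 4) ^ 2 * cexp (-(Real.pi * Complex.I * n / 4)) ^ 2 *
          cexp (Real.pi * Complex.I * f₂ / 4) ^ 2 * cexp (Real.pi * Complex.I * m / 4) ^ 2 := by
        simp only [← Complex.exp_nat_mul, ← Complex.exp_add]
        congr 1
        push_cast
        ring
      rw [this]
      ring
    have e3 : (((1 / (Real.sqrt 2 * Real.pi) : ℝ) : ℂ)) ^ 2 = ((1 / (2 * Real.pi ^ 2) : ℝ) : ℂ) := by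
      rw [← Complex.ofReal_pow]
      congr 1
      rw [div_pow, mul_pow, Real.sq_sqrt (by norm_num)]
      norm_num
    rw [e1, mul_pow, neg_sq, mul_pow, e2, e3] at hsq
    have e4 : cexp (θ * Complex.I) = cexp (Real.pi * Complex.I * ((q : ℝ) : ℂ) / 2) *
        (cexp (Real.pi * Complex.I * (f₁ + f₂ + m - n) / 2))⁻¹ := by
      rw [← Complex.exp_neg, ← Complex.exp_add]
      congr 1
      rw [hθ, ht]
      push_cast
      ring
    have e5 : cexp (Real.pi * Complex.I * (f₁ + f₂ + m - n) / 2) ≠ 0 := Complex.exp_ne_zero _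
    have e6 : (Real.pi : ℂ) ≠ 0 := by exact_mod_cast Real.pi_ne_zero
    rw [e4, hR]
    have e7 : ((32 * Real.pi ^ 2 * v ^ 2 : ℝ) : ℂ) *
        (cexp (Real.pi * Complex.I * ((q : ℝ) : ℂ) / 2) *
        (cexp (Real.pi * Complex.I * (f₁ + f₂ + m - n) / 2))⁻¹) =
        32 * (Real.pi : ℂ) ^ 2 * ((v : ℂ) ^ 2 *
          cexp (Real.pi * Complex.I * ((q : ℝ) : ℂ) / 2)) *
        (cexp (Real.pi * Complex.I * (f₁ + f₂ + m - n) / 2))⁻¹ := by
      push_cast
      ring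
    rw [e7, hsq]
    push_cast
    field_simp
    ring
  have hre := congrArg Complex.re key
  have him := congrArg Complex.im key
  have e1 : cexp (θ * Complex.I) = (Real.cos θ : ℂ) + (Real.sin θ : ℂ) * Complex.I := by
    rw [Complex.exp_mul_I, Complex.ofReal_cos, Complex.ofReal_sin]
  rw [e1] at hre him
  simp only [Complex.mul_re, Complex.mul_im, Complex.add_re, Complex.add_im, Complex.ofReal_re,
    Complex.ofReal_im, Complex.I_re, Complex.I_im, mul_zero, mul_one, zero_mul, sub_zero,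
    add_zero, zero_add] at hre him
  have hR0 : 0 ≤ R := by positivity
  have hRsq : R ^ 2 = (2 / n + 2 / m) ^ 2 := by
    have e2 : R ^ 2 = (R * Real.cos θ) ^ 2 + (R * Real.sin θ) ^ 2 := by
      have := Real.sin_sq_add_cos_sq θ
      linear_combination (-(R ^ 2)) * this
    have e3 : (4 / Real.sqrt (n * m)) ^ 2 = 16 / (n * m) := by
      rw [div_pow, Real.sq_sqrt (by positivity)]
      norm_num
    rw [e2, hre, him, e3]
    field_simp
    ring
  have hRv : R = 2 / n + 2 / m := by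
    have h3 : (0 : ℝ) ≤ 2 / n + 2 / m := by positivity
    exact (pow_left_inj₀ hR0 h3 (by norm_num)).1 hRsq
  have hsin : Real.sin θ = ((m : ℝ) - n) / (m + n) := by
    rw [hRv] at him
    field_simp at him
    field_simp
    linear_combination him
  have hniv := niven_sin (θ := θ) ⟨t, hθ⟩ ⟨((m : ℚ) - n) / (m + n), by
    rw [hsin]; push_cast; rfl⟩
  have hpos : (0 : ℝ) < m + n := by positivity
  rw [hsin] at hniv
  simp only [Set.mem_insert_iff, Set.mem_singleton_iff] at hniv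
  rcases hniv with h3 | h3 | h3 | h3 | h3
  · rw [div_eq_iff hpos.ne'] at h3
    linarith
  · rw [div_eq_iff hpos.ne'] at h3
    apply h2
    have : (n : ℝ) = 3 * m := by linarith
    exact_mod_cast this
  · rw [div_eq_iff hpos.ne'] at h3
    apply hnm
    have : (n : ℝ) = m := by linarith
    exact_mod_cast this
  · rw [div_eq_iff hpos.ne'] at h3
    apply h1
    have : (m : ℝ) = 3 * n := by linarith
    exact_mod_cast this
  · rw [div_eq_iff hpos.ne'] at h3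
    linarith

/-- Connected sums whose invariants admit no expansion with rational phases. -/
theorem conn_fail (n m : ℕ) (hn : Squarefree n) (hm : Squarefree m)
    (hodd : Odd n) (h4 : 4 ∣ n + m) (h1 : m ≠ 3 * n) (h2 : n ≠ 3 * m) (f₁ f₂ : ℤ) (δ : ℝ)
    (hδ : 0 < δ) (X : Expansion) (hI : ∀ j, ∃ q : ℚ, X.I j = q) :
    ¬ ∀ E, X.Bound δ (connSum (torusBundle n f₁) (torusBundle (-(m : ℤ)) f₂)) E := by
  classical
  intro hB
  have hn0 : 0 < n := Nat.pos_of_ne_zero hn.ne_zero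
  have hm0 : 0 < m := Nat.pos_of_ne_zero hm.ne_zero
  have hnm : n ≠ m := by
    rintro rfl
    rw [Nat.odd_iff] at hodd
    omega
  obtain ⟨ι, hι, z, α, g, C, hz, hZ, hgt, hV⟩ := conn_expansion n m hn hm hodd h4 f₁ f₂
  have hph := irrational_phase n m hn0 hm0 hnm h1 h2 f₁ f₂
  set u : ℂ := cexp (Real.pi * Complex.I * n / 2) with hu
  obtain ⟨E, hE⟩ : ∃ E : ℕ, X.top - (E + 1) * δ < 2 := by
    obtain ⟨E, hE⟩ := exists_nat_gt ((X.top - 2) / δ)
    refine ⟨E, ?_⟩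
    rw [div_lt_iff₀ hδ] at hE
    nlinarith
  have key := fun β hβ => X.compare (hB E) z hz α g _ C hZ 2 (by norm_num) hE u β hβ
  by_cases hj : ∃ j, X.z j = u
  · obtain ⟨j, hj⟩ := hj
    have h3 := key 2 le_rfl
    rw [hV, ← hj, X.rhs_eq] at h3
    obtain ⟨q, hq⟩ := hI j
    rcases (X.v_nonneg j).eq_or_lt with hv | hv
    · -- zero coefficient
      have h4 : ∑ e : Fin (E + 1), (if X.d j - (e : ℕ) * δ = 2 then X.coeff j e else 0) = 0 := by
        refine Finset.sum_eq_zero fun e _ => ?_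
        split_ifs
        · exact X.coeff_of_v_zero hv.symm e
        · rfl
      rw [h4] at h3
      apply hph 0 0
      rw [h3]
      simp
    · have hd1 : X.d j ≤ 2 := by
        by_contra hd
        push Not at hd
        have h5 := key (X.d j) hd.le
        have h6 := X.rhs_lead hδ E j
        rw [hgt (X.d j) hd, ← hj, h6] at h5
        exact X.coeff_zero_ne hv h5.symm
      have hd2 : 2 ≤ X.d j := by
        by_contra hd
        push Not at hd
        have h4 : ∑ e : Fin (E + 1), (if X.d j - (e : ℕ) * δ = 2 then X.coeff j e else 0) =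
            0 := by
          refine Finset.sum_eq_zero fun e _ => ?_
          rw [if_neg]
          intro h
          have : (0 : ℝ) ≤ ((e : ℕ) : ℝ) * δ := by positivity
          linarith
        rw [h4] at h3
        apply hph 0 0
        rw [h3]
        simp
      have hd : X.d j = 2 := le_antisymm hd1 hd2
      have h5 := key 2 le_rfl
      have h6 := X.rhs_lead hδ E j
      rw [hV, ← hj] at h5
      rw [hd] at h6
      rw [h6] at h5
      apply hph (X.v j) q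
      rw [h5]
      unfold Expansion.coeff
      rw [if_pos rfl, mul_one, hq]
  · push Not at hj
    have h3 := key 2 le_rfl
    rw [hV, X.rhs_of_not_phase E hj] at h3
    apply hph 0 0
    rw [h3]
    simp

end Pool.Agent.Lib.MP_fcdc94_gt
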