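import Mathlib
import Pool.Agent.Lib.MP_fcdc94_gt.Torus
import Pool.Agent.Lib.MP_fcdc94_gt.Hopf
import Pool.Agent.Lib.MP_fcdc94_gt.Compare

set_option autoImplicit false

/-!
The genus two `SU(2)` state space at level `r - 2`: admissible colourings of the theta graph,
and the Verlinde type formula for the number of admissible third colours.
-/

open Complex Filter Topology

namespace Pool.Agent.Lib.MP_fcdc94_gt

/-- Admissibility of a triple of colours `1, …, r - 1` (dimensions of representations) at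
level `r - 2`. -/
def Adm (r a b c : ℕ) : Prop :=
  Odd (a + b + c) ∧ a < b + c ∧ b < a + c ∧ c < a + b ∧ a + b + c < 2 * r

instance (r a b c : ℕ) : Decidable (Adm r a b c) := by unfold Adm; infer_instance

lemma card_adm (r a b : ℕ) (ha : 1 ≤ a) (ha' : a ≤ r - 1) (hb : 1 ≤ b) (hb' : b ≤ r - 1) :
    ((Finset.Icc 1 (r - 1)).filter (Adm r a b)).card = min (min a b) (min (r - a) (r - b)) := by
  have h := Finset.card_nbij' (s := (Finset.Icc 1 (r - 1)).filter (Adm r a b))
    (t := Finset.range (min (min a b) (min (r - a) (r - b))))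
    (fun c => (c - ((max a b - min a b) + 1)) / 2)
    (fun k => (max a b - min a b) + 1 + 2 * k)
    (by
      intro c hc
      simp only [Finset.coe_filter, Finset.mem_Icc, Set.mem_ofPred_eq, Adm, Nat.odd_iff] at hc
      simp only [Finset.coe_range, Set.mem_Iio]
      omega)
    (by
      intro k hk
      simp only [Finset.coe_range, Set.mem_Iio] at hk
      simp only [Finset.coe_filter, Finset.mem_Icc, Set.mem_ofPred_eq, Adm, Nat.odd_iff]
      omega)
    (by
      intro c hc
      simp only [Finset.coe_filter, Finset.mem_Icc, Set.mem_ofPred_eq, Adm, Nat.odd_iff] at hc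
      simp only
      omega)
    (by
      intro k hk
      simp only [Finset.coe_range, Set.mem_Iio] at hk
      simp only
      omega)
  rw [h, Finset.card_range]

/-- Orthogonality of characters of `ℤ / r`. -/
lemma sum_cos (r : ℕ) (hr : 0 < r) (x : ℤ) :
    ∑ j ∈ Finset.range r, Real.cos (2 * Real.pi * j * x / r) =
      if (r : ℤ) ∣ x then (r : ℝ) else 0 := by
  have hrR : (r : ℝ) ≠ 0 := by exact_mod_cast hr.ne'
  have hrC : (r : ℂ) ≠ 0 := by exact_mod_cast hr.ne'
  set z : ℂ := cexp (2 * Real.pi * Complex.I * x / r) with hz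
  have h1 : ∀ j : ℕ, z ^ j = cexp ((2 * Real.pi * j * x / r : ℝ) * Complex.I) := by
    intro j
    rw [hz, ← Complex.exp_nat_mul]
    congr 1
    push_cast
    ring
  have h2 : ∑ j ∈ Finset.range r, z ^ j = if (r : ℤ) ∣ x then (r : ℂ) else 0 := by
    split_ifs with h
    · obtain ⟨k, hk⟩ := h
      have : z = 1 := by
        rw [hz, hk]
        have e : (2 * Real.pi * Complex.I * (((r : ℤ) * k : ℤ) : ℂ) / r : ℂ) =
            (k : ℂ) * (2 * Real.pi * Complex.I) := by
          push_cast; field_simp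
        rw [e, Complex.exp_int_mul_two_pi_mul_I]
      simp [this]
    · have hz1 : z ≠ 1 := by
        intro h3
        rw [hz] at h3
        have e : (2 * Real.pi * Complex.I * x / r : ℂ) =
            2 * Real.pi * Complex.I * ((x / r : ℝ) : ℂ) := by push_cast; ring
        rw [e, exp_two_pi_eq_one_iff] at h3
        obtain ⟨k, hk⟩ := h3
        apply h
        refine ⟨k, ?_⟩
        rw [div_eq_iff hrR] at hk
        have : ((x : ℤ) : ℝ) = (((r : ℤ) * k : ℤ) : ℝ) := by push_cast; rw [hk]; ring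
        exact_mod_cast this
      rw [geom_sum_eq hz1]
      have : z ^ r = 1 := by
        rw [hz, ← Complex.exp_nat_mul]
        have e : (r : ℂ) * (2 * Real.pi * Complex.I * x / r) =
            (x : ℂ) * (2 * Real.pi * Complex.I) := by field_simp
        rw [e, Complex.exp_int_mul_two_pi_mul_I]
      rw [this, sub_self, zero_div]
  have h3 := congrArg Complex.re h2
  rw [Complex.re_sum] at h3
  have h4 : ∀ j : ℕ, (z ^ j).re = Real.cos (2 * Real.pi * j * x / r) := by
    intro j
    rw [h1, Complex.exp_ofReal_mul_I_re]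
  simp only [h4] at h3
  rw [h3]
  split_ifs <;> simp

/-- The Verlinde sum. -/
noncomputable def vsum (r a b : ℕ) : ℝ :=
  (2 / r) * ∑ j ∈ Finset.Icc 1 (r - 1), Real.sin (Real.pi * a * j / r) ^ 2 *
    Real.sin (Real.pi * b * j / r) ^ 2 / Real.sin (Real.pi * j / r) ^ 2

lemma sin_pos_of (r j : ℕ) (hj : 1 ≤ j) (hj' : j ≤ r - 1) : 0 < Real.sin (Real.pi * j / r) := by
  have hr : (0 : ℝ) < r := by exact_mod_cast (by omega : 0 < r)
  have hj0 : (0 : ℝ) < j := by exact_mod_cast (by omega : 0 < j)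
  have hjr : (j : ℝ) < r := by exact_mod_cast (by omega : j < r)
  apply Real.sin_pos_of_pos_of_lt_pi
  · positivity
  · rw [div_lt_iff₀ hr]
    exact mul_lt_mul_of_pos_left hjr Real.pi_pos

lemma sum_Icc_eq (r : ℕ) (hr : 1 ≤ r) (f : ℕ → ℝ) :
    ∑ j ∈ Finset.Icc 1 (r - 1), f j = ∑ j ∈ Finset.range r, f j - f 0 := by
  obtain ⟨q, rfl⟩ : ∃ q, r = q + 1 := ⟨r - 1, by omega⟩
  rw [Finset.sum_range_succ', Nat.add_sub_cancel]
  have : ∑ a ∈ Finset.Icc 1 q, f a = ∑ k ∈ Finset.range q, f (k + 1) := by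
    rw [Finset.range_eq_Ico, Finset.sum_Ico_add' f 0 q 1]
    rfl
  rw [this]
  ring

lemma vsum_step (r a b : ℕ) (hr : 2 ≤ r) :
    vsum r (a + 2) b - 2 * vsum r (a + 1) b + vsum r a b =
      2 * (if (r : ℤ) ∣ (a + 1 : ℕ) then 1 else 0) -
      (if (r : ℤ) ∣ ((a + 1 : ℕ) : ℤ) + b then 1 else 0) -
      (if (r : ℤ) ∣ ((a + 1 : ℕ) : ℤ) - b then 1 else 0) := by
  have hrR : (r : ℝ) ≠ 0 := by exact_mod_cast (by omega : r ≠ 0)
  unfold vsum
  have e1 : (2 / (r : ℝ)) * ∑ j ∈ Finset.Icc 1 (r - 1), Real.sin (Real.pi * (a + 2 : ℕ) * j / r) ^ 2 *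
      Real.sin (Real.pi * b * j / r) ^ 2 / Real.sin (Real.pi * j / r) ^ 2 -
      2 * ((2 / (r : ℝ)) * ∑ j ∈ Finset.Icc 1 (r - 1),
        Real.sin (Real.pi * (a + 1 : ℕ) * j / r) ^ 2 *
        Real.sin (Real.pi * b * j / r) ^ 2 / Real.sin (Real.pi * j / r) ^ 2) +
      (2 / (r : ℝ)) * ∑ j ∈ Finset.Icc 1 (r - 1), Real.sin (Real.pi * a * j / r) ^ 2 *
        Real.sin (Real.pi * b * j / r) ^ 2 / Real.sin (Real.pi * j / r) ^ 2 =
      (2 / (r : ℝ)) * ∑ j ∈ Finset.Icc 1 (r - 1),
        (Real.cos (2 * Real.pi * j * ((a + 1 : ℕ) : ℤ) / r) -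
          Real.cos (2 * Real.pi * j * (((a + 1 : ℕ) : ℤ) + (b : ℤ) : ℤ) / r) / 2 -
          Real.cos (2 * Real.pi * j * (((a + 1 : ℕ) : ℤ) - (b : ℤ) : ℤ) / r) / 2) := by
    rw [Finset.mul_sum, Finset.mul_sum, Finset.mul_sum, Finset.mul_sum, Finset.mul_sum,
      ← Finset.sum_sub_distrib, ← Finset.sum_add_distrib]
    refine Finset.sum_congr rfl fun j hj => ?_
    obtain ⟨hj1, hj2⟩ := Finset.mem_Icc.1 hj
    have hs := (sin_pos_of r j hj1 hj2).ne'
    set θ : ℝ := Real.pi * j / r with hθ
    have a0 : Real.pi * a * j / r = a * θ := by rw [hθ]; ring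
    have a1 : Real.pi * (a + 1 : ℕ) * j / r = a * θ + θ := by rw [hθ]; push_cast; ring
    have a2 : Real.pi * (a + 2 : ℕ) * j / r = a * θ + θ + θ := by rw [hθ]; push_cast; ring
    have a3 : Real.pi * b * j / r = b * θ := by rw [hθ]; ring
    have a4 : 2 * Real.pi * j * ((a + 1 : ℕ) : ℤ) / r = 2 * (a * θ + θ) := by
      rw [hθ]; push_cast; ring
    have a5 : 2 * Real.pi * j * (((a + 1 : ℕ) : ℤ) + (b : ℤ) : ℤ) / r =
        2 * (a * θ + θ) + 2 * (b * θ) := by
      rw [hθ]; push_cast; ring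
    have a6 : 2 * Real.pi * j * (((a + 1 : ℕ) : ℤ) - (b : ℤ) : ℤ) / r =
        2 * (a * θ + θ) - 2 * (b * θ) := by
      rw [hθ]; push_cast; ring
    rw [a0, a1, a2, a3, a4, a5, a6]
    generalize hx : (a : ℝ) * θ + θ = x
    have hx' : (a : ℝ) * θ = x - θ := by linarith
    rw [hx', Real.cos_add, Real.cos_sub, Real.sin_sub x θ, Real.sin_add x θ,
      Real.cos_two_mul x, Real.cos_two_mul (b * θ)]
    have h1 := Real.sin_sq_add_cos_sq x
    have h2 := Real.sin_sq_add_cos_sq θ
    have h3 := Real.sin_sq_add_cos_sq (b * θ)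
    field_simp
    have h1' : Real.cos x ^ 2 = 1 - Real.sin x ^ 2 := by linarith
    have h2' : Real.cos θ ^ 2 = 1 - Real.sin θ ^ 2 := by linarith
    have h3' : Real.cos (b * θ) ^ 2 = 1 - Real.sin (b * θ) ^ 2 := by linarith
    ring_nf
    rw [h1', h2', h3']
    ring
  rw [e1, sum_Icc_eq r (by omega), Finset.sum_sub_distrib, Finset.sum_sub_distrib,
    ← Finset.sum_div, ← Finset.sum_div, sum_cos r (by omega), sum_cos r (by omega),
    sum_cos r (by omega)]
  simp only [Nat.cast_zero, mul_zero, zero_mul, zero_div, Real.cos_zero]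
  split_ifs <;> field_simp <;> ring

lemma vsum_zero (r b : ℕ) : vsum r 0 b = 0 := by
  unfold vsum
  simp

lemma vsum_one (r b : ℕ) (hb : 1 ≤ b) (hb' : b ≤ r - 1) : vsum r 1 b = 1 := by
  have hrR : (r : ℝ) ≠ 0 := by exact_mod_cast (by omega : r ≠ 0)
  unfold vsum
  have e1 : ∑ j ∈ Finset.Icc 1 (r - 1), Real.sin (Real.pi * (1 : ℕ) * j / r) ^ 2 *
      Real.sin (Real.pi * b * j / r) ^ 2 / Real.sin (Real.pi * j / r) ^ 2 =
      ∑ j ∈ Finset.Icc 1 (r - 1), (1 / 2 - Real.cos (2 * Real.pi * j * (b : ℤ) / r) / 2) := by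
    refine Finset.sum_congr rfl fun j hj => ?_
    obtain ⟨hj1, hj2⟩ := Finset.mem_Icc.1 hj
    have hs := (sin_pos_of r j hj1 hj2).ne'
    have a1 : Real.pi * (1 : ℕ) * j / r = Real.pi * j / r := by push_cast; ring
    have a2 : 2 * Real.pi * j * (b : ℤ) / r = 2 * (Real.pi * b * j / r) := by push_cast; ring
    rw [a1, a2, Real.cos_two_mul]
    have h1 := Real.sin_sq_add_cos_sq (Real.pi * b * j / r)
    generalize Real.pi * b * j / r = x at *
    generalize Real.sin (Real.pi * j / r) = y at *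
    field_simp
    linear_combination (2 : ℝ) * h1
  rw [e1, sum_Icc_eq r (by omega), Finset.sum_sub_distrib, ← Finset.sum_div _ _ (2 : ℝ),
    ← Finset.sum_div _ _ (2 : ℝ), sum_cos r (by omega), if_neg]
  · simp
    omega
  · rintro ⟨k, hk⟩
    have h1 : 0 < k := by
      by_contra h
      push Not at h
      nlinarith
    have h2 : k < 1 := by
      by_contra h
      push Not at h
      have : (r : ℤ) ≤ r * k := by nlinarith
      omega
    omega

/-- The Verlinde formula for the number of admissible third colours. -/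
theorem vsum_eq (r b : ℕ) (hb : 1 ≤ b) (hb' : b ≤ r - 1) :
    ∀ a, a + 1 ≤ r → vsum r a b = ((min (min a b) (min (r - a) (r - b)) : ℕ) : ℝ) ∧
      vsum r (a + 1) b = ((min (min (a + 1) b) (min (r - (a + 1)) (r - b)) : ℕ) : ℝ) := by
  intro a
  induction a with
  | zero =>
    intro _
    refine ⟨?_, ?_⟩
    · rw [vsum_zero]; simp
    · rw [zero_add, vsum_one r b hb hb']
      have : min (min 1 b) (min (r - 1) (r - b)) = 1 := by omega
      rw [this]; simp
  | succ a ih =>
    intro ha
    obtain ⟨h1, h2⟩ := ih (by omega)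
    refine ⟨h2, ?_⟩
    have h3 := vsum_step r a b (by omega)
    rw [h1, h2] at h3
    have h4 : ¬ (r : ℤ) ∣ ((a + 1 : ℕ) : ℤ) := by
      intro h
      have := Int.le_of_dvd (by positivity) h
      omega
    have h5 : (r : ℤ) ∣ ((a + 1 : ℕ) : ℤ) + b ↔ a + 1 + b = r := by
      constructor
      · rintro ⟨k, hk⟩
        have hk0 : 0 < k := by
          by_contra h
          push Not at h
          have : (r : ℤ) * k ≤ 0 := by nlinarith
          omega
        have hk1 : k < 2 := by
          by_contra h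
          push Not at h
          have : (r : ℤ) * 2 ≤ r * k := by nlinarith
          omega
        have : k = 1 := by omega
        subst this
        omega
      · intro h
        exact ⟨1, by omega⟩
    have h6 : (r : ℤ) ∣ ((a + 1 : ℕ) : ℤ) - b ↔ a + 1 = b := by
      constructor
      · rintro ⟨k, hk⟩
        have hk0 : -1 < k := by
          by_contra h
          push Not at h
          have : (r : ℤ) * k ≤ r * (-1) := by nlinarith
          omega
        have hk1 : k < 1 := by
          by_contra h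
          push Not at h
          have : (r : ℤ) * 1 ≤ r * k := by nlinarith
          omega
        have : k = 0 := by omega
        subst this
        omega
      · intro h
        exact ⟨0, by omega⟩
    rw [if_neg h4] at h3
    have h7 : vsum r (a + 1 + 1) b =
        2 * ((min (min (a + 1) b) (min (r - (a + 1)) (r - b)) : ℕ) : ℝ) -
        ((min (min a b) (min (r - a) (r - b)) : ℕ) : ℝ) -
        (if a + 1 + b = r then 1 else 0) - (if a + 1 = b then 1 else 0) := by
      simp only [h5, h6] at h3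
      have : a + 1 + 1 = a + 2 := rfl
      rw [this]
      linarith
    rw [h7]
    have h8 : ((min (min (a + 1 + 1) b) (min (r - (a + 1 + 1)) (r - b)) : ℕ) : ℤ) =
        2 * ((min (min (a + 1) b) (min (r - (a + 1)) (r - b)) : ℕ) : ℤ) -
        ((min (min a b) (min (r - a) (r - b)) : ℕ) : ℤ) -
        (if a + 1 + b = r then 1 else 0) - (if a + 1 = b then 1 else 0) := by
      split_ifs <;> omega
    have h9 := congrArg (fun x : ℤ => (x : ℝ)) h8
    push_cast at h9 ⊢
    rw [h9]

end Pool.Agent.Lib.MP_fcdc94_gt
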