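import Mathlib
import Pool.Agent.Lib.MP_fcdc94_gt.HopfEval
import Pool.Agent.Lib.MP_fcdc94_gt.Compare

set_option autoImplicit false

/-!
The contribution of the phase `0` vanishes for some lens spaces.
-/

open Complex Filter Topology

namespace Pool.Agent.Lib.MP_fcdc94_gt

lemma dvd_sq_iff {s l j : ℕ} (hs : Squarefree s) (hl : 0 < l) :
    s * l ^ 2 ∣ j ^ 2 ↔ s * l ∣ j := by
  constructor
  · intro h
    have h1 : l ^ 2 ∣ j ^ 2 := (Dvd.intro_left s rfl).trans h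
    have h2 : l ∣ j := (Nat.pow_dvd_pow_iff (by norm_num)).1 h1
    obtain ⟨k, rfl⟩ := h2
    have h3 : s ∣ k ^ 2 := by
      have : l ^ 2 * s ∣ l ^ 2 * k ^ 2 := by
        rw [mul_comm (l ^ 2) s, ← mul_pow]; exact h
      exact Nat.dvd_of_mul_dvd_mul_left (by positivity) this
    have h4 : s ∣ k := (hs.dvd_pow_iff_dvd (by norm_num)).1 h3
    rw [mul_comm s l]
    exact Nat.mul_dvd_mul_left l h4
  · rintro ⟨k, rfl⟩
    exact ⟨s * k ^ 2, by ring⟩

lemma class_sum {s l : ℕ} (hs : Squarefree s) (hs0 : 0 < s) (hl : 0 < l) (c : ℤ)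
    (hc : ¬ (l : ℤ) ∣ c) :
    ∑ j ∈ (Finset.range (s * l ^ 2)).filter (fun j => s * l ^ 2 ∣ j ^ 2),
      cexp (2 * Real.pi * Complex.I * c * j / (s * l ^ 2 : ℕ)) = 0 := by
  have hs' : (s : ℂ) ≠ 0 := by exact_mod_cast hs0.ne'
  have hl' : (l : ℂ) ≠ 0 := by exact_mod_cast hl.ne'
  have hset : (Finset.range (s * l ^ 2)).filter (fun j => s * l ^ 2 ∣ j ^ 2) =
      (Finset.range l).image (fun k => s * l * k) := by
    ext j
    simp only [Finset.mem_filter, Finset.mem_range, Finset.mem_image, dvd_sq_iff hs hl]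
    constructor
    · rintro ⟨h1, k, rfl⟩
      refine ⟨k, ?_, rfl⟩
      have : s * l * k < s * l * l := by
        calc s * l * k < s * l ^ 2 := h1
          _ = s * l * l := by ring
      exact Nat.lt_of_mul_lt_mul_left this
    · rintro ⟨k, h1, rfl⟩
      refine ⟨?_, Dvd.intro _ rfl⟩
      calc s * l * k < s * l * l := Nat.mul_lt_mul_of_pos_left h1 (by positivity)
        _ = s * l ^ 2 := by ring
  rw [hset, Finset.sum_image (by
    intro a _ b _ hab
    exact Nat.eq_of_mul_eq_mul_left (by positivity) hab)]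
  set x : ℂ := cexp (2 * Real.pi * Complex.I * c / l) with hx
  have h1 : ∀ k : ℕ, cexp (2 * Real.pi * Complex.I * c * ((s * l * k : ℕ) : ℂ) /
      (s * l ^ 2 : ℕ)) = x ^ k := by
    intro k
    rw [hx, ← Complex.exp_nat_mul]
    congr 1
    push_cast
    field_simp
  simp only [h1]
  have hxl : x ^ l = 1 := by
    rw [hx, ← Complex.exp_nat_mul]
    have : (l : ℂ) * (2 * Real.pi * Complex.I * c / l) = c * (2 * Real.pi * Complex.I) := by
      field_simp
    rw [this, Complex.exp_int_mul_two_pi_mul_I]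
  have hx1 : x ≠ 1 := by
    intro h
    rw [hx, Complex.exp_eq_one_iff] at h
    obtain ⟨k, hk⟩ := h
    apply hc
    refine ⟨k, ?_⟩
    have h2 : (2 * Real.pi * Complex.I : ℂ) ≠ 0 := Complex.two_pi_I_ne_zero
    have h3 : (c : ℂ) = l * k := by
      apply mul_left_cancel₀ h2
      field_simp at hk
      linear_combination (2 * Real.pi * Complex.I : ℂ) * hk
    exact_mod_cast h3
  rw [geom_sum_eq hx1, hxl]
  simp

lemma w_eq_one_iff (m n p j : ℕ) (hp : 0 < p) (hmn : m * n = p + 1) :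
    cexp (-(2 * Real.pi * Complex.I * m * j ^ 2 / p)) = 1 ↔ p ∣ j ^ 2 := by
  have hp' : (p : ℂ) ≠ 0 := by exact_mod_cast hp.ne'
  rw [Complex.exp_eq_one_iff]
  constructor
  · rintro ⟨k, hk⟩
    have h2 : (2 * Real.pi * Complex.I : ℂ) ≠ 0 := Complex.two_pi_I_ne_zero
    have h3 : (m * j ^ 2 : ℂ) = p * (-k) := by
      apply mul_left_cancel₀ h2
      field_simp at hk
      linear_combination (-(2 * Real.pi * Complex.I) : ℂ) * hk
    have h4 : (m * j ^ 2 : ℤ) = p * (-k) := by exact_mod_cast h3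
    have h5 : p ∣ m * j ^ 2 := by
      have : (p : ℤ) ∣ ((m * j ^ 2 : ℕ) : ℤ) := ⟨-k, by push_cast; exact h4⟩
      exact_mod_cast this
    have h6 : Nat.Coprime p m := by
      rw [Nat.Coprime, ← Nat.dvd_one]
      have e1 : Nat.gcd p m ∣ m * n := (Nat.gcd_dvd_right p m).trans (Dvd.intro _ rfl)
      rw [hmn] at e1
      exact (Nat.dvd_add_right (Nat.gcd_dvd_left p m)).1 e1
    exact h6.dvd_of_dvd_mul_left h5
  · rintro ⟨k, hk⟩
    refine ⟨-(m * k), ?_⟩
    have : (j : ℂ) ^ 2 = p * k := by exact_mod_cast hk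
    rw [this]
    push_cast
    field_simp

lemma taylor_bound (y : ℝ) (T r : ℕ) (hr : 1 ≤ r) :
    ‖cexp (y * Complex.I / r) - ∑ t ∈ Finset.range T, (y * Complex.I / r) ^ t / t.factorial‖ ≤
      |y| ^ T * Real.exp |y| * (r : ℝ) ^ (-(T : ℝ)) := by
  have hrR : (0 : ℝ) < r := by exact_mod_cast hr
  have hr1 : (1 : ℝ) ≤ r := by exact_mod_cast hr
  refine (Complex.norm_exp_sub_sum_le_norm_mul_exp _ T).trans ?_
  have h1 : ‖(y * Complex.I / r : ℂ)‖ = |y| / r := by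
    rw [norm_div, norm_mul, Complex.norm_I, mul_one, Complex.norm_real, Complex.norm_natCast,
      Real.norm_eq_abs]
  rw [h1, div_pow, Real.rpow_neg hrR.le, Real.rpow_natCast]
  have h2 : Real.exp (|y| / r) ≤ Real.exp |y| := by
    apply Real.exp_le_exp.2
    exact div_le_self (abs_nonneg y) hr1
  calc |y| ^ T / (r : ℝ) ^ T * Real.exp (|y| / r) ≤ |y| ^ T / (r : ℝ) ^ T * Real.exp |y| := by
        gcongr
    _ = _ := by rw [div_eq_mul_inv]; ring

/-- No expansion of any order with a nonzero contribution of the phase `0`. -/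
theorem hopf_fail_nat (m n s l : ℕ) (hm : 0 < m) (hs : Squarefree s)
    (hmn : m * n = s * l ^ 2 + 1) (h1 : ¬ (l : ℤ) ∣ m - 1) (h2 : ¬ (l : ℤ) ∣ m + 1) (f : ℤ)
    (δ : ℝ) (hδ : 0 < δ) (X : Expansion) (hv : 0 < X.v 0) :
    ¬ ∀ E, X.Bound δ (hopfSurgery m n f) E := by
  classical
  intro hB
  have hs0 : 0 < s := Nat.pos_of_ne_zero hs.ne_zero
  have hl : 0 < l := by
    rcases Nat.eq_zero_or_pos l with h | h
    · exfalso
      subst h
      have hm1 : m = 1 := by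
        have : m * n = 1 := by simpa using hmn
        exact Nat.eq_one_of_mul_eq_one_right this
      subst hm1
      simp at h1
    · exact h
  set p := s * l ^ 2 with hp
  have hp0 : 0 < p := by positivity
  set w : ℕ → ℂ := fun j => cexp (-(2 * Real.pi * Complex.I * m * j ^ 2 / p)) with hw
  set A : ℕ → ℂ := fun j => cexp (2 * Real.pi * Complex.I * (m - 1) * j / p) with hA
  set B : ℕ → ℂ := fun j => cexp (2 * Real.pi * Complex.I * (-m - 1) * j / p) with hBd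
  set K : ℂ := -(cexp (Real.pi * Complex.I * f / 4) *
    cexp (-(Real.pi * Complex.I * (m + n) / 4)) / (Real.sqrt (2 * p) : ℝ)) with hK
  set y₁ : ℝ := -(Real.pi * (m + n - 2) / (2 * p)) - Real.pi * f / 2 with hy₁
  set y₂ : ℝ := -(Real.pi * (m + n + 2) / (2 * p)) - Real.pi * f / 2 with hy₂
  have hwn : ∀ j, ‖w j‖ = 1 := by
    intro j
    have : (-(2 * Real.pi * Complex.I * m * j ^ 2 / p) : ℂ) =
        ((-(2 * Real.pi * m * (j : ℝ) ^ 2 / p) : ℝ) : ℂ) * Complex.I := by push_cast; ring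
    simp only [hw]
    rw [this, Complex.norm_exp_ofReal_mul_I]
  have hAn : ∀ j, ‖A j‖ = 1 := by
    intro j
    have : (2 * Real.pi * Complex.I * (m - 1) * j / p : ℂ) =
        ((2 * Real.pi * (m - 1) * j / p : ℝ) : ℂ) * Complex.I := by push_cast; ring
    simp only [hA]
    rw [this, Complex.norm_exp_ofReal_mul_I]
  have hBn : ∀ j, ‖B j‖ = 1 := by
    intro j
    have : (2 * Real.pi * Complex.I * (-m - 1) * j / p : ℂ) =
        ((2 * Real.pi * (-m - 1) * j / p : ℝ) : ℂ) * Complex.I := by push_cast; ring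
    simp only [hBd]
    rw [this, Complex.norm_exp_ofReal_mul_I]
  set J : Finset ℕ := (Finset.range p).filter (fun j => ¬ p ∣ j ^ 2) with hJ
  -- reduce to the nontrivial classes
  have hred : ∀ (D : ℕ → ℂ), ∑ j ∈ (Finset.range p).filter (fun j => p ∣ j ^ 2), D j = 0 →
      ∀ r : ℕ, ∑ j ∈ Finset.range p, w j ^ r * D j = ∑ j ∈ J, w j ^ r * D j := by
    intro D hD r
    rw [← Finset.sum_filter_add_sum_filter_not (Finset.range p) (fun j => p ∣ j ^ 2)]
    have : ∑ j ∈ (Finset.range p).filter (fun j => p ∣ j ^ 2), w j ^ r * D j = 0 := by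
      rw [← hD]
      refine Finset.sum_congr rfl fun j hj => ?_
      have hj2 := (Finset.mem_filter.1 hj).2
      have : w j = 1 := (w_eq_one_iff m n p j hp0 hmn).2 hj2
      rw [this, one_pow, one_mul]
    rw [this, zero_add]
  have hA0 : ∑ j ∈ (Finset.range p).filter (fun j => p ∣ j ^ 2), A j = 0 := by
    have := class_sum hs hs0 hl (m - 1) h1
    rw [← hp] at this
    simpa [hA] using this
  have hB0 : ∑ j ∈ (Finset.range p).filter (fun j => p ∣ j ^ 2), B j = 0 := by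
    have := class_sum hs hs0 hl (-m - 1) (by
      intro h
      apply h2
      have : (m : ℤ) + 1 = -(-m - 1) := by ring
      rw [this]
      exact (dvd_neg).2 h)
    rw [← hp] at this
    simpa [hBd] using this
  have hSn : ∀ (D : ℕ → ℂ), (∀ j, ‖D j‖ = 1) → ∀ r : ℕ, ‖∑ j ∈ J, w j ^ r * D j‖ ≤ p := by
    intro D hD r
    calc ‖∑ j ∈ J, w j ^ r * D j‖ ≤ ∑ j ∈ J, ‖w j ^ r * D j‖ := norm_sum_le _ _
      _ = ∑ j ∈ J, (1 : ℝ) := by
          refine Finset.sum_congr rfl fun j _ => ?_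
          rw [norm_mul, norm_pow, hwn, hD, one_pow, one_mul]
      _ = (J.card : ℝ) := by simp
      _ ≤ (p : ℝ) := by
          have : J.card ≤ (Finset.range p).card := Finset.card_filter_le _ _
          rw [Finset.card_range] at this
          exact_mod_cast this
  -- choose the orders
  obtain ⟨T, hT⟩ : ∃ T : ℕ, -(1 / 2) - (T : ℝ) < X.d 0 := by
    obtain ⟨T, hT⟩ := exists_nat_gt (-(1 / 2) - X.d 0)
    exact ⟨T, by linarith⟩
  obtain ⟨E, hE⟩ : ∃ E : ℕ, X.top - (E + 1) * δ < X.d 0 := by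
    obtain ⟨E, hE⟩ := exists_nat_gt ((X.top - X.d 0) / δ)
    refine ⟨E, ?_⟩
    rw [div_lt_iff₀ hδ] at hE
    nlinarith
  let z : J × Fin T → ℂ := fun i => w i.1
  let α : J × Fin T → ℝ := fun i => -(1 / 2) - (i.2 : ℕ)
  let g : J × Fin T → ℂ := fun i => K * (A i.1 * ((y₁ * Complex.I) ^ (i.2 : ℕ) /
    (i.2 : ℕ).factorial) - B i.1 * ((y₂ * Complex.I) ^ (i.2 : ℕ) / (i.2 : ℕ).factorial))
  have hz : ∀ i, ‖z i‖ = 1 := fun i => hwn _
  have hF : ∀ r : ℕ, 2 ≤ r → ∑ i, g i * z i ^ r * (((r : ℝ) ^ (α i) : ℝ) : ℂ) =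
      K * (((r : ℝ) ^ (-(1 / 2) : ℝ) : ℝ) : ℂ) *
        ((∑ t ∈ Finset.range T, (y₁ * Complex.I / r) ^ t / t.factorial) *
          (∑ j ∈ J, w j ^ r * A j) -
        (∑ t ∈ Finset.range T, (y₂ * Complex.I / r) ^ t / t.factorial) *
          (∑ j ∈ J, w j ^ r * B j)) := by
    intro r hr
    have hrR : (0 : ℝ) < r := by exact_mod_cast (by omega : 0 < r)
    have hr' : (r : ℂ) ≠ 0 := by exact_mod_cast (by omega : r ≠ 0)
    rw [Fintype.sum_prod_type]
    have e1 : ∀ j : J, ∑ t : Fin T, g (j, t) * z (j, t) ^ r *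
        (((r : ℝ) ^ (α (j, t)) : ℝ) : ℂ) = K * (((r : ℝ) ^ (-(1 / 2) : ℝ) : ℝ) : ℂ) *
        ((∑ t ∈ Finset.range T, (y₁ * Complex.I / r) ^ t / t.factorial) * (w j ^ r * A j) -
        (∑ t ∈ Finset.range T, (y₂ * Complex.I / r) ^ t / t.factorial) * (w j ^ r * B j)) := by
      intro j
      have e2 : ∀ t : ℕ, (((r : ℝ) ^ (-(1 / 2) - (t : ℝ)) : ℝ) : ℂ) =
          (((r : ℝ) ^ (-(1 / 2) : ℝ) : ℝ) : ℂ) * (1 / (r : ℂ) ^ t) := by
        intro t
        rw [Real.rpow_sub hrR, Real.rpow_natCast]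
        push_cast
        ring
      simp only [g, z, α, e2]
      rw [Fin.sum_univ_eq_sum_range (fun t => K * (A j * ((y₁ * Complex.I) ^ t / t.factorial) -
        B j * ((y₂ * Complex.I) ^ t / t.factorial)) * w j ^ r *
        ((((r : ℝ) ^ (-(1 / 2) : ℝ) : ℝ) : ℂ) * (1 / (r : ℂ) ^ t))) T]
      rw [Finset.sum_mul, Finset.sum_mul, ← Finset.sum_sub_distrib, Finset.mul_sum]
      refine Finset.sum_congr rfl fun t _ => ?_
      rw [div_pow, div_pow]
      field_simp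
    rw [Finset.sum_congr rfl (fun j _ => e1 j), ← Finset.mul_sum]
    congr 1
    rw [Finset.sum_sub_distrib, ← Finset.mul_sum, ← Finset.mul_sum]
    congr 2
    · exact Finset.sum_coe_sort J (fun j => w j ^ r * A j)
    · exact Finset.sum_coe_sort J (fun j => w j ^ r * B j)
  set C : ℝ := ‖K‖ * (|y₁| ^ T * Real.exp |y₁| * p + |y₂| ^ T * Real.exp |y₂| * p) with hC
  have hZ : ∀ r : ℕ, 2 ≤ r → ‖hopfSurgery m n f r -
      ∑ i, g i * z i ^ r * (((r : ℝ) ^ (α i) : ℝ) : ℂ)‖ ≤ C * (r : ℝ) ^ (-(1 / 2) - (T : ℝ)) := by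
    intro r hr
    have hrR : (0 : ℝ) < r := by exact_mod_cast (by omega : 0 < r)
    rw [hF r hr, hopfSurgery_eq m n p r hm (by omega) hp0 hmn f]
    have e1 := hred A hA0 r
    have e2 := hred B hB0 r
    simp only [hw, hA, hBd] at e1 e2
    rw [e1, e2]
    have t1 := taylor_bound y₁ T r (by omega)
    have t2 := taylor_bound y₂ T r (by omega)
    have n1 := hSn A hAn r
    have n2 := hSn B hBn r
    simp only [hw, hA, hBd] at n1 n2
    set S₁ := ∑ j ∈ J, cexp (-(2 * Real.pi * Complex.I * m * j ^ 2 / p)) ^ r *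
      cexp (2 * Real.pi * Complex.I * (m - 1) * j / p)
    set S₂ := ∑ j ∈ J, cexp (-(2 * Real.pi * Complex.I * m * j ^ 2 / p)) ^ r *
      cexp (2 * Real.pi * Complex.I * (-m - 1) * j / p)
    set P₁ := ∑ t ∈ Finset.range T, (y₁ * Complex.I / r) ^ t / t.factorial
    set P₂ := ∑ t ∈ Finset.range T, (y₂ * Complex.I / r) ^ t / t.factorial
    have e3 : K * (((r : ℝ) ^ (-(1 / 2) : ℝ) : ℝ) : ℂ) *
        (cexp (y₁ * Complex.I / r) * S₁ - cexp (y₂ * Complex.I / r) * S₂) -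
        K * (((r : ℝ) ^ (-(1 / 2) : ℝ) : ℝ) : ℂ) * (P₁ * S₁ - P₂ * S₂) =
        K * (((r : ℝ) ^ (-(1 / 2) : ℝ) : ℝ) : ℂ) *
        ((cexp (y₁ * Complex.I / r) - P₁) * S₁ - (cexp (y₂ * Complex.I / r) - P₂) * S₂) := by
      ring
    have e4 : ‖(cexp (y₁ * Complex.I / r) - P₁) * S₁ - (cexp (y₂ * Complex.I / r) - P₂) * S₂‖ ≤
        (|y₁| ^ T * Real.exp |y₁| * p + |y₂| ^ T * Real.exp |y₂| * p) *
          (r : ℝ) ^ (-(T : ℝ)) := by
      calc _ ≤ ‖(cexp (y₁ * Complex.I / r) - P₁) * S₁‖ +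
            ‖(cexp (y₂ * Complex.I / r) - P₂) * S₂‖ := norm_sub_le _ _
        _ ≤ |y₁| ^ T * Real.exp |y₁| * (r : ℝ) ^ (-(T : ℝ)) * p +
            |y₂| ^ T * Real.exp |y₂| * (r : ℝ) ^ (-(T : ℝ)) * p := by
            rw [norm_mul, norm_mul]
            gcongr
        _ = _ := by ring
    have e5 : (r : ℝ) ^ (-(1 / 2) - (T : ℝ)) =
        (r : ℝ) ^ (-(1 / 2) : ℝ) * (r : ℝ) ^ (-(T : ℝ)) := by
      rw [← Real.rpow_add hrR]; congr 1
    have e6 : ‖K * (((r : ℝ) ^ (-(1 / 2) : ℝ) : ℝ) : ℂ) *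
        (cexp (y₁ * Complex.I / r) * S₁ - cexp (y₂ * Complex.I / r) * S₂) -
        K * (((r : ℝ) ^ (-(1 / 2) : ℝ) : ℝ) : ℂ) * (P₁ * S₁ - P₂ * S₂)‖ ≤
        C * (r : ℝ) ^ (-(1 / 2) - (T : ℝ)) := by
      rw [e3, norm_mul, norm_mul, Complex.norm_real, Real.norm_of_nonneg (by positivity), e5, hC]
      calc _ ≤ ‖K‖ * (r : ℝ) ^ (-(1 / 2) : ℝ) *
          ((|y₁| ^ T * Real.exp |y₁| * p + |y₂| ^ T * Real.exp |y₂| * p) *
            (r : ℝ) ^ (-(T : ℝ))) := mul_le_mul_of_nonneg_left e4 (by positivity)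
        _ = _ := by ring
    exact e6
  have key := X.compare (hB E) z hz α g _ C hZ (X.d 0) hT hE 1 (X.d 0) le_rfl
  have hL : ∑ i ∈ Finset.univ.filter (fun i => (z i, α i) = (1, X.d 0)), g i = 0 := by
    refine Finset.sum_eq_zero fun i hi => ?_
    exfalso
    simp only [Finset.mem_filter, Finset.mem_univ, true_and, Prod.mk.injEq] at hi
    have h3 : w i.1 = 1 := hi.1
    have h4 := (Finset.mem_filter.1 i.1.2).2
    exact h4 ((w_eq_one_iff m n p i.1 hp0 hmn).1 h3)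
  have hR := X.rhs_lead hδ E 0
  rw [X.z_zero] at hR
  rw [hL, hR] at key
  exact X.coeff_zero_ne hv key.symm

end Pool.Agent.Lib.MP_fcdc94_gt
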