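import Mathlib
import Pool.Agent.Lib.MP_fcdc94_gt.Chain
import Pool.Agent.Lib.MP_fcdc94_gt.HopfFail

set_option autoImplicit false

/-!
The contribution of the phase `0` vanishes for some lens spaces: the general case.
-/

open Complex Filter Topology

namespace Pool.Agent.Lib.MP_fcdc94_gt

lemma w_eq_one_iff' (q : ℤ) (p j : ℕ) (hp : 0 < p) (hcop : IsCoprime (p : ℤ) q) :
    cexp (-(2 * Real.pi * Complex.I * q * j ^ 2 / p)) = 1 ↔ p ∣ j ^ 2 := by
  have hp' : (p : ℂ) ≠ 0 := by exact_mod_cast hp.ne'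
  rw [Complex.exp_eq_one_iff]
  constructor
  · rintro ⟨k, hk⟩
    have h2 : (2 * Real.pi * Complex.I : ℂ) ≠ 0 := Complex.two_pi_I_ne_zero
    have h3 : (q * j ^ 2 : ℂ) = p * (-k) := by
      apply mul_left_cancel₀ h2
      field_simp at hk
      linear_combination (-(2 * Real.pi * Complex.I) : ℂ) * hk
    have h4 : (q * j ^ 2 : ℤ) = p * (-k) := by exact_mod_cast h3
    have h5 : (p : ℤ) ∣ q * j ^ 2 := ⟨-k, h4⟩
    have h6 : (p : ℤ) ∣ (j : ℤ) ^ 2 := hcop.dvd_of_dvd_mul_left h5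
    exact_mod_cast h6
  · rintro ⟨k, hk⟩
    refine ⟨-(q * k), ?_⟩
    have : (j : ℂ) ^ 2 = p * k := by exact_mod_cast hk
    rw [this]
    push_cast
    field_simp

/-- A sequence given by a formula of lens space type, with no contribution at the phase `0`. -/
theorem fail_of_formula (p s l : ℕ) (q c₁ c₂ : ℤ) (hs : Squarefree s) (hp : p = s * l ^ 2)
    (hp0 : 0 < p) (hcop : IsCoprime (p : ℤ) q)
    (h1 : ¬ (l : ℤ) ∣ c₁) (h2 : ¬ (l : ℤ) ∣ c₂) (Z : ℕ → ℂ) (K : ℂ) (y₁ y₂ : ℝ)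
    (hform : ∀ r : ℕ, 2 ≤ r → Z r = K * (((r : ℝ) ^ (-(1 / 2) : ℝ) : ℝ) : ℂ) *
      (cexp (y₁ * Complex.I / r) * ∑ j ∈ Finset.range p,
        cexp (-(2 * Real.pi * Complex.I * q * j ^ 2 / p)) ^ r *
          cexp (2 * Real.pi * Complex.I * c₁ * j / p) -
      cexp (y₂ * Complex.I / r) * ∑ j ∈ Finset.range p,
        cexp (-(2 * Real.pi * Complex.I * q * j ^ 2 / p)) ^ r *
          cexp (2 * Real.pi * Complex.I * c₂ * j / p)))
    (δ : ℝ) (hδ : 0 < δ) (X : Expansion) (hv : 0 < X.v 0) :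
    ¬ ∀ E, X.Bound δ Z E := by
  classical
  intro hB
  have hs0 : 0 < s := Nat.pos_of_ne_zero hs.ne_zero
  have hl : 0 < l := by
    rcases Nat.eq_zero_or_pos l with h | h
    · exfalso
      subst h
      simp at hp
      omega
    · exact h
  set w : ℕ → ℂ := fun j => cexp (-(2 * Real.pi * Complex.I * q * j ^ 2 / p)) with hw
  set A : ℕ → ℂ := fun j => cexp (2 * Real.pi * Complex.I * c₁ * j / p) with hA
  set B : ℕ → ℂ := fun j => cexp (2 * Real.pi * Complex.I * c₂ * j / p) with hBd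
  have hwn : ∀ j, ‖w j‖ = 1 := by
    intro j
    have : (-(2 * Real.pi * Complex.I * q * j ^ 2 / p) : ℂ) =
        ((-(2 * Real.pi * q * (j : ℝ) ^ 2 / p) : ℝ) : ℂ) * Complex.I := by push_cast; ring
    simp only [hw]
    rw [this, Complex.norm_exp_ofReal_mul_I]
  have hAn : ∀ j, ‖A j‖ = 1 := by
    intro j
    have : (2 * Real.pi * Complex.I * c₁ * j / p : ℂ) =
        ((2 * Real.pi * c₁ * j / p : ℝ) : ℂ) * Complex.I := by push_cast; ring
    simp only [hA]
    rw [this, Complex.norm_exp_ofReal_mul_I]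
  have hBn : ∀ j, ‖B j‖ = 1 := by
    intro j
    have : (2 * Real.pi * Complex.I * c₂ * j / p : ℂ) =
        ((2 * Real.pi * c₂ * j / p : ℝ) : ℂ) * Complex.I := by push_cast; ring
    simp only [hBd]
    rw [this, Complex.norm_exp_ofReal_mul_I]
  set J : Finset ℕ := (Finset.range p).filter (fun j => ¬ p ∣ j ^ 2) with hJ
  -- reduce to the nontrivial classes
  have hred : ∀ (D : ℕ → ℂ), ∑ j ∈ (Finset.range p).filter (fun j => p ∣ j ^ 2), D j = 0 →
      ∀ r : ℕ, ∑ j ∈ Finset.range p, w j ^ r * D j = ∑ j ∈ J, w j ^ r * D j := by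
    intro D hD r
    rw [← Finset.sum_filter_add_sum_filter_not (Finset.range p) (fun j => p ∣ j ^ 2)]
    have : ∑ j ∈ (Finset.range p).filter (fun j => p ∣ j ^ 2), w j ^ r * D j = 0 := by
      rw [← hD]
      refine Finset.sum_congr rfl fun j hj => ?_
      have hj2 := (Finset.mem_filter.1 hj).2
      have : w j = 1 := (w_eq_one_iff' q p j hp0 hcop).2 hj2
      rw [this, one_pow, one_mul]
    rw [this, zero_add]
  have hA0 : ∑ j ∈ (Finset.range p).filter (fun j => p ∣ j ^ 2), A j = 0 := by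
    have := class_sum hs hs0 hl c₁ h1
    rw [← hp] at this
    exact this
  have hB0 : ∑ j ∈ (Finset.range p).filter (fun j => p ∣ j ^ 2), B j = 0 := by
    have := class_sum hs hs0 hl c₂ h2
    rw [← hp] at this
    exact this
  have hSn : ∀ (D : ℕ → ℂ), (∀ j, ‖D j‖ = 1) → ∀ r : ℕ, ‖∑ j ∈ J, w j ^ r * D j‖ ≤ p := by
    intro D hD r
    calc ‖∑ j ∈ J, w j ^ r * D j‖ ≤ ∑ j ∈ J, ‖w j ^ r * D j‖ := norm_sum_le _ _
      _ = ∑ j ∈ J, (1 : ℝ) := by
          refine Finset.sum_congr rfl fun j _ => ?_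
          rw [norm_mul, norm_pow, hwn, hD, one_pow, one_mul]
      _ = (J.card : ℝ) := by simp
      _ ≤ (p : ℝ) := by
          have : J.card ≤ (Finset.range p).card := Finset.card_filter_le _ _
          rw [Finset.card_range] at this
          exact_mod_cast this
  -- choose the orders
  obtain ⟨T, hT⟩ : ∃ T : ℕ, -(1 / 2) - (T : ℝ) < X.d 0 := by
    obtain ⟨T, hT⟩ := exists_nat_gt (-(1 / 2) - X.d 0)
    exact ⟨T, by linarith⟩
  obtain ⟨E, hE⟩ : ∃ E : ℕ, X.top - (E + 1) * δ < X.d 0 := by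
    obtain ⟨E, hE⟩ := exists_nat_gt ((X.top - X.d 0) / δ)
    refine ⟨E, ?_⟩
    rw [div_lt_iff₀ hδ] at hE
    nlinarith
  let z : J × Fin T → ℂ := fun i => w i.1
  let α : J × Fin T → ℝ := fun i => -(1 / 2) - (i.2 : ℕ)
  let g : J × Fin T → ℂ := fun i => K * (A i.1 * ((y₁ * Complex.I) ^ (i.2 : ℕ) /
    (i.2 : ℕ).factorial) - B i.1 * ((y₂ * Complex.I) ^ (i.2 : ℕ) / (i.2 : ℕ).factorial))
  have hz : ∀ i, ‖z i‖ = 1 := fun i => hwn _
  have hF : ∀ r : ℕ, 2 ≤ r → ∑ i, g i * z i ^ r * (((r : ℝ) ^ (α i) : ℝ) : ℂ) =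
      K * (((r : ℝ) ^ (-(1 / 2) : ℝ) : ℝ) : ℂ) *
        ((∑ t ∈ Finset.range T, (y₁ * Complex.I / r) ^ t / t.factorial) *
          (∑ j ∈ J, w j ^ r * A j) -
        (∑ t ∈ Finset.range T, (y₂ * Complex.I / r) ^ t / t.factorial) *
          (∑ j ∈ J, w j ^ r * B j)) := by
    intro r hr
    have hrR : (0 : ℝ) < r := by exact_mod_cast (by omega : 0 < r)
    have hr' : (r : ℂ) ≠ 0 := by exact_mod_cast (by omega : r ≠ 0)
    rw [Fintype.sum_prod_type]
    have e1 : ∀ j : J, ∑ t : Fin T, g (j, t) * z (j, t) ^ r *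
        (((r : ℝ) ^ (α (j, t)) : ℝ) : ℂ) = K * (((r : ℝ) ^ (-(1 / 2) : ℝ) : ℝ) : ℂ) *
        ((∑ t ∈ Finset.range T, (y₁ * Complex.I / r) ^ t / t.factorial) * (w j ^ r * A j) -
        (∑ t ∈ Finset.range T, (y₂ * Complex.I / r) ^ t / t.factorial) * (w j ^ r * B j)) := by
      intro j
      have e2 : ∀ t : ℕ, (((r : ℝ) ^ (-(1 / 2) - (t : ℝ)) : ℝ) : ℂ) =
          (((r : ℝ) ^ (-(1 / 2) : ℝ) : ℝ) : ℂ) * (1 / (r : ℂ) ^ t) := by
        intro t
        rw [Real.rpow_sub hrR, Real.rpow_natCast]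
        push_cast
        ring
      simp only [g, z, α, e2]
      rw [Fin.sum_univ_eq_sum_range (fun t => K * (A j * ((y₁ * Complex.I) ^ t / t.factorial) -
        B j * ((y₂ * Complex.I) ^ t / t.factorial)) * w j ^ r *
        ((((r : ℝ) ^ (-(1 / 2) : ℝ) : ℝ) : ℂ) * (1 / (r : ℂ) ^ t))) T]
      rw [Finset.sum_mul, Finset.sum_mul, ← Finset.sum_sub_distrib, Finset.mul_sum]
      refine Finset.sum_congr rfl fun t _ => ?_
      rw [div_pow, div_pow]
      field_simp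
    rw [Finset.sum_congr rfl (fun j _ => e1 j), ← Finset.mul_sum]
    congr 1
    rw [Finset.sum_sub_distrib, ← Finset.mul_sum, ← Finset.mul_sum]
    congr 2
    · exact Finset.sum_coe_sort J (fun j => w j ^ r * A j)
    · exact Finset.sum_coe_sort J (fun j => w j ^ r * B j)
  set C : ℝ := ‖K‖ * (|y₁| ^ T * Real.exp |y₁| * p + |y₂| ^ T * Real.exp |y₂| * p) with hC
  have hZ : ∀ r : ℕ, 2 ≤ r → ‖Z r -
      ∑ i, g i * z i ^ r * (((r : ℝ) ^ (α i) : ℝ) : ℂ)‖ ≤ C * (r : ℝ) ^ (-(1 / 2) - (T : ℝ)) := by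
    intro r hr
    have hrR : (0 : ℝ) < r := by exact_mod_cast (by omega : 0 < r)
    rw [hF r hr, hform r hr]
    have e1 := hred A hA0 r
    have e2 := hred B hB0 r
    simp only [hw, hA, hBd] at e1 e2
    rw [e1, e2]
    have t1 := taylor_bound y₁ T r (by omega)
    have t2 := taylor_bound y₂ T r (by omega)
    have n1 := hSn A hAn r
    have n2 := hSn B hBn r
    simp only [hw, hA, hBd] at n1 n2
    set S₁ := ∑ j ∈ J, cexp (-(2 * Real.pi * Complex.I * q * j ^ 2 / p)) ^ r *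
      cexp (2 * Real.pi * Complex.I * c₁ * j / p)
    set S₂ := ∑ j ∈ J, cexp (-(2 * Real.pi * Complex.I * q * j ^ 2 / p)) ^ r *
      cexp (2 * Real.pi * Complex.I * c₂ * j / p)
    set P₁ := ∑ t ∈ Finset.range T, (y₁ * Complex.I / r) ^ t / t.factorial
    set P₂ := ∑ t ∈ Finset.range T, (y₂ * Complex.I / r) ^ t / t.factorial
    have e3 : K * (((r : ℝ) ^ (-(1 / 2) : ℝ) : ℝ) : ℂ) *
        (cexp (y₁ * Complex.I / r) * S₁ - cexp (y₂ * Complex.I / r) * S₂) -
        K * (((r : ℝ) ^ (-(1 / 2) : ℝ) : ℝ) : ℂ) * (P₁ * S₁ - P₂ * S₂) =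
        K * (((r : ℝ) ^ (-(1 / 2) : ℝ) : ℝ) : ℂ) *
        ((cexp (y₁ * Complex.I / r) - P₁) * S₁ - (cexp (y₂ * Complex.I / r) - P₂) * S₂) := by
      ring
    have e4 : ‖(cexp (y₁ * Complex.I / r) - P₁) * S₁ - (cexp (y₂ * Complex.I / r) - P₂) * S₂‖ ≤
        (|y₁| ^ T * Real.exp |y₁| * p + |y₂| ^ T * Real.exp |y₂| * p) *
          (r : ℝ) ^ (-(T : ℝ)) := by
      calc _ ≤ ‖(cexp (y₁ * Complex.I / r) - P₁) * S₁‖ +
            ‖(cexp (y₂ * Complex.I / r) - P₂) * S₂‖ := norm_sub_le _ _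
        _ ≤ |y₁| ^ T * Real.exp |y₁| * (r : ℝ) ^ (-(T : ℝ)) * p +
            |y₂| ^ T * Real.exp |y₂| * (r : ℝ) ^ (-(T : ℝ)) * p := by
            rw [norm_mul, norm_mul]
            gcongr
        _ = _ := by ring
    have e5 : (r : ℝ) ^ (-(1 / 2) - (T : ℝ)) =
        (r : ℝ) ^ (-(1 / 2) : ℝ) * (r : ℝ) ^ (-(T : ℝ)) := by
      rw [← Real.rpow_add hrR]; congr 1
    have e6 : ‖K * (((r : ℝ) ^ (-(1 / 2) : ℝ) : ℝ) : ℂ) *
        (cexp (y₁ * Complex.I / r) * S₁ - cexp (y₂ * Complex.I / r) * S₂) -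
        K * (((r : ℝ) ^ (-(1 / 2) : ℝ) : ℝ) : ℂ) * (P₁ * S₁ - P₂ * S₂)‖ ≤
        C * (r : ℝ) ^ (-(1 / 2) - (T : ℝ)) := by
      rw [e3, norm_mul, norm_mul, Complex.norm_real, Real.norm_of_nonneg (by positivity), e5, hC]
      calc _ ≤ ‖K‖ * (r : ℝ) ^ (-(1 / 2) : ℝ) *
          ((|y₁| ^ T * Real.exp |y₁| * p + |y₂| ^ T * Real.exp |y₂| * p) *
            (r : ℝ) ^ (-(T : ℝ))) := mul_le_mul_of_nonneg_left e4 (by positivity)
        _ = _ := by ring
    exact e6
  have key := X.compare (hB E) z hz α g _ C hZ (X.d 0) hT hE 1 (X.d 0) le_rfl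
  have hL : ∑ i ∈ Finset.univ.filter (fun i => (z i, α i) = (1, X.d 0)), g i = 0 := by
    refine Finset.sum_eq_zero fun i hi => ?_
    exfalso
    simp only [Finset.mem_filter, Finset.mem_univ, true_and, Prod.mk.injEq] at hi
    have h3 : w i.1 = 1 := hi.1
    have h4 := (Finset.mem_filter.1 i.1.2).2
    exact h4 ((w_eq_one_iff' q p i.1 hp0 hcop).1 h3)
  have hR := X.rhs_lead hδ E 0
  rw [X.z_zero] at hR
  rw [hL, hR] at key
  exact X.coeff_zero_ne hv key.symm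

/-- Lens spaces. -/
theorem lens_fail (a : List ℤ) (ha : ∀ x ∈ a, 2 ≤ x) (p q s l : ℕ)
    (hfr : frac a = ((p : ℤ), (q : ℤ))) (hs : Squarefree s) (hp : p = s * l ^ 2)
    (h1 : ¬ (l : ℤ) ∣ q - 1) (h2 : ¬ (l : ℤ) ∣ q + 1) (f : ℤ) (δ : ℝ) (hδ : 0 < δ)
    (X : Expansion) (hv : 0 < X.v 0) : ¬ ∀ E, X.Bound δ (chainSurgery a f) E := by
  obtain ⟨p', q', t, u, κ, hp', hfr', hdet, -, -, -, hform⟩ := chain_eq a ha
  rw [hfr] at hfr'
  obtain ⟨e1, e2⟩ := Prod.mk.inj hfr'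
  have e1' : p' = p := by exact_mod_cast e1.symm
  subst e1'
  subst e2
  have hcop : IsCoprime (p' : ℤ) (q : ℤ) := ⟨-u, t, by linear_combination hdet⟩
  refine fail_of_formula p' s l q (-(q + 1)) (-(q - 1)) hs hp hp' hcop
    (by rwa [dvd_neg]) (by rwa [dvd_neg]) (chainSurgery a f)
    (κ * cexp (Real.pi * Complex.I * f / 4))
    (-(Real.pi * (q + t + 2) / (2 * p')) - Real.pi * f / 2)
    (-(Real.pi * (q + t - 2) / (2 * p')) - Real.pi * f / 2) ?_ δ hδ X hv
  intro r hr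
  have hr' : (r : ℂ) ≠ 0 := by exact_mod_cast (by omega : r ≠ 0)
  have hp0 : (p' : ℂ) ≠ 0 := by exact_mod_cast hp'.ne'
  have h3 : framing f r = cexp (Real.pi * Complex.I * f / 4) *
      cexp (-(Real.pi * Complex.I * f / (2 * r))) := by
    unfold framing
    rw [← Complex.exp_add]
    congr 1
    field_simp
    ring
  have h4 : ∀ ε : ℤ, ε ^ 2 = 1 → cexp (-(Real.pi * Complex.I * f / (2 * r))) *
      wsum r p' q t ε (1 : ℕ) =
      cexp (((-(Real.pi * (q + t + 2 * ε) / (2 * p')) - Real.pi * f / 2 : ℝ) : ℂ) *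
        Complex.I / r) * ∑ j ∈ Finset.range p',
        cexp (-(2 * Real.pi * Complex.I * ((q : ℤ) : ℂ) * j ^ 2 / p')) ^ r *
          cexp (2 * Real.pi * Complex.I * ((-(q + ε) : ℤ) : ℂ) * j / p') := by
    intro ε hε
    have hε' : (ε : ℂ) ^ 2 = 1 := by exact_mod_cast hε
    unfold wsum gk
    rw [Finset.mul_sum, Finset.mul_sum]
    refine Finset.sum_congr rfl fun j _ => ?_
    rw [← Complex.exp_nat_mul, ← Complex.exp_add, ← Complex.exp_add, ← Complex.exp_add]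
    congr 1
    push_cast
    field_simp
    ring
  unfold chainSurgery
  rw [hform r (by omega) 1, h3]
  have h5 := h4 1 (by norm_num)
  have h6 := h4 (-1) (by norm_num)
  have h7 : (-(Real.pi * (q + t + 2) / (2 * p')) - Real.pi * f / 2 : ℝ) =
    (-(Real.pi * (q + t + 2 * ((1 : ℤ) : ℝ)) / (2 * p')) - Real.pi * f / 2) := by
    push_cast; ring
  have h8 : (-(Real.pi * (q + t - 2) / (2 * p')) - Real.pi * f / 2 : ℝ) =
    (-(Real.pi * (q + t + 2 * ((-1 : ℤ) : ℝ)) / (2 * p')) - Real.pi * f / 2) := by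
    push_cast; ring
  have h9 : (-((q : ℤ) - 1) : ℤ) = -(q + (-1)) := by ring
  rw [h7, h8, h9, ← h5, ← h6]
  ring

/-- Every pair of coprime integers `0 < q < p` comes from a chain. -/
theorem exists_chain : ∀ (q p : ℕ), q < p → Nat.Coprime p q →
    ∃ a : List ℤ, (∀ x ∈ a, 2 ≤ x) ∧ frac a = ((p : ℤ), (q : ℤ)) := by
  intro q
  induction q using Nat.strong_induction_on with
  | _ q ih =>
    intro p hqp hcop
    rcases Nat.eq_zero_or_pos q with h | h
    · subst h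
      have : p = 1 := by simpa using hcop
      subst this
      exact ⟨[], by simp, rfl⟩
    · -- `p = a q - q'` with `0 ≤ q' < q`
      set a : ℕ := (p + q - 1) / q with ha
      have hdm := Nat.div_add_mod (p + q - 1) q
      rw [← ha] at hdm
      have hmod : (p + q - 1) % q < q := Nat.mod_lt _ h
      have h1 : p ≤ q * a := by omega
      have h2 : q * a - p < q := by omega
      set q' : ℕ := q * a - p with hq'
      have hcop' : Nat.Coprime q q' := by
        have e1 : Nat.gcd q q' ∣ p := by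
          have e2 : Nat.gcd q q' ∣ q * a := (Nat.gcd_dvd_left q q').trans (Dvd.intro _ rfl)
          have e3 : q * a = q' + p := by omega
          rw [e3] at e2
          exact (Nat.dvd_add_right (Nat.gcd_dvd_right q q')).1 e2
        have e4 : Nat.gcd q q' ∣ Nat.gcd p q := Nat.dvd_gcd e1 (Nat.gcd_dvd_left q q')
        rw [hcop] at e4
        exact Nat.dvd_one.1 e4
      obtain ⟨l, hl, hfr⟩ := ih q' h2 q h2 hcop'
      refine ⟨(a : ℤ) :: l, ?_, ?_⟩
      · intro x hx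
        rcases List.mem_cons.1 hx with rfl | hx
        · have h3 : q * 1 < q * a := by omega
          have h4 : 1 < a := Nat.lt_of_mul_lt_mul_left h3
          exact_mod_cast h4
        · exact hl x hx
      · simp only [frac, hfr]
        have e3 : (q * a : ℤ) = q' + p := by
          have : q * a = q' + p := by omega
          exact_mod_cast this
        rw [Prod.mk.injEq]
        refine ⟨?_, rfl⟩
        linear_combination e3

end Pool.Agent.Lib.MP_fcdc94_gt
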